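import Mathlib

namespace Pool.Agent.P.MP_dad03b_lc

open Matrix Finset

variable {K : Type*} [Field K]

theorem rank_add_le' {m n : Type*} [Fintype n] (A B : Matrix m n K) :
    (A + B).rank ≤ A.rank + B.rank := by
  unfold Matrix.rank
  rw [Matrix.mulVecLin_add]
  have h : LinearMap.range (A.mulVecLin + B.mulVecLin) ≤
      LinearMap.range A.mulVecLin ⊔ LinearMap.range B.mulVecLin := by
    rintro _ ⟨v, rfl⟩
    exact Submodule.add_mem_sup ⟨v, rfl⟩ ⟨v, rfl⟩
  exact (Submodule.finrank_mono h).trans (Submodule.finrank_add_le_finrank_add_finrank _ _)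

/-- `A` is a matrix of rank at most `r` plus a matrix with at most `s` nonzero entries per row. -/
def NR {α β : Type*} [Fintype β] (A : Matrix α β K) (r s : ℝ) : Prop :=
  ∃ (S : Matrix α β K) (T : α → Finset β), ((A - S).rank : ℝ) ≤ r ∧
    (∀ x, ((T x).card : ℝ) ≤ s) ∧ ∀ x y, S x y ≠ 0 → y ∈ T x

theorem NR.mono {α β : Type*} [Fintype β] {A : Matrix α β K} {r s r' s' : ℝ} (h : NR A r s)
    (hr : r ≤ r') (hs : s ≤ s') : NR A r' s' := by
  obtain ⟨S, T, h1, h2, h3⟩ := h
  exact ⟨S, T, h1.trans hr, fun x => (h2 x).trans hs, h3⟩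

theorem NR.mul {α β γ : Type*} [Fintype β] [Fintype γ] {A : Matrix α β K} {B : Matrix β γ K}
    {r s r' s' : ℝ} (h : NR A r s) (h' : NR B r' s') (hs' : 0 ≤ s') :
    NR (A * B) (r + r') (s * s') := by
  classical
  obtain ⟨S, T, h1, h2, h3⟩ := h
  obtain ⟨S', T', h1', h2', h3'⟩ := h'
  refine ⟨S * S', fun x => (T x).biUnion T', ?_, ?_, ?_⟩
  · have e : A * B - S * S' = (A - S) * B + S * (B - S') := by
      rw [Matrix.sub_mul, Matrix.mul_sub]; abel
    rw [e]
    have h4 := rank_add_le' ((A - S) * B) (S * (B - S'))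
    have h5 := Matrix.rank_mul_le_left (A - S) B
    have h6 := Matrix.rank_mul_le_right S (B - S')
    have h7 : (((A - S) * B + S * (B - S')).rank : ℝ) ≤ ((A - S).rank : ℝ) + ((B - S').rank : ℝ) := by
      exact_mod_cast h4.trans (Nat.add_le_add h5 h6)
    linarith
  · intro x
    have h4 : (((T x).biUnion T').card : ℝ) ≤ ∑ z ∈ T x, ((T' z).card : ℝ) := by
      exact_mod_cast Finset.card_biUnion_le
    have h5 : ∑ z ∈ T x, ((T' z).card : ℝ) ≤ (T x).card • s' :=
      Finset.sum_le_card_nsmul _ _ _ fun z _ => h2' z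
    rw [nsmul_eq_mul] at h5
    exact h4.trans (h5.trans (mul_le_mul_of_nonneg_right (h2 x) hs'))
  · intro x y hxy
    rw [Matrix.mul_apply] at hxy
    obtain ⟨z, -, hz⟩ := Finset.exists_ne_zero_of_sum_ne_zero hxy
    exact Finset.mem_biUnion.2 ⟨z, h3 x z (left_ne_zero_of_mul hz), h3' z y (right_ne_zero_of_mul hz)⟩

theorem NR.diag {α : Type*} [Fintype α] [DecidableEq α] (c : α → K) :
    NR (Matrix.diagonal c) 0 1 := by
  refine ⟨Matrix.diagonal c, fun x => {x}, by simp, by simp, ?_⟩
  intro x y hxy
  by_contra h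
  rw [Finset.mem_singleton] at h
  exact hxy (Matrix.diagonal_apply_ne c (Ne.symm h))

theorem NR.one {α : Type*} [Fintype α] [DecidableEq α] : NR (1 : Matrix α α K) 0 1 :=
  NR.diag fun _ => 1

theorem NR.submatrix {α β α' β' : Type*} [Fintype β] [Fintype β'] {A : Matrix α β K} {r s : ℝ}
    (h : NR A r s) (e : α' → α) (e' : β' → β) (he : Function.Injective e') :
    NR (A.submatrix e e') r s := by
  classical
  obtain ⟨S, T, h1, h2, h3⟩ := h
  refine ⟨S.submatrix e e', fun x => Finset.univ.filter fun y => e' y ∈ T (e x), ?_, ?_, ?_⟩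
  · have : A.submatrix e e' - S.submatrix e e' = (A - S).submatrix e e' := rfl
    rw [this]
    refine le_trans ?_ h1
    exact_mod_cast Matrix.rank_submatrix_le (A - S) e e'
  · intro x
    refine le_trans ?_ (h2 (e x))
    have : (Finset.univ.filter fun y => e' y ∈ T (e x)).card ≤ (T (e x)).card := by
      refine Finset.card_le_card_of_injOn e' ?_ he.injOn
      intro y hy
      simpa using hy
    exact_mod_cast this
  · intro x y hxy
    simpa using h3 _ _ hxy

theorem rank_map_le {F : Type*} [Field F] [Algebra F K] [FiniteDimensional F K]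
    {α β : Type*} [Finite α] [Fintype β] (φ : K →ₗ[F] F) (L : Matrix α β K) :
    (L.map φ).rank ≤ Module.finrank F K * L.rank := by
  rw [Matrix.rank_eq_finrank_span_cols, Matrix.rank_eq_finrank_span_cols]
  set W := Submodule.span K (Set.range L.col) with hW
  have h1 : Submodule.span F (Set.range (L.map φ).col) ≤
      (W.restrictScalars F).map (φ.compLeft α) := by
    rw [Submodule.span_le]
    rintro _ ⟨j, rfl⟩
    exact ⟨L.col j, Submodule.subset_span ⟨j, rfl⟩, rfl⟩
  have h2 : Module.finrank F (W.restrictScalars F) = Module.finrank F K * Module.finrank K W :=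
    (Module.finrank_mul_finrank F K W).symm
  have : Module.Finite F (α → K) := inferInstance
  calc _ ≤ Module.finrank F ((W.restrictScalars F).map (φ.compLeft α)) :=
        Submodule.finrank_mono h1
    _ ≤ Module.finrank F (W.restrictScalars F) := Submodule.finrank_map_le _ _
    _ = _ := h2

theorem NR.descent {F : Type*} [Field F] [Algebra F K] [FiniteDimensional F K]
    {α β : Type*} [Finite α] [Fintype β] {A : Matrix α β F} {r s : ℝ}
    (h : NR (A.map (algebraMap F K)) r s) : NR A (Module.finrank F K * r) s := by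
  obtain ⟨φ, hφ⟩ := LinearMap.exists_leftInverse_of_injective (Algebra.linearMap F K)
    (LinearMap.ker_eq_bot.2 (algebraMap F K).injective)
  obtain ⟨S, T, h1, h2, h3⟩ := h
  refine ⟨S.map φ, T, ?_, h2, ?_⟩
  · have e : A - S.map φ = (A.map (algebraMap F K) - S).map φ := by
      ext x y
      have := LinearMap.congr_fun hφ (A x y)
      simp only [LinearMap.comp_apply, Algebra.linearMap_apply, LinearMap.id_apply] at this
      simp [this]
    rw [e]
    have h4 : (((A.map (algebraMap F K) - S).map φ).rank : ℝ) ≤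
        (Module.finrank F K : ℝ) * ((A.map (algebraMap F K) - S).rank : ℝ) := by
      exact_mod_cast rank_map_le φ _
    exact h4.trans (mul_le_mul_of_nonneg_left h1 (Nat.cast_nonneg _))
  · intro x y hxy
    refine h3 x y fun h0 => hxy ?_
    simp [h0]

/-- A matrix whose support, away from the rows `A` and the columns `B`, is small in every row. -/
theorem NR.of_pattern {α β : Type*} [Fintype α] [Fintype β] (M : Matrix α β K)
    (A : Finset α) (B : Finset β) (T : α → Finset β) (s : ℝ) (hs : 0 ≤ s)
    (hT : ∀ x, x ∉ A → ((T x).card : ℝ) ≤ s)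
    (hM : ∀ x y, x ∉ A → y ∉ B → M x y ≠ 0 → y ∈ T x) :
    NR M (A.card + B.card) s := by
  classical
  refine ⟨Matrix.of fun x y => if x ∉ A ∧ y ∉ B then M x y else 0,
    fun x => if x ∈ A then ∅ else T x, ?_, ?_, ?_⟩
  · have e : M - (Matrix.of fun x y => if x ∉ A ∧ y ∉ B then M x y else 0) =
        Matrix.diagonal (fun x => if x ∈ A then (1 : K) else 0) * M +
          (Matrix.diagonal (fun x => if x ∈ A then (0 : K) else 1) * M) *
            Matrix.diagonal (fun y => if y ∈ B then (1 : K) else 0) := by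
      ext x y
      simp only [Matrix.sub_apply, Matrix.of_apply, Matrix.add_apply, Matrix.diagonal_mul,
        Matrix.mul_diagonal]
      by_cases hx : x ∈ A <;> by_cases hy : y ∈ B <;> simp [hx, hy]
    rw [e]
    have h4 := rank_add_le' (Matrix.diagonal (fun x => if x ∈ A then (1 : K) else 0) * M)
      ((Matrix.diagonal (fun x => if x ∈ A then (0 : K) else 1) * M) *
            Matrix.diagonal (fun y => if y ∈ B then (1 : K) else 0))
    have h5 := Matrix.rank_mul_le_left (Matrix.diagonal (fun x => if x ∈ A then (1 : K) else 0)) M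
    have h6 := Matrix.rank_mul_le_right
      (Matrix.diagonal (fun x => if x ∈ A then (0 : K) else 1) * M)
      (Matrix.diagonal (fun y => if y ∈ B then (1 : K) else 0))
    rw [Matrix.rank_diagonal] at h5 h6
    have h7 : Fintype.card {x // (if x ∈ A then (1 : K) else 0) ≠ 0} = A.card := by
      rw [Fintype.card_subtype]; congr 1; ext x; simp
    have h8 : Fintype.card {x // (if x ∈ B then (1 : K) else 0) ≠ 0} = B.card := by
      rw [Fintype.card_subtype]; congr 1; ext x; simp
    rw [h7] at h5
    rw [h8] at h6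
    exact_mod_cast h4.trans (Nat.add_le_add h5 h6)
  · intro x
    by_cases hx : x ∈ A
    · simpa [hx] using hs
    · simpa [hx] using hT x hx
  · intro x y hxy
    simp only [Matrix.of_apply, ne_eq, ite_eq_right_iff, Classical.not_imp] at hxy
    obtain ⟨⟨hx, hy⟩, h0⟩ := hxy
    simpa [hx] using hM x y hx hy h0

end Pool.Agent.P.MP_dad03b_lc
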