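import Pool.Agent.P.MP_dad03b_lc.Fourier

namespace Pool.Agent.P.MP_dad03b_lc

open Finset Real

theorem finrank_cyclotomicField_le (F : Type*) [Field F] (N : ℕ) [NeZero (N : F)] :
    Module.finrank F (CyclotomicField N F) ≤ N := by
  have hN : N ≠ 0 := by
    rintro rfl
    exact NeZero.ne ((0 : ℕ) : F) Nat.cast_zero
  have : NeZero N := ⟨hN⟩
  have hζ := IsCyclotomicExtension.zeta_spec N F (CyclotomicField N F)
  rw [(hζ.powerBasis F).finrank, IsPrimitiveRoot.powerBasis_dim]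
  have h1 : minpoly F (IsCyclotomicExtension.zeta N F (CyclotomicField N F)) ∣
      Polynomial.X ^ N - Polynomial.C 1 := minpoly.dvd _ _ (by simp [hζ.pow_eq_one])
  have h2 := Polynomial.natDegree_le_of_dvd h1 (Polynomial.X_pow_sub_C_ne_zero (Nat.pos_of_ne_zero hN) _)
  rwa [Polynomial.natDegree_X_pow_sub_C] at h2

theorem NR_hankel_zmod {F : Type*} [Field F] {ι : Type*} [Fintype ι] [DecidableEq ι]
    (d : ι → ℕ) [∀ i, NeZero (d i)] (N : ℕ) (hN : (N : F) ≠ 0) (hd : ∀ i, d i ∣ N)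
    (τ : ι → ℕ) (m : ℕ) (hm : ∀ i, d i ≤ m * τ i) (t ρ β η : ℝ) (ht : 1 ≤ t)
    (hC : ∀ i, (τ i : ℝ) ≤ t) (hρ : ∀ i, (τ i : ℝ) ≤ ρ * d i)
    (hβ : 0 ≤ β) (hη0 : 0 ≤ η) (hη : η ≤ 1 / 2) (f : (∀ i, ZMod (d i)) → F) :
    NR (Matrix.of fun x y => f (x + y))
      (4 * N * m * ((∏ i, (d i : ℝ)) * exp (-(η ^ 2 * ρ * Fintype.card ι))))
      (exp (2 * m * ((4 * β * η * ρ + 2 * log t * ρ + t * exp (-β)) * Fintype.card ι))) := by
  have : NeZero (N : F) := ⟨hN⟩
  have hN0 : N ≠ 0 := by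
    rintro rfl
    exact hN Nat.cast_zero
  have : NeZero N := ⟨hN0⟩
  let K := CyclotomicField N F
  have : FiniteDimensional F K := IsCyclotomicExtension.finiteDimensional {N} F K
  have hζ := IsCyclotomicExtension.zeta_spec N F K
  have hω : ∀ i, IsPrimitiveRoot (IsCyclotomicExtension.zeta N F K ^ (N / d i)) (d i) := fun i =>
    hζ.pow (Nat.pos_of_ne_zero hN0) (Nat.div_mul_cancel (hd i)).symm
  let ψ : ∀ i, AddChar (ZMod (d i)) K := fun i =>
    AddChar.zmodChar (d i) ((IsPrimitiveRoot.iff_def _ _).mp (hω i)).left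
  have hψ : ∀ i, (ψ i).IsPrimitive := fun i =>
    AddChar.zmodChar_primitive_of_primitive_root (d i) (hω i)
  have hdK : ∀ i, (d i : K) ≠ 0 := by
    intro i h
    obtain ⟨c, hc⟩ := hd i
    have h1 : ((d i * c : ℕ) : K) = 0 := by rw [Nat.cast_mul, h, zero_mul]
    rw [← map_natCast (algebraMap F K), map_eq_zero, ← hc] at h1
    exact hN h1
  obtain ⟨c, hc⟩ := hankel_eq_four ψ hψ hdK fun z => algebraMap F K (f z)
  have h1 := NR_kron (fun i => four (ψ i)) (fun i => ZMod.val) (fun i => ZMod.val_injective _)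
    τ m (fun i a => (ZMod.val_lt a).trans_le (hm i)) (fun i c => four_lead_isUnit (hψ i) c)
    t ρ β η ht hC (fun i => by simpa using hρ i) hβ hη0 hη
  have h2 := (h1.mul (NR.diag c) zero_le_one).mul h1 (exp_pos _).le
  rw [← hc] at h2
  have h3 := NR.descent (F := F) (A := Matrix.of fun x y => f (x + y)) h2
  have h4 : (Fintype.card (∀ i, ZMod (d i)) : ℝ) = ∏ i, (d i : ℝ) := by
    rw [Fintype.card_pi]; simp
  rw [h4] at h3
  refine h3.mono ?_ (le_of_eq ?_)
  · have h5 : (Module.finrank F K : ℝ) ≤ N := by exact_mod_cast finrank_cyclotomicField_le F N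
    have h6 : 0 ≤ (m : ℝ) * ((∏ i, (d i : ℝ)) * exp (-(η ^ 2 * ρ * Fintype.card ι))) := by
      positivity
    nlinarith
  · rw [mul_one, ← Real.exp_add]; congr 1; ring

theorem NR_small (ε : ℝ) (hε : 0 < ε) (D : ℕ) (hD : 0 < D) : ∃ γ : ℝ, 0 < γ ∧
    ∀ (F : Type) [Field F] (N : ℕ), (N : F) ≠ 0 → ∀ (ι : Type) [Fintype ι] [DecidableEq ι]
      (d : ι → ℕ) [∀ i, NeZero (d i)], (∀ i, 2 ≤ d i ∧ d i ≤ D ∧ d i ∣ N) →
      ∀ f : (∀ i, ZMod (d i)) → F, NR (Matrix.of fun x y => f (x + y))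
        (4 * N * D * ((∏ i, (d i : ℝ)) * exp (-(γ * log (∏ i, (d i : ℝ))))))
        (exp (ε * log (∏ i, (d i : ℝ)))) := by
  have hD' : (0 : ℝ) < D := by exact_mod_cast hD
  set β : ℝ := 8 * D / ε with hβ
  have hβ0 : 0 < β := by positivity
  set η : ℝ := min (1 / 2) (ε / (32 * D * β)) with hη
  have hη0 : 0 < η := lt_min (by norm_num) (by positivity)
  refine ⟨η ^ 2 / D, by positivity, ?_⟩
  intro F _ N hN ι _ _ d _ hd f
  have h1 := NR_hankel_zmod d N hN (fun i => (hd i).2.2) (fun _ => 1) D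
    (fun i => by simpa using (hd i).2.1) 1 1 β η le_rfl (fun i => by simp)
    (fun i => by
      have : (2 : ℝ) ≤ d i := by exact_mod_cast (hd i).1
      simp only [Nat.cast_one, one_mul]; linarith)
    hβ0.le hη0.le (min_le_left _ _) f
  have hlog : log (∏ i, (d i : ℝ)) = ∑ i, log (d i) :=
    Real.log_prod fun i _ => by exact_mod_cast NeZero.ne (d i)
  have hup : log (∏ i, (d i : ℝ)) ≤ D * Fintype.card ι := by
    rw [hlog]
    calc ∑ i, log (d i) ≤ ∑ _i : ι, (D : ℝ) := Finset.sum_le_sum fun i _ => by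
          have h2 : (d i : ℝ) ≤ D := by exact_mod_cast (hd i).2.1
          exact (Real.log_le_self (Nat.cast_nonneg _)).trans h2
      _ = _ := by simp [mul_comm]
  have hlow : (Fintype.card ι : ℝ) ≤ 2 * log (∏ i, (d i : ℝ)) := by
    rw [hlog, Finset.mul_sum]
    calc (Fintype.card ι : ℝ) = ∑ _i : ι, (1 : ℝ) := by simp
      _ ≤ _ := Finset.sum_le_sum fun i _ => by
          have h2 : (2 : ℝ) ≤ d i := by exact_mod_cast (hd i).1
          have h3 := Real.log_le_log (by norm_num) h2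
          have := Real.log_two_gt_d9
          linarith
  refine h1.mono ?_ (Real.exp_le_exp.2 ?_)
  · refine mul_le_mul_of_nonneg_left (mul_le_mul_of_nonneg_left (Real.exp_le_exp.2 ?_)
      (by positivity)) (by positivity)
    rw [neg_le_neg_iff, mul_one, div_mul_eq_mul_div, div_le_iff₀ hD']
    nlinarith [mul_le_mul_of_nonneg_left hup (sq_nonneg η)]
  · have h2 : exp (-β) ≤ ε / (8 * D) := by
      rw [Real.exp_neg, inv_le_comm₀ (exp_pos _) (by positivity), inv_div]
      linarith [Real.add_one_le_exp β]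
    have h3 : β * η ≤ ε / (32 * D) := by
      have : η ≤ ε / (32 * D * β) := min_le_right _ _
      calc β * η ≤ β * (ε / (32 * D * β)) := mul_le_mul_of_nonneg_left this hβ0.le
        _ = _ := by field_simp
    have h4 : 2 * D * (4 * β * η * 1 + 2 * log 1 * 1 + 1 * exp (-β)) ≤ ε / 2 := by
      rw [Real.log_one]
      have h5 : 2 * D * (4 * (ε / (32 * D)) + ε / (8 * D)) = ε / 2 := by field_simp; ring
      rw [← h5]
      refine mul_le_mul_of_nonneg_left ?_ (by positivity)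
      linarith
    have h6 : (0 : ℝ) ≤ Fintype.card ι := Nat.cast_nonneg _
    calc _ = 2 * D * (4 * β * η * 1 + 2 * log 1 * 1 + 1 * exp (-β)) * Fintype.card ι := by ring
      _ ≤ ε / 2 * Fintype.card ι := mul_le_mul_of_nonneg_right h4 h6
      _ ≤ ε / 2 * (2 * log (∏ i, (d i : ℝ))) := mul_le_mul_of_nonneg_left hlow (by positivity)
      _ = _ := by ring

end Pool.Agent.P.MP_dad03b_lc
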