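import Pool.Agent.P.MP_dad03b_lc.Kron

namespace Pool.Agent.P.MP_dad03b_lc

open Finset Real

variable {K : Type*} [Field K]

/-- The character table of a cyclic group. -/
def four {d : ℕ} (ψ : AddChar (ZMod d) K) : Matrix (ZMod d) (ZMod d) K :=
  Matrix.of fun x y => ψ (x * y)

theorem four_lead_isUnit {d : ℕ} [NeZero d] {ψ : AddChar (ZMod d) K} (hψ : ψ.IsPrimitive)
    (c : ℕ) : IsUnit (lead (four ψ) ZMod.val c) := by
  classical
  rw [← Matrix.mulVec_injective_iff_isUnit]
  have hinj : Function.Injective ψ := by
    intro a b hab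
    have h1 : ψ (a - b) = 1 := by
      have h2 : ψ (a - b) * ψ b = 1 * ψ b := by
        rw [← AddChar.map_add_eq_mul, sub_add_cancel, one_mul, hab]
      have h3 : ψ b ≠ 0 := by
        intro h
        have : ψ (b + -b) = 0 := by rw [AddChar.map_add_eq_mul, h, zero_mul]
        simp at this
      exact mul_right_cancel₀ h3 h2
    exact sub_eq_zero.1 ((hψ.zmod_char_eq_one_iff d _).1 h1)
  suffices h : ∀ u, (lead (four ψ) ZMod.val c).mulVec u = 0 → u = 0 by
    intro u u' huu
    have := h (u - u') (by rw [Matrix.mulVec_sub, huu, sub_self])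
    exact sub_eq_zero.1 this
  intro u hu
  let s : Finset (ZMod d) := Finset.univ.filter fun y => y.val < c
  have hrow : ∀ x, ∑ y ∈ s, ψ (x * y) * u y + (if x.val < c then 0 else u x) = 0 := by
    intro x
    have h1 := congr_fun hu x
    simp only [Matrix.mulVec, dotProduct, lead, four, Matrix.of_apply, Pi.zero_apply] at h1
    refine Eq.trans ?_ h1
    rw [← Finset.sum_filter_add_sum_filter_not Finset.univ (fun y : ZMod d => y.val < c)]
    congr 1
    · refine Finset.sum_congr rfl fun y hy => ?_
      have : y.val < c := by simpa [s] using hy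
      simp [this]
    · symm
      rw [Finset.sum_congr rfl (g := fun y => if x = y then u y else 0)]
      · rw [Finset.sum_ite_eq]
        by_cases hx : x.val < c <;> simp [hx]
      · intro y hy
        have : ¬ y.val < c := by simpa using hy
        simp [this, Matrix.one_apply]
  let P : Polynomial K := ∑ y ∈ s, Polynomial.monomial y.val (u y)
  have hlt : ∀ y ∈ s, y.val < s.card := by
    intro y hy
    have hy' : y.val < c := by simpa [s] using hy
    have : (Finset.range (y.val + 1)).card ≤ s.card := by
      refine Finset.card_le_card_of_injOn (fun j : ℕ => (j : ZMod d)) ?_ ?_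
      · intro j hj
        have hj' : j < y.val + 1 := by simpa using hj
        have hjd : j < d := by have := ZMod.val_lt y; omega
        simp only [s, Finset.coe_filter, Finset.mem_univ, true_and, Set.mem_ofPred_eq]
        rw [ZMod.val_cast_of_lt hjd]; omega
      · intro j hj j' hj' hjj
        have h1 : j < y.val + 1 := by simpa using hj
        have h2 : j' < y.val + 1 := by simpa using hj'
        have := ZMod.val_lt y
        have h3 := congrArg ZMod.val hjj
        simp only at h3
        rwa [ZMod.val_cast_of_lt (by omega), ZMod.val_cast_of_lt (by omega)] at h3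
    simpa using this
  have hP : P = 0 := by
    refine Polynomial.eq_zero_of_degree_lt_of_eval_index_eq_zero s (v := ψ) hinj.injOn ?_ ?_
    · refine (Polynomial.degree_sum_le _ _).trans_lt ?_
      rw [Finset.sup_lt_iff (WithBot.bot_lt_coe _)]
      intro y hy
      refine (Polynomial.degree_monomial_le _ _).trans_lt ?_
      exact_mod_cast hlt y hy
    · intro x hx
      have hx' : x.val < c := by simpa [s] using hx
      have h1 := hrow x
      rw [if_pos hx', add_zero] at h1
      rw [← h1]
      simp only [P, Polynomial.eval_finsetSum, Polynomial.eval_monomial]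
      refine Finset.sum_congr rfl fun y _ => ?_
      rw [mul_comm, ← AddChar.map_nsmul_eq_pow, nsmul_eq_mul, ZMod.natCast_zmod_val, mul_comm y x]
  have hs : ∀ y ∈ s, u y = 0 := by
    intro y hy
    have h1 := congrArg (fun Q => Polynomial.coeff Q y.val) hP
    simp only [P, Polynomial.finsetSum_coeff, Polynomial.coeff_monomial,
      Polynomial.coeff_zero] at h1
    rw [Finset.sum_eq_single y] at h1
    · simpa using h1
    · intro b _ hb
      rw [if_neg fun h => hb (ZMod.val_injective d h)]
    · intro h; exact absurd hy h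
  funext x
  by_cases hx : x.val < c
  · exact hs x (by simpa [s] using hx)
  · have h1 := hrow x
    rw [if_neg hx, Finset.sum_eq_zero fun y hy => by rw [hs y hy, mul_zero], zero_add] at h1
    exact h1

theorem hankel_eq_four {ι : Type*} [Fintype ι] [DecidableEq ι] {d : ι → ℕ} [∀ i, NeZero (d i)]
    (ψ : ∀ i, AddChar (ZMod (d i)) K) (hψ : ∀ i, (ψ i).IsPrimitive) (hd : ∀ i, (d i : K) ≠ 0)
    (f : (∀ i, ZMod (d i)) → K) :
    ∃ c : (∀ i, ZMod (d i)) → K, (Matrix.of fun x y => f (x + y)) =
      kron (fun i => four (ψ i)) * Matrix.diagonal c * kron (fun i => four (ψ i)) := by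
  refine ⟨fun z => (∏ i, (d i : K))⁻¹ * ∑ u, f u * ∏ i, ψ i (-(u i * z i)), ?_⟩
  ext x y
  rw [Matrix.mul_apply]
  simp only [Matrix.mul_diagonal, kron, four, Matrix.of_apply]
  have h1 : ∀ z : ∀ i, ZMod (d i), (∏ i, ψ i (x i * z i)) *
      ((∏ i, (d i : K))⁻¹ * ∑ u, f u * ∏ i, ψ i (-(u i * z i))) * ∏ i, ψ i (z i * y i) =
      ∑ u, (∏ i, (d i : K))⁻¹ * f u * ∏ i, ψ i (z i * (x i + y i - u i)) := by
    intro z
    rw [Finset.mul_sum, Finset.mul_sum, Finset.sum_mul]
    refine Finset.sum_congr rfl fun u _ => ?_
    have : ∏ i, ψ i (z i * (x i + y i - u i)) =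
        (∏ i, ψ i (x i * z i)) * (∏ i, ψ i (-(u i * z i))) * ∏ i, ψ i (z i * y i) := by
      rw [← Finset.prod_mul_distrib, ← Finset.prod_mul_distrib]
      refine Finset.prod_congr rfl fun i _ => ?_
      rw [← AddChar.map_add_eq_mul, ← AddChar.map_add_eq_mul]
      congr 1; ring
    rw [this]; ring
  simp_rw [h1]
  rw [Finset.sum_comm]
  have h2 : ∀ u : ∀ i, ZMod (d i), ∑ z : ∀ i, ZMod (d i),
      (∏ i, (d i : K))⁻¹ * f u * ∏ i, ψ i (z i * (x i + y i - u i)) =
      if x + y = u then f u else 0 := by
    intro u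
    rw [← Finset.mul_sum, ← Fintype.piFinset_univ,
      ← Finset.prod_univ_sum (fun _ => Finset.univ) (fun i a => ψ i (a * (x i + y i - u i)))]
    simp_rw [fun i => AddChar.sum_mulShift (x i + y i - u i) (hψ i)]
    split_ifs with h
    · subst h
      have : (∏ i, (d i : K)) ≠ 0 := Finset.prod_ne_zero_iff.2 fun i _ => hd i
      simp only [Pi.add_apply, sub_self, if_true, ZMod.card]
      field_simp
    · obtain ⟨i, hi⟩ := Function.ne_iff.1 h
      refine mul_eq_zero_of_right _ (Finset.prod_eq_zero (Finset.mem_univ i) ?_)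
      have hi' : x i + y i - u i ≠ 0 := sub_ne_zero.2 hi
      rw [if_neg hi']; simp
  simp_rw [h2]
  simp

end Pool.Agent.P.MP_dad03b_lc
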