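import Pool.Agent.P.MP_dad03b_lc.GNewton

namespace Pool.Agent.P.MP_dad03b_lc

open Finset Real

theorem rank_sum_le' {K : Type*} [Field K] {m n ι : Type*} [Fintype n] (s : Finset ι)
    (M : ι → Matrix m n K) : (∑ i ∈ s, M i).rank ≤ ∑ i ∈ s, (M i).rank := by
  classical
  induction s using Finset.induction_on with
  | empty => simp
  | insert a s ha ih =>
    rw [Finset.sum_insert ha, Finset.sum_insert ha]
    exact (rank_add_le' _ _).trans (Nat.add_le_add_left ih _)

theorem NR.blocks {K : Type*} [Field K] {α β : Type*} [Fintype α] [Fintype β]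
    (M : Matrix (α × β) (α × β) K) (A B : Finset α) (T : α → Finset α) (s r s' : ℝ)
    (hs : 0 ≤ s) (hr : 0 ≤ r) (hs' : 0 ≤ s') (hT : ∀ x, x ∉ A → ((T x).card : ℝ) ≤ s)
    (hM : ∀ x y b b', x ∉ A → y ∉ B → M (x, b) (y, b') ≠ 0 → y ∈ T x)
    (hb : ∀ x y, NR (Matrix.of fun b b' => M (x, b) (y, b')) r s') :
    NR M ((A.card + B.card) * Fintype.card β + Fintype.card α * s * r) (s * s') := by
  classical
  choose S T' h1 h2 h3 using hb
  let Pr : Finset (α × α) := Finset.univ.filter fun p => p.1 ∉ A ∧ p.2 ∉ B ∧ p.2 ∈ T p.1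
  let M₁ : Matrix (α × β) (α × β) K := Matrix.of fun u w => if u.1 ∈ A ∨ w.1 ∈ B then M u w else 0
  let L : α × α → Matrix β β K := fun p =>
    (Matrix.of fun b b' => M (p.1, b) (p.2, b')) - S p.1 p.2
  let E : α × α → Matrix (α × β) (α × β) K := fun p =>
    Matrix.diagonal (fun u : α × β => if u.1 = p.1 then (1 : K) else 0) *
      (L p).submatrix Prod.snd Prod.snd *
      Matrix.diagonal (fun u : α × β => if u.1 = p.2 then (1 : K) else 0)
  have hE : ∀ p, ((E p).rank : ℝ) ≤ r := by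
    intro p
    refine le_trans ?_ (h1 p.1 p.2)
    exact_mod_cast (Matrix.rank_mul_le_left _ _).trans
      ((Matrix.rank_mul_le_right _ _).trans (Matrix.rank_submatrix_le _ _ _))
  have hM₁ : (M₁.rank : ℝ) ≤ (A.card + B.card) * Fintype.card β := by
    obtain ⟨S₁, T₁, g1, g2, g3⟩ := NR.of_pattern M₁ (A ×ˢ Finset.univ) (B ×ˢ Finset.univ)
      (fun _ => ∅) 0 le_rfl (by simp) (by
        intro u w hu hw h
        exfalso
        apply h
        have hu' : u.1 ∉ A := fun h => hu (Finset.mem_product.2 ⟨h, Finset.mem_univ _⟩)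
        have hw' : w.1 ∉ B := fun h => hw (Finset.mem_product.2 ⟨h, Finset.mem_univ _⟩)
        simp [M₁, hu', hw'])
    have : S₁ = 0 := by
      ext u w
      by_contra h
      have h4 := g3 u w h
      have h5 : (0 : ℝ) < (T₁ u).card := by exact_mod_cast Finset.card_pos.2 ⟨w, h4⟩
      linarith [g2 u]
    rw [this, sub_zero] at g1
    simpa [add_mul] using g1
  have hPr : (Pr.card : ℝ) ≤ Fintype.card α * s := by
    have h4 : Pr ⊆ (Finset.univ.filter fun x => x ∉ A).biUnion fun x => (T x).image (Prod.mk x) := by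
      intro p hp
      simp only [Pr, Finset.mem_filter, Finset.mem_univ, true_and] at hp
      exact Finset.mem_biUnion.2 ⟨p.1, by simpa using hp.1, Finset.mem_image.2 ⟨p.2, hp.2.2, rfl⟩⟩
    have h5 : Pr.card ≤ ∑ x ∈ Finset.univ.filter fun x => x ∉ A, (T x).card :=
      (Finset.card_le_card h4).trans (Finset.card_biUnion_le.trans
        (Finset.sum_le_sum fun x _ => Finset.card_image_le))
    have h6 : ∑ x ∈ Finset.univ.filter fun x => x ∉ A, ((T x).card : ℝ) ≤
        (Finset.univ.filter fun x => x ∉ A).card • s :=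
      Finset.sum_le_card_nsmul _ _ _ fun x hx => hT x (by simpa using hx)
    have h7 : ((Finset.univ.filter fun x => x ∉ A).card : ℝ) ≤ Fintype.card α := by
      exact_mod_cast Finset.card_le_univ _
    rw [nsmul_eq_mul] at h6
    calc (Pr.card : ℝ) ≤ ∑ x ∈ Finset.univ.filter fun x => x ∉ A, ((T x).card : ℝ) := by
          exact_mod_cast h5
      _ ≤ _ := h6.trans (mul_le_mul_of_nonneg_right h7 hs)
  refine ⟨Matrix.of fun u w => if (u.1, w.1) ∈ Pr then S u.1 w.1 u.2 w.2 else 0,
    fun u => if u.1 ∈ A then ∅ else (T u.1).biUnion fun y => (T' u.1 y u.2).image (Prod.mk y),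
    ?_, ?_, ?_⟩
  · have e : M - (Matrix.of fun u w => if (u.1, w.1) ∈ Pr then S u.1 w.1 u.2 w.2 else 0) =
        M₁ + ∑ p ∈ Pr, E p := by
      ext ⟨x, b⟩ ⟨y, b'⟩
      have h4 : ∀ p, E p (x, b) (y, b') = if p = (x, y) then L (x, y) b b' else 0 := by
        rintro ⟨p, q⟩
        simp only [E, Matrix.mul_diagonal, Matrix.diagonal_mul, Matrix.submatrix_apply,
          Prod.mk.injEq]
        by_cases hp : x = p
        · by_cases hq : y = q
          · subst hp hq; simp
          · simp [hq, Ne.symm hq]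
        · simp [hp, Ne.symm hp]
      simp only [Matrix.sub_apply, Matrix.add_apply, Matrix.sum_apply, h4, Finset.sum_ite_eq',
        Matrix.of_apply, M₁, L]
      by_cases hp : (x, y) ∈ Pr
      · have hp' := hp
        simp only [Pr, Finset.mem_filter, Finset.mem_univ, true_and] at hp'
        simp [hp, hp'.1, hp'.2.1]
      · by_cases hxy : x ∈ A ∨ y ∈ B
        · simp [hp, hxy]
        · have h5 : M (x, b) (y, b') = 0 := by
            by_contra h
            rw [not_or] at hxy
            exact hp (by simp [Pr, hxy.1, hxy.2, hM x y b b' hxy.1 hxy.2 h])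
          simp [hp, h5]
    rw [e]
    have h4 : ((M₁ + ∑ p ∈ Pr, E p).rank : ℝ) ≤ M₁.rank + ∑ p ∈ Pr, ((E p).rank : ℝ) := by
      exact_mod_cast (rank_add_le' _ _).trans (Nat.add_le_add_left (rank_sum_le' _ _) _)
    have h5 : ∑ p ∈ Pr, ((E p).rank : ℝ) ≤ Pr.card • r :=
      Finset.sum_le_card_nsmul _ _ _ fun p _ => hE p
    rw [nsmul_eq_mul] at h5
    linarith [mul_le_mul_of_nonneg_right hPr hr]
  · intro u
    by_cases hu : u.1 ∈ A
    · simp only [hu, if_true, Finset.card_empty, Nat.cast_zero]; positivity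
    · simp only [hu, if_false]
      have h4 : ((T u.1).biUnion fun y => (T' u.1 y u.2).image (Prod.mk y)).card ≤
          ∑ y ∈ T u.1, (T' u.1 y u.2).card :=
        Finset.card_biUnion_le.trans (Finset.sum_le_sum fun x _ => Finset.card_image_le)
      have h5 : ∑ y ∈ T u.1, ((T' u.1 y u.2).card : ℝ) ≤ (T u.1).card • s' :=
        Finset.sum_le_card_nsmul _ _ _ fun y _ => h2 _ _ _
      rw [nsmul_eq_mul] at h5
      calc _ ≤ ∑ y ∈ T u.1, ((T' u.1 y u.2).card : ℝ) := by exact_mod_cast h4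
        _ ≤ _ := h5.trans (mul_le_mul_of_nonneg_right (hT _ hu) hs')
  · intro u w h
    simp only [Matrix.of_apply] at h
    by_cases hp : (u.1, w.1) ∈ Pr
    · rw [if_pos hp] at h
      simp only [Pr, Finset.mem_filter, Finset.mem_univ, true_and] at hp
      simp only [hp.1, if_false]
      exact Finset.mem_biUnion.2 ⟨w.1, hp.2.2, Finset.mem_image.2 ⟨w.2, h3 _ _ _ _ h, rfl⟩⟩
    · exact absurd (if_neg hp) h

theorem tri (ε : ℝ) (hε : 0 < ε) (D : ℕ) (hD : 0 < D) : ∃ γ : ℝ, 0 < γ ∧
    ∀ (ι : Type) [Fintype ι] [DecidableEq ι] (d : ι → ℕ), (∀ i, 2 ≤ d i ∧ d i ≤ D) →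
      ∀ v : ∀ i, Fin (d i) → Fin (d i),
      ∃ (A B : Finset (∀ i, Fin (d i))) (T : (∀ i, Fin (d i)) → Finset (∀ i, Fin (d i))),
        (A.card : ℝ) ≤ (∏ i, (d i : ℝ)) * exp (-(γ * log (∏ i, (d i : ℝ)))) ∧
        (B.card : ℝ) ≤ (∏ i, (d i : ℝ)) * exp (-(γ * log (∏ i, (d i : ℝ)))) ∧
        (∀ x, x ∉ A → ((T x).card : ℝ) ≤ exp (ε * log (∏ i, (d i : ℝ)))) ∧
        ((∀ i, Function.Injective (v i)) →
          ∀ x y, y ∉ B → (∀ i, v i (x i) ≤ v i (y i)) → y ∈ T x) := by
  have hD' : (0 : ℝ) < D := by exact_mod_cast hD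
  set β : ℝ := 4 * D * D / ε with hβ
  have hβ0 : 0 < β := by positivity
  set η : ℝ := min (1 / 2) (ε / (16 * β)) with hη
  have hη0 : 0 < η := lt_min (by norm_num) (by positivity)
  refine ⟨η ^ 2 / D, by positivity, ?_⟩
  intro ι _ _ d hd v
  have : ∀ i, Nonempty (Fin (d i)) := fun i => ⟨⟨0, by have := (hd i).1; omega⟩⟩
  have hv1 : ∀ i a, ((v i a : ℕ) : ℝ) / D ≤ 1 := by
    intro i a
    rw [div_le_one hD']
    exact_mod_cast (v i a).2.le.trans (hd i).2
  have hν : D * exp (-(β / D)) ≤ ε / 4 := by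
    have h2 : exp (-(β / D)) ≤ ε / (4 * D) := by
      rw [Real.exp_neg, inv_le_comm₀ (exp_pos _) (by positivity), inv_div]
      have : β / D = 4 * D / ε := by rw [hβ]; field_simp
      linarith [Real.add_one_le_exp (β / D)]
    calc _ ≤ D * (ε / (4 * D)) := mul_le_mul_of_nonneg_left h2 hD'.le
      _ = _ := by field_simp
  obtain ⟨A, B, T, hA, hB, hT, hM⟩ := pattern (fun i a => ((v i a : ℕ) : ℝ) / D)
    (fun i a => by positivity) hv1 1
    (fun i => by simpa using Finset.sum_le_card_nsmul Finset.univ _ _ fun a _ => hv1 i a)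
    (fun i x => insert x (Finset.univ.filter fun y => v i x < v i y))
    (fun i x y hy => by
      rcases Finset.mem_insert.1 hy with rfl | hy
      · exact le_rfl
      · have : v i x < v i y := by simpa using hy
        exact div_le_div_of_nonneg_right (by exact_mod_cast this.le) hD'.le)
    β 0 (ε / 4) η hβ0.le le_rfl hη0.le (min_le_left _ _)
    (fun i x => by
      rw [Finset.sum_insert (by simp), sub_self, mul_zero, Real.exp_zero, zero_mul, zero_add]
      have h1 : ∑ y ∈ Finset.univ.filter (fun y => v i x < v i y),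
          exp (-β * (((v i y : ℕ) : ℝ) / D - ((v i x : ℕ) : ℝ) / D)) ≤
          (Finset.univ.filter fun y => v i x < v i y).card • exp (-(β / D)) := by
        refine Finset.sum_le_card_nsmul _ _ _ fun y hy => Real.exp_le_exp.2 ?_
        have h2 : v i x < v i y := by simpa using hy
        have h3 : ((v i x : ℕ) : ℝ) + 1 ≤ (v i y : ℕ) := by exact_mod_cast h2
        rw [← sub_div, neg_mul, neg_le_neg_iff, ← mul_div_assoc]
        exact div_le_div_of_nonneg_right (by nlinarith) hD'.le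
      have h2 : ((Finset.univ.filter fun y => v i x < v i y).card : ℝ) ≤ D := by
        exact_mod_cast (Finset.card_le_univ _).trans (by simpa using (hd i).2)
      rw [nsmul_eq_mul] at h1
      have h3 := mul_le_mul_of_nonneg_right h2 (exp_pos (-(β / D))).le
      linarith [Real.add_one_le_exp (ε / 4)])
  have hd0 : ∀ i, (d i : ℝ) ≠ 0 := fun i => by
    have := (hd i).1
    exact_mod_cast (by omega : d i ≠ 0)
  have hlog : log (∏ i, (d i : ℝ)) = ∑ i, log (d i) := Real.log_prod fun i _ => hd0 i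
  have hup : log (∏ i, (d i : ℝ)) ≤ D * Fintype.card ι := by
    rw [hlog]
    calc ∑ i, log (d i) ≤ ∑ _i : ι, (D : ℝ) := Finset.sum_le_sum fun i _ => by
          have h2 : (d i : ℝ) ≤ D := by exact_mod_cast (hd i).2
          exact (Real.log_le_self (Nat.cast_nonneg _)).trans h2
      _ = _ := by simp [mul_comm]
  have hlow : (Fintype.card ι : ℝ) ≤ 2 * log (∏ i, (d i : ℝ)) := by
    rw [hlog, Finset.mul_sum]
    calc (Fintype.card ι : ℝ) = ∑ _i : ι, (1 : ℝ) := by simp
      _ ≤ _ := Finset.sum_le_sum fun i _ => by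
          have h2 : (2 : ℝ) ≤ d i := by exact_mod_cast (hd i).1
          have h3 := Real.log_le_log (by norm_num) h2
          have := Real.log_two_gt_d9
          linarith
  have hc : (Fintype.card (∀ i, Fin (d i)) : ℝ) = ∏ i, (d i : ℝ) := by
    rw [Fintype.card_pi]; simp
  have h5 : (∏ i, (d i : ℝ)) * exp (-(η ^ 2 * 1 * Fintype.card ι)) ≤
      (∏ i, (d i : ℝ)) * exp (-(η ^ 2 / D * log (∏ i, (d i : ℝ)))) := by
    refine mul_le_mul_of_nonneg_left (Real.exp_le_exp.2 ?_) (by positivity)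
    rw [neg_le_neg_iff, mul_one, div_mul_eq_mul_div, div_le_iff₀ hD']
    nlinarith [mul_le_mul_of_nonneg_left hup (sq_nonneg η)]
  rw [hc] at hA hB
  refine ⟨A, B, T, hA.trans h5, hB.trans h5, fun x hx => (hT x hx).trans (Real.exp_le_exp.2 ?_),
    fun hv x y hy h => hM x y hy fun i => ?_⟩
  · have h3 : β * η ≤ ε / 16 := by
      calc β * η ≤ β * (ε / (16 * β)) := mul_le_mul_of_nonneg_left (min_le_right _ _) hβ0.le
        _ = _ := by field_simp
    have h6 : (0 : ℝ) ≤ Fintype.card ι := Nat.cast_nonneg _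
    calc _ ≤ ε / 2 * Fintype.card ι := mul_le_mul_of_nonneg_right (by linarith) h6
      _ ≤ ε / 2 * (2 * log (∏ i, (d i : ℝ))) := mul_le_mul_of_nonneg_left hlow (by positivity)
      _ = _ := by ring
  · rcases (h i).eq_or_lt with h1 | h1
    · rw [hv i h1]; exact Finset.mem_insert_self _ _
    · exact Finset.mem_insert_of_mem (by simpa using h1)

end Pool.Agent.P.MP_dad03b_lc
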