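import Pool.Agent.P.MP_dad03b_lc.Large

namespace Pool.Agent.P.MP_dad03b_lc

open Finset Real

theorem digits_win (ε : ℝ) (hε : 0 < ε) (l : ℕ) : ∃ (u b : ℕ) (C : ℝ), 3 ≤ b ∧ 0 < C ∧
    ∀ (F : Type) [Field F], (∀ p : ℕ, p.Prime → l < p → p ≤ u → (p : F) ≠ 0) →
    ∀ (κ : Type) [Fintype κ] (X : Type) [Fintype X] (e : X → κ → ℕ), Function.Injective e →
      (∀ x c, e x c < b) → ∀ h : (κ → ℕ) → F, NR (Matrix.of fun x y => h (e x + e y))
        (C * ((b : ℝ) ^ Fintype.card κ * exp (-(2 * Fintype.card κ))))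
        (exp (ε * (Fintype.card κ * log b))) := by
  classical
  obtain ⟨J, hJ, hJε⟩ : ∃ J : ℕ, 2 ≤ J ∧ 100 / ε ≤ J :=
    ⟨⌈100 / ε⌉₊ + 2, by omega, by push_cast; linarith [Nat.le_ceil (100 / ε)]⟩
  obtain ⟨t, ht, hl, hP⟩ := primes_many J l hJ
  set m := t ^ J with hm
  set P := (Finset.Icc m (m * t)).filter Nat.Prime with hPdef
  have hPm : ∀ p ∈ P, p.Prime ∧ m ≤ p ∧ p ≤ m * t := by
    intro p hp
    simp only [hPdef, Finset.mem_filter, Finset.mem_Icc] at hp
    exact ⟨hp.2, hp.1.1, hp.1.2⟩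
  set N : ℕ := ∏ p ∈ P, p with hN
  have hm9 : 9 ≤ m := by
    calc 9 = 3 ^ 2 := by norm_num
      _ ≤ t ^ 2 := Nat.pow_le_pow_left ht 2
      _ ≤ t ^ J := Nat.pow_le_pow_right (by omega) hJ
  have hNm : m ^ P.card ≤ N := Finset.pow_card_le_prod _ _ _ fun p hp => (hPm p hp).2.1
  have hP1 : 1 ≤ P.card := le_trans (by
    have : 0 < 2 * J ^ 2 * m := by positivity
    omega) hP
  have hN9 : 9 ≤ N := hm9.trans ((Nat.le_self_pow (by omega) _).trans hNm)
  refine ⟨m * t, N / 2, 4 * N * m, by omega, by positivity, ?_⟩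
  intro F _ hF κ _ X _ e he heb h
  set b := N / 2 with hb
  let d : κ × P → ℕ := fun c => c.2
  have : ∀ c, NeZero (d c) := fun c => ⟨(hPm _ c.2.2).1.ne_zero⟩
  have hNF : (N : F) ≠ 0 := by
    rw [hN, Nat.cast_prod]
    exact Finset.prod_ne_zero_iff.2 fun p hp => hF p (hPm p hp).1 (hl.trans_le (hPm p hp).2.1)
      (hPm p hp).2.2
  let E : (κ → ℕ) → ∀ c, ZMod (d c) := fun u c => (u c.1 : ZMod (d c))
  have hE : ∀ u u' : κ → ℕ, (∀ c, u c < N) → (∀ c, u' c < N) → E u = E u' → u = u' := by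
    intro u u' hu hu' huu
    funext c
    have h1 : ∀ p ∈ P, u c ≡ u' c [MOD p] := fun p hp =>
      (ZMod.natCast_eq_natCast_iff _ _ _).1 (congr_fun huu (c, ⟨p, hp⟩))
    have h2 : (N : ℤ) ∣ (u' c : ℤ) - u c := by
      rw [hN, Nat.cast_prod]
      refine Finset.prod_dvd_of_coprime ?_ fun p hp => (h1 p hp).dvd
      intro p hp q hq hpq
      exact Nat.isCoprime_iff_coprime.2
        ((Nat.coprime_primes (hPm p hp).1 (hPm q hq).1).2 hpq)
    exact (Nat.modEq_iff_dvd.2 h2).eq_of_lt_of_lt (hu c) (hu' c)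
  let g : (∀ c, ZMod (d c)) → F := fun z =>
    if H : ∃ u : κ → ℕ, (∀ c, u c < N) ∧ E u = z then h H.choose else 0
  have hg : ∀ u : κ → ℕ, (∀ c, u c < N) → g (E u) = h u := by
    intro u hu
    have H : ∃ u' : κ → ℕ, (∀ c, u' c < N) ∧ E u' = E u := ⟨u, hu, rfl⟩
    simp only [g, dif_pos H]
    rw [hE _ _ H.choose_spec.1 hu H.choose_spec.2]
  have ht1 : (1 : ℝ) ≤ t + 1 := by linarith [(Nat.cast_nonneg t : (0 : ℝ) ≤ t)]
  have hm0 : (0 : ℝ) < m := by exact_mod_cast (by omega : 0 < m)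
  have hJ0 : (2 : ℝ) ≤ J := by exact_mod_cast hJ
  have ht3 : (3 : ℝ) ≤ t := by exact_mod_cast ht
  have hm1 : (9 : ℝ) ≤ m := by exact_mod_cast hm9
  have h1 := NR_hankel_zmod d N hNF (fun c => Finset.dvd_prod_of_mem _ c.2.2)
    (fun c => d c / m + 1) m (fun c => (Nat.lt_mul_div_succ _ (by omega)).le) (t + 1) (2 / m)
    (log (m * (t + 1))) (1 / J) ht1
    (fun c => by
      have : d c / m ≤ t := Nat.div_le_of_le_mul (hPm _ c.2.2).2.2
      exact_mod_cast Nat.succ_le_succ this)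
    (fun c => by
      have h2 : m ≤ d c := (hPm _ c.2.2).2.1
      have h3 : (d c / m + 1) * m ≤ 2 * d c := by
        have := Nat.div_mul_le_self (d c) m
        nlinarith
      rw [div_mul_eq_mul_div, le_div_iff₀ hm0]
      exact_mod_cast h3)
    (Real.log_nonneg (by nlinarith)) (by positivity)
    (one_div_le_one_div_of_le (by norm_num) hJ0) g
  have h2 := h1.submatrix (fun x => E (e x)) (fun x => E (e x)) (fun x y hxy =>
    he (hE _ _ (fun c => (heb x c).trans_le (Nat.div_le_self _ _))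
      (fun c => (heb y c).trans_le (Nat.div_le_self _ _)) hxy))
  have h3 : (Matrix.of fun x y => g (x + y)).submatrix (fun x => E (e x)) (fun x => E (e x)) =
      Matrix.of fun x y => h (e x + e y) := by
    ext x y
    simp only [Matrix.submatrix_apply, Matrix.of_apply]
    rw [← hg (e x + e y) fun c => by
      have h4 := heb x c
      have h5 := heb y c
      simp only [Pi.add_apply]
      omega]
    congr 1
    funext c
    simp [E]
  rw [h3] at h2
  set r : ℕ := Fintype.card κ with hr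
  have hcard : (Fintype.card (κ × P) : ℝ) = r * P.card := by
    rw [Fintype.card_prod, Fintype.card_coe]; push_cast; rfl
  have hprod : ∏ c, (d c : ℝ) = (N : ℝ) ^ r := by
    rw [Fintype.prod_prod_type]
    have : ∏ p : P, ((p : ℕ) : ℝ) = N := by
      rw [hN, Nat.cast_prod, Finset.prod_coe_sort P (fun p => (p : ℝ))]
    simp only [d, this, Finset.prod_const, Finset.card_univ, hr]
  rw [hcard, hprod] at h2
  have hb3 : 3 ≤ b := by omega
  have hb3' : (3 : ℝ) ≤ b := by exact_mod_cast hb3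
  have hNb : (N : ℝ) ≤ 3 * b := by exact_mod_cast (by omega : N ≤ 3 * b)
  have hr0 : (0 : ℝ) ≤ r := Nat.cast_nonneg _
  refine h2.mono ?_ (Real.exp_le_exp.2 ?_)
  · refine mul_le_mul_of_nonneg_left ?_ (by positivity)
    have h4 : (2 * J ^ 2 * m : ℝ) ≤ P.card := by exact_mod_cast hP
    have h5 : 4 * r ≤ (1 / (J : ℝ)) ^ 2 * (2 / m) * (r * P.card) := by
      calc 4 * (r : ℝ) = (1 / (J : ℝ)) ^ 2 * (2 / m) * (r * (2 * J ^ 2 * m)) := by
            field_simp; ring
        _ ≤ _ := by gcongr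
    have h6 : (3 : ℝ) ≤ exp 2 := by linarith [Real.add_one_le_exp 2]
    calc (N : ℝ) ^ r * exp (-((1 / (J : ℝ)) ^ 2 * (2 / m) * (r * P.card)))
        ≤ (exp 2 * b) ^ r * exp (-(4 * r)) := by
          gcongr
          nlinarith
      _ = _ := by
          rw [mul_pow, ← Real.exp_nat_mul, mul_comm (exp _), mul_assoc, ← Real.exp_add]
          congr 2; ring
  · set L := log t with hL
    have hL1 : 1 ≤ L := by
      rw [hL, Real.le_log_iff_exp_le (by linarith)]
      linarith [Real.exp_one_lt_d9]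
    have h4 : log (t + 1) ≤ 2 * L := by
      have : log ((t : ℝ) + 1) ≤ log ((t : ℝ) ^ 2) := Real.log_le_log (by linarith) (by nlinarith)
      rwa [Real.log_pow] at this
    have h5 : log m = J * L := by rw [hm, Nat.cast_pow, Real.log_pow]
    have h6 : log (m * (t + 1)) ≤ 2 * J * L := by
      rw [Real.log_mul hm0.ne' (by linarith), h5]; nlinarith
    have h7 : exp (-log (m * (t + 1))) = (m * (t + 1) : ℝ)⁻¹ := by
      rw [Real.exp_neg, Real.exp_log (by positivity)]
    have h8 : 2 * m * (4 * log (m * (t + 1)) * (1 / J) * (2 / m) + 2 * log (t + 1) * (2 / m) +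
        (t + 1) * exp (-log (m * (t + 1)))) ≤ 50 * L := by
      rw [h7]
      have h9 : 2 * m * (4 * log (m * (t + 1)) * (1 / J) * (2 / m) + 2 * log (t + 1) * (2 / m) +
          (t + 1) * (m * (t + 1) : ℝ)⁻¹) = 16 * (log (m * (t + 1)) / J) + 8 * log (t + 1) + 2 := by
        field_simp; ring
      have h10 : log (m * (t + 1)) / J ≤ 2 * L := by
        rw [div_le_iff₀ (by linarith)]; linarith
      rw [h9]; linarith
    have h9 : P.card * (J * L) ≤ 2 * log b := by
      rw [← h5, ← Real.log_pow]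
      have h10 : log ((b : ℝ) ^ 2) = 2 * log b := by rw [Real.log_pow]; norm_num
      rw [← h10]
      refine Real.log_le_log (by positivity) ?_
      have : ((m : ℝ)) ^ P.card ≤ N := by exact_mod_cast hNm
      nlinarith
    have h10 : 100 ≤ ε * J := by rwa [div_le_iff₀ hε, mul_comm] at hJε
    have hP0 : (0 : ℝ) ≤ P.card := Nat.cast_nonneg _
    calc _ = 2 * m * (4 * log (m * (t + 1)) * (1 / J) * (2 / m) + 2 * log (t + 1) * (2 / m) +
        (t + 1) * exp (-log (m * (t + 1)))) * (r * P.card) := by ring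
      _ ≤ 50 * L * (r * P.card) := mul_le_mul_of_nonneg_right h8 (by positivity)
      _ = 100 * (L * r * P.card / 2) := by ring
      _ ≤ (ε * J) * (L * r * P.card / 2) := mul_le_mul_of_nonneg_right h10 (by positivity)
      _ = ε * r / 2 * (P.card * (J * L)) := by ring
      _ ≤ ε * r / 2 * (2 * log b) := mul_le_mul_of_nonneg_left h9 (by positivity)
      _ = _ := by ring
theorem sum_digits' (b v j : ℕ) : ∑ l : Fin j, (v / b ^ (l : ℕ) % b) * b ^ (l : ℕ) = v % b ^ j := by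
  induction j with
  | zero => simp [Nat.mod_one]
  | succ j ih => rw [Fin.sum_univ_castSucc, Nat.mod_pow_succ, ← ih]; simp [mul_comm]

theorem clog_bounds' (b d : ℕ) (hb : 3 ≤ b) (hd : d = 1 ∨ b ^ b < d) :
    Nat.clog b d * log b - 2 * Nat.clog b d ≤ log d - 1 / b * log d ∧
      Nat.clog b d * log b ≤ 2 * log d := by
  rcases hd with rfl | hd
  · simp
  have hb1 : 1 < b := by omega
  have h1 : b < Nat.clog b d := (Nat.lt_clog_iff_pow_lt hb1).2 hd
  have hd1 : 1 < d := lt_of_le_of_lt (Nat.one_le_pow _ _ (by omega)) hd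
  have h2 : b ^ (Nat.clog b d - 1) < d := Nat.pow_pred_clog_lt_self hb1 hd1
  have h3 : d ≤ b ^ Nat.clog b d := Nat.le_pow_clog hb1 d
  set j := Nat.clog b d with hj
  have hb0 : (3 : ℝ) ≤ b := by exact_mod_cast hb
  have hd0 : (0 : ℝ) < d := by exact_mod_cast (by omega : 0 < d)
  have h4 : (j - 1 : ℝ) * log b ≤ log d := by
    have h5 : ((b : ℝ)) ^ (j - 1) ≤ d := by exact_mod_cast h2.le
    have := Real.log_le_log (by positivity) h5
    rwa [Real.log_pow, Nat.cast_sub (by omega), Nat.cast_one] at this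
  have h5 : log d ≤ j * log b := by
    have h5 : (d : ℝ) ≤ (b : ℝ) ^ j := by exact_mod_cast h3
    have := Real.log_le_log hd0 h5
    rwa [Real.log_pow] at this
  have h6 : log b ≤ b := Real.log_le_self (by linarith)
  have h7 : (b : ℝ) ≤ j := by exact_mod_cast h1.le
  have h8 : 0 ≤ log b := Real.log_nonneg (by linarith)
  have h9 : 1 / b * log d ≤ j := by
    rw [one_div_mul_eq_div, div_le_iff₀ (by linarith)]
    nlinarith
  constructor
  · nlinarith
  · nlinarith

theorem large_win (ε : ℝ) (hε : 0 < ε) (l : ℕ) : ∃ (u D : ℕ) (γ C : ℝ), 0 < D ∧ 0 < γ ∧ 0 < C ∧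
    ∀ (F : Type) [Field F], (∀ p : ℕ, p.Prime → l < p → p ≤ u → (p : F) ≠ 0) →
    ∀ (ι : Type) [Fintype ι] [DecidableEq ι] (d : ι → ℕ) [∀ i, NeZero (d i)],
      (∀ i, d i = 1 ∨ D < d i) →
      ∀ f : (∀ i, ZMod (d i)) → F, NR (Matrix.of fun x y => f (x + y))
        (C * ((∏ i, (d i : ℝ)) * exp (-(γ * log (∏ i, (d i : ℝ))))))
        (exp (ε * log (∏ i, (d i : ℝ)))) := by
  obtain ⟨u₀, b, C, hb, hC, H⟩ := digits_win (ε / 2) (by positivity) l
  have hb0 : (3 : ℝ) ≤ b := by exact_mod_cast hb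
  refine ⟨u₀, b ^ b, 1 / b, C, by positivity, by positivity, hC, ?_⟩
  intro F _ hF ι _ _ d _ hd f
  let j : ι → ℕ := fun i => Nat.clog b (d i)
  let e : (∀ i, ZMod (d i)) → (Σ i, Fin (j i)) → ℕ := fun x c =>
    (x c.1).val / b ^ (c.2 : ℕ) % b
  let dec : ((Σ i, Fin (j i)) → ℕ) → ∀ i, ZMod (d i) := fun u i =>
    ((∑ l : Fin (j i), u ⟨i, l⟩ * b ^ (l : ℕ) : ℕ) : ZMod (d i))
  have hdec : ∀ x, dec (e x) = x := by
    intro x
    funext i
    simp only [dec, e]
    rw [sum_digits', Nat.mod_eq_of_lt ((ZMod.val_lt _).trans_le (Nat.le_pow_clog (by omega) _)),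
      ZMod.natCast_zmod_val]
  have hadd : ∀ u u', dec (u + u') = dec u + dec u' := by
    intro u u'
    funext i
    simp [dec, add_mul, Finset.sum_add_distrib]
  have h1 := H F hF (Σ i, Fin (j i)) (∀ i, ZMod (d i)) e
    (Function.LeftInverse.injective hdec) (fun x c => Nat.mod_lt _ (by omega)) fun u => f (dec u)
  simp only [hadd, hdec] at h1
  have hr : (Fintype.card (Σ i, Fin (j i)) : ℝ) = ∑ i, (j i : ℝ) := by simp
  have hdpos : ∀ i, (0 : ℝ) < d i := fun i => by exact_mod_cast NeZero.pos (d i)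
  have hlog : log (∏ i, (d i : ℝ)) = ∑ i, log (d i) :=
    Real.log_prod fun i _ => (hdpos i).ne'
  have hn : 0 < ∏ i, (d i : ℝ) := Finset.prod_pos fun i _ => hdpos i
  refine h1.mono (mul_le_mul_of_nonneg_left ?_ hC.le) (Real.exp_le_exp.2 ?_)
  · have h2 : (b : ℝ) ^ Fintype.card (Σ i, Fin (j i)) =
        exp (Fintype.card (Σ i, Fin (j i)) * log b) := by
      rw [Real.exp_nat_mul, Real.exp_log (by linarith)]
    rw [h2, ← Real.exp_add]
    nth_rewrite 1 [← Real.exp_log hn]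
    rw [← Real.exp_add, Real.exp_le_exp, hr, hlog, Finset.sum_mul, Finset.mul_sum, Finset.mul_sum,
      ← sub_eq_add_neg, ← sub_eq_add_neg, ← Finset.sum_sub_distrib, ← Finset.sum_sub_distrib]
    exact Finset.sum_le_sum fun i _ => (clog_bounds' b (d i) hb (hd i)).1
  · have h2 : ∑ i, (j i : ℝ) * log b ≤ ∑ i, 2 * log (d i) :=
      Finset.sum_le_sum fun i _ => (clog_bounds' b (d i) hb (hd i)).2
    rw [← Finset.sum_mul, ← Finset.mul_sum] at h2
    rw [hr, hlog]
    nlinarith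

/-- Groups whose cyclic factors are all large, over every field. -/
theorem large_all (ε : ℝ) (hε : 0 < ε) : ∃ (D : ℕ) (γ C : ℝ), 0 < D ∧ 0 < γ ∧ 0 < C ∧
    ∀ (F : Type) [Field F] (ι : Type) [Fintype ι] [DecidableEq ι] (d : ι → ℕ)
      [∀ i, NeZero (d i)], (∀ i, D < d i) →
      ∀ f : (∀ i, ZMod (d i)) → F, NR (Matrix.of fun x y => f (x + y))
        (C * ((∏ i, (d i : ℝ)) * exp (-(γ * log (∏ i, (d i : ℝ))))))
        (exp (ε * log (∏ i, (d i : ℝ)))) := by
  obtain ⟨u, D, γ, C, hD, hγ, hC, H⟩ := large_win ε hε 0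
  obtain ⟨u', D', γ', C', hD', hγ', hC', H'⟩ := large_win ε hε u
  refine ⟨max D D', min γ γ', max C C', lt_max_of_lt_left hD, lt_min hγ hγ',
    lt_max_of_lt_left hC, ?_⟩
  intro F _ ι _ _ d _ hd f
  have h1 : (1 : ℝ) ≤ ∏ i, (d i : ℝ) := by
    have : 1 ≤ ∏ i, d i := Nat.succ_le_of_lt (Finset.prod_pos fun i _ => NeZero.pos (d i))
    exact_mod_cast this
  have hl : 0 ≤ log (∏ i, (d i : ℝ)) := Real.log_nonneg h1
  by_cases h : ∀ p : ℕ, p.Prime → 0 < p → p ≤ u → (p : F) ≠ 0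
  · refine (H F h ι d (fun i => Or.inr ((le_max_left _ _).trans_lt (hd i))) f).mono ?_ le_rfl
    gcongr
    · exact le_max_left _ _
    · exact min_le_left _ _
  · push Not at h
    obtain ⟨p, hp, -, hpu, hp0⟩ := h
    have h2 : ∀ q : ℕ, q.Prime → u < q → q ≤ u' → (q : F) ≠ 0 := by
      intro q hq huq _ hq0
      have h3 : IsCoprime (p : ℤ) (q : ℤ) :=
        Nat.isCoprime_iff_coprime.2 ((Nat.coprime_primes hp hq).2 (by omega))
      obtain ⟨a, b, hab⟩ := h3
      have h4 := congrArg (Int.cast : ℤ → F) hab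
      simp [hp0, hq0] at h4
    refine (H' F h2 ι d (fun i => Or.inr ((le_max_right _ _).trans_lt (hd i))) f).mono ?_ le_rfl
    gcongr
    · exact le_max_right _ _
    · exact min_le_right _ _

end Pool.Agent.P.MP_dad03b_lc
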