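import Pool.Agent.P.MP_dad03b_lc.GMix
import Pool.Agent.P.MP_dad03b_lc.GWin

namespace Pool.Agent.P.MP_dad03b_lc

open Finset Real Filter

theorem two_parts (ε : ℝ) (hε : 0 < ε) (hε1 : ε ≤ 1) : ∃ (D : ℕ) (γ C : ℝ), 0 < γ ∧ 0 < C ∧
    ∀ (K : Type) [Field K],
      (∀ d, 0 < d → d ≤ D → (Polynomial.X ^ d - 1 : Polynomial K).Splits) →
      ∀ (ι : Type) [Fintype ι] [DecidableEq ι] (d : ι → ℕ), (∀ i, 2 ≤ d i ∧ d i ≤ D) →
      ∀ (κ : Type) [Fintype κ] [DecidableEq κ] (m : κ → ℕ) [∀ i, NeZero (m i)], (∀ i, D < m i) →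
      ∀ n : ℝ, n = (∏ i, (d i : ℝ)) * ∏ i, (m i : ℝ) →
      ∀ f : (∀ i, ZMod (d i)) → (∀ i, ZMod (m i)) → K,
        NR (Matrix.of fun x y : (∀ i, Fin (d i)) × (∀ i, ZMod (m i)) =>
            f (fun i => ((x.1 i : ℕ) : ZMod (d i)) + (((y.1 i).rev : ℕ) : ZMod (d i))) (x.2 + y.2))
          (C * (n * exp (-(γ * log n)))) (exp (ε * log n)) := by
  classical
  obtain ⟨D, γB, C, hD, hγB, hC, HB⟩ := large_all (ε / 4) (by positivity)
  set θ : ℝ := γB * ε / 8 with hθ
  have hθ0 : 0 < θ := by positivity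
  set δ : ℝ := min (ε / 8) θ with hδ
  have hδ0 : 0 < δ := lt_min (by positivity) hθ0
  have hδ1 : δ ≤ ε / 8 := min_le_left _ _
  have hδ2 : δ ≤ θ := min_le_right _ _
  obtain ⟨γA, hγA, HA⟩ := mixed δ hδ0 D hD
  set γ : ℝ := min (γA * δ) θ with hγ
  have hγ1 : γ ≤ γA * δ := min_le_left _ _
  have hγ2 : γ ≤ θ := min_le_right _ _
  refine ⟨D, γ, 6 + C, lt_min (by positivity) hθ0, by positivity, ?_⟩
  intro K _ hK ι _ _ d hd κ _ _ m _ hm n hn f
  have ha1 : (1 : ℝ) ≤ ∏ i, (d i : ℝ) := by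
    have : 1 ≤ ∏ i, d i := Nat.succ_le_of_lt (Finset.prod_pos fun i _ => by
      have := (hd i).1; omega)
    exact_mod_cast this
  have hb1 : (1 : ℝ) ≤ ∏ i, (m i : ℝ) := by
    have : 1 ≤ ∏ i, m i := Nat.succ_le_of_lt (Finset.prod_pos fun i _ => NeZero.pos (m i))
    exact_mod_cast this
  have hca : (Fintype.card (∀ i, Fin (d i)) : ℝ) = ∏ i, (d i : ℝ) := by
    rw [Fintype.card_pi]; simp
  have hcb : (Fintype.card (∀ i, ZMod (m i)) : ℝ) = ∏ i, (m i : ℝ) := by
    rw [Fintype.card_pi]; simp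
  have HA := HA K hK ι d hd (∀ i, ZMod (m i))
  have HB := HB K κ m hm
  rw [hcb] at HA
  set a : ℝ := ∏ i, (d i : ℝ) with ha
  set b : ℝ := ∏ i, (m i : ℝ) with hb
  have ha0 : 0 < a := by linarith
  have hb0 : 0 < b := by linarith
  have hn0 : 0 < n := by rw [hn]; positivity
  have hL : log n = log a + log b := by rw [hn, Real.log_mul ha0.ne' hb0.ne']
  have hLa : 0 ≤ log a := Real.log_nonneg ha1
  have hLb : 0 ≤ log b := Real.log_nonneg hb1
  have hL0 : 0 ≤ log n := by linarith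
  have hx : 0 < n * exp (-(γ * log n)) := by positivity
  have hγL1 : γ * log n ≤ γA * (δ * log n) := by nlinarith
  have hγL2 : γ * log n ≤ θ * log n := mul_le_mul_of_nonneg_right hγ2 hL0
  have hδL1 : δ * log n ≤ ε / 8 * log n := mul_le_mul_of_nonneg_right hδ1 hL0
  have hδL2 : δ * log n ≤ θ * log n := mul_le_mul_of_nonneg_right hδ2 hL0
  have hδa : δ * log a ≤ δ * log n := mul_le_mul_of_nonneg_left (by linarith) hδ0.le
  have hεL : ε * log n ≤ log n := by nlinarith
  have hεL0 : 0 ≤ ε * log n := by positivity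
  have first : δ * log n ≤ log a →
      6 * (a * exp (-(γA * log a))) * b ≤ 6 * (n * exp (-(γ * log n))) := by
    intro h
    have h1 : exp (-(γA * log a)) ≤ exp (-(γ * log n)) :=
      Real.exp_le_exp.2 (by nlinarith [mul_le_mul_of_nonneg_left h hγA.le])
    calc _ = 6 * (n * exp (-(γA * log a))) := by rw [hn]; ring
      _ ≤ _ := by gcongr
  by_cases h1 : log b ≤ ε / 2 * log n
  · refine (HA 0 b le_rfl hb0.le (fun g => ⟨Matrix.of fun b b' => g (b + b'),
      fun _ => Finset.univ, by rw [sub_self]; simp, fun _ => ?_,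
      fun _ _ _ => Finset.mem_univ _⟩) f).mono ?_ ?_
    · rw [Finset.card_univ, hcb]
    · have := first (by linarith)
      nlinarith
    · nth_rewrite 1 [← Real.exp_log hb0]
      rw [← Real.exp_add, ← Real.exp_add, ← Real.exp_add, Real.exp_le_exp]
      linarith
  · have h2 : 4 * (θ * log n) ≤ γB * log b := by
      have := mul_le_mul_of_nonneg_left (not_le.1 h1).le hγB.le
      rw [hθ]; linarith
    have hεb : ε / 4 * log b ≤ ε / 4 * log n :=
      mul_le_mul_of_nonneg_left (by linarith) (by positivity)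
    have hθL : 0 ≤ θ * log n := by positivity
    have second : ∀ t : ℝ, t ≤ θ * log n →
        a * exp t * (C * (b * exp (-(γB * log b)))) ≤ C * (n * exp (-(γ * log n))) := by
      intro t ht
      have h3 : exp t * exp (-(γB * log b)) ≤ exp (-(γ * log n)) := by
        rw [← Real.exp_add, Real.exp_le_exp]; linarith
      calc _ = C * (n * (exp t * exp (-(γB * log b)))) := by rw [hn]; ring
        _ ≤ _ := by gcongr
    by_cases h3 : δ * log n ≤ log a
    · refine (HA _ _ (by positivity) (exp_pos _).le HB f).mono ?_ ?_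
      · linarith [first h3, second (δ * log a) (by linarith)]
      · rw [← Real.exp_add, ← Real.exp_add, ← Real.exp_add, Real.exp_le_exp]
        linarith
    · refine NR.mono (NR.blocks _ ∅ ∅ (fun _ => Finset.univ) a
        (C * (b * exp (-(γB * log b)))) (exp (ε / 4 * log b)) ha0.le (by positivity) (exp_pos _).le
        (fun _ _ => by rw [Finset.card_univ, hca]) (fun _ _ _ _ _ _ _ => Finset.mem_univ _) ?_)
        ?_ ?_
      · intro x y
        exact HB (f fun i => ((x i : ℕ) : ZMod (d i)) + (((y i).rev : ℕ) : ZMod (d i)))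
      · have h4 := second (log a) (by linarith)
        rw [Real.exp_log ha0] at h4
        rw [hca]
        simp only [Finset.card_empty, Nat.cast_zero, add_zero, zero_mul, zero_add]
        nlinarith
      · nth_rewrite 1 [← Real.exp_log ha0]
        rw [← Real.exp_add, Real.exp_le_exp]
        linarith

theorem all_groups (ε : ℝ) (hε : 0 < ε) (hε1 : ε ≤ 1) : ∃ γ C : ℝ, 0 < γ ∧ 0 < C ∧
    ∀ (K : Type) [Field K] (G : Type) [AddCommGroup G] [Fintype G] (f : G → K),
      NR (Matrix.of fun x y => f (x - y))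
        (C * (Fintype.card G * exp (-(γ * log (Fintype.card G)))))
        (exp (ε * log (Fintype.card G))) := by
  classical
  obtain ⟨D, γ, C, hγ, hC, H⟩ := two_parts ε hε hε1
  refine ⟨γ, D.factorial * C, hγ, by positivity, ?_⟩
  intro K _ G _ _ f
  obtain ⟨M, hM, hMD, hs⟩ := exists_split K D
  have : NeZero M := ⟨by rintro rfl; exact NeZero.ne ((0 : ℕ) : K) Nat.cast_zero⟩
  have : FiniteDimensional K (CyclotomicField M K) :=
    IsCyclotomicExtension.finiteDimensional {M} K _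
  obtain ⟨ι, _, n, hn, ⟨e⟩⟩ := AddCommGroup.equiv_directSum_zmod_of_finite' G
  have : ∀ i, NeZero (n i) := fun i => ⟨by have := hn i; omega⟩
  let φ : G ≃+ ∀ i, ZMod (n i) := e.trans (DirectSum.addEquivProd _)
  let p : ι → Prop := fun i => n i ≤ D
  let j := Equiv.piEquivPiSubtypeProd p fun i => ZMod (n i)
  have hcard : (Fintype.card G : ℝ) =
      (∏ i : {i // p i}, (n i : ℝ)) * ∏ i : {i // ¬ p i}, (n i : ℝ) := by
    rw [Fintype.card_congr (φ.toEquiv.trans j), Fintype.card_prod, Fintype.card_pi,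
      Fintype.card_pi]
    simp
  have h1 := H (CyclotomicField M K) hs {i // p i} (fun i => n i) (fun i => ⟨hn i, i.2⟩)
    {i // ¬ p i} (fun i => n i) (fun i => not_le.1 i.2) _ hcard
    fun z b => algebraMap K _ (f (φ.symm (j.symm (z, b))))
  have h2 := h1.submatrix
    (fun x : G => (fun i => ⟨(φ x i).val, ZMod.val_lt _⟩, fun i => φ x i))
    (fun y : G => (fun i => Fin.rev ⟨(φ (-y) i).val, ZMod.val_lt _⟩, fun i => φ (-y) i)) (by
      intro y y' h
      refine neg_injective (φ.injective (funext fun i => ?_))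
      by_cases hi : p i
      · have h3 := Fin.rev_injective (congrFun (congrArg Prod.fst h) ⟨i, hi⟩)
        exact ZMod.val_injective _ (congrArg Fin.val h3)
      · exact congrFun (congrArg Prod.snd h) ⟨i, hi⟩)
  have h3 : NR ((Matrix.of fun x y : G => f (x - y)).map (algebraMap K (CyclotomicField M K)))
      (C * (Fintype.card G * exp (-(γ * log (Fintype.card G)))))
      (exp (ε * log (Fintype.card G))) := by
    refine Eq.mp ?_ h2
    congr 1
    ext x y
    simp only [Matrix.submatrix_apply, Matrix.of_apply, Matrix.map_apply, Fin.rev_rev,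
      ZMod.natCast_val, ZMod.cast_id', id]
    congr 2
    rw [AddEquiv.symm_apply_eq, Equiv.symm_apply_eq, sub_eq_add_neg, map_add]
    rfl
  refine (NR.descent h3).mono ?_ le_rfl
  have h5 : (Module.finrank K (CyclotomicField M K) : ℝ) ≤ D.factorial := by
    exact_mod_cast (finrank_cyclotomicField_le K M).trans hMD
  rw [mul_assoc]
  exact mul_le_mul_of_nonneg_right h5 (by positivity)

theorem circulant_main (ε : ℝ) (hε : 0 < ε) : ∃ γ : ℝ, 0 < γ ∧ ∃ n₀ : ℕ,
    ∀ (K : Type) [Field K] (G : Type) [AddCommGroup G] [Fintype G], n₀ ≤ Fintype.card G →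
    ∀ f : G → K, ∃ Z : Matrix G G K,
      (((Matrix.of fun x y => f (x - y)) - Z).rank : ℝ) ≤ (Fintype.card G : ℝ) ^ (1 - γ) ∧
      ∀ x, ({y | Z x y ≠ 0}.ncard : ℝ) ≤ (Fintype.card G : ℝ) ^ ε := by
  obtain ⟨γ, C, hγ, hC, H⟩ := all_groups (min ε 1) (lt_min hε one_pos) (min_le_right _ _)
  obtain ⟨x₀, hx₀⟩ := eventually_atTop.1
    ((tendsto_rpow_atTop (half_pos hγ)).eventually_ge_atTop C)
  refine ⟨γ / 2, half_pos hγ, ⌈x₀⌉₊, ?_⟩
  intro K _ G _ _ hG f
  obtain ⟨S, T, h1, h2, h3⟩ := H K G f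
  set q : ℝ := (Fintype.card G : ℝ) with hq
  have hq1 : 1 ≤ q := by rw [hq]; exact_mod_cast Fintype.card_pos
  have hq0 : 0 < q := by linarith
  refine ⟨S, h1.trans ?_, fun x => ?_⟩
  · calc C * (q * exp (-(γ * log q))) = C * (q * q ^ (-γ)) := by
          rw [Real.rpow_def_of_pos hq0]; congr 3; ring
      _ ≤ q ^ (γ / 2) * (q * q ^ (-γ)) := by gcongr; exact hx₀ q (Nat.ceil_le.1 hG)
      _ = q ^ (γ / 2 + 1 + -γ) := by
          rw [Real.rpow_add hq0, Real.rpow_add hq0, Real.rpow_one]; ring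
      _ = _ := by congr 1; ring
  · have h4 : {y | S x y ≠ 0}.ncard ≤ (T x).card := by
      rw [← Set.ncard_coe_finset]
      exact Set.ncard_le_ncard (fun y hy => h3 x y hy) (Finset.finite_toSet _)
    calc _ ≤ ((T x).card : ℝ) := by exact_mod_cast h4
      _ ≤ exp (min ε 1 * log q) := h2 x
      _ = q ^ min ε 1 := by rw [Real.rpow_def_of_pos hq0, mul_comm]
      _ ≤ _ := Real.rpow_le_rpow_of_exponent_le hq1 (min_le_left _ _)

end Pool.Agent.P.MP_dad03b_lc
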