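import Pool.Agent.P.MP_dad03b_lc.GBlock

namespace Pool.Agent.P.MP_dad03b_lc

open Finset Real

theorem mixed (ε : ℝ) (hε : 0 < ε) (D : ℕ) (hD : 0 < D) : ∃ γ : ℝ, 0 < γ ∧
    ∀ (K : Type) [Field K],
      (∀ d, 0 < d → d ≤ D → (Polynomial.X ^ d - 1 : Polynomial K).Splits) →
      ∀ (ι : Type) [Fintype ι] [DecidableEq ι] (d : ι → ℕ), (∀ i, 2 ≤ d i ∧ d i ≤ D) →
      ∀ (β : Type) [Fintype β] [Add β] (r s : ℝ), 0 ≤ r → 0 ≤ s →
      (∀ g : β → K, NR (Matrix.of fun b b' => g (b + b')) r s) →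
      ∀ f : (∀ i, ZMod (d i)) → β → K,
        NR (Matrix.of fun x y : (∀ i, Fin (d i)) × β =>
            f (fun i => ((x.1 i : ℕ) : ZMod (d i)) + (((y.1 i).rev : ℕ) : ZMod (d i))) (x.2 + y.2))
          (6 * ((∏ i, (d i : ℝ)) * exp (-(γ * log (∏ i, (d i : ℝ))))) * Fintype.card β +
            (∏ i, (d i : ℝ)) * exp (ε * log (∏ i, (d i : ℝ))) * r)
          (exp (ε * log (∏ i, (d i : ℝ))) * (exp (ε * log (∏ i, (d i : ℝ))) * s) *
            exp (ε * log (∏ i, (d i : ℝ)))) := by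
  classical
  obtain ⟨γ, hγ, H⟩ := tri ε hε D hD
  refine ⟨γ, hγ, ?_⟩
  intro K _ hK ι _ _ d hd β _ _ r s hr hs hβ f
  have : ∀ i, NeZero (d i) := fun i => ⟨by have := (hd i).1; omega⟩
  choose P Q c hP hQ hc hI using fun i => coord (K := K) (d i) (hK _ (NeZero.pos _) (hd i).2)
  obtain ⟨A, B, T, hA, hB, hT, hM⟩ := H ι d hd fun _ => id
  obtain ⟨A', B', T', hA', hB', hT', hM'⟩ := H ι d hd fun _ => Fin.rev
  have hM := hM fun _ => Function.injective_id
  have hM' := hM' fun _ => Fin.rev_injective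
  have hcard : (Fintype.card (∀ i, Fin (d i)) : ℝ) = ∏ i, (d i : ℝ) := by
    rw [Fintype.card_pi]; simp
  set a : ℝ := (∏ i, (d i : ℝ)) * exp (-(γ * log (∏ i, (d i : ℝ)))) with ha
  set e : ℝ := exp (ε * log (∏ i, (d i : ℝ))) with he
  have he0 : 0 ≤ e := (exp_pos _).le
  have hb0 : (0 : ℝ) ≤ Fintype.card β := Nat.cast_nonneg _
  have low : ∀ R : ∀ i, Matrix (Fin (d i)) (Fin (d i)) K, (∀ i x y, R i x y ≠ 0 → y ≤ x) →
      NR (Matrix.of fun u w : (∀ i, Fin (d i)) × β =>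
        if u.2 = w.2 then ∏ i, R i (u.1 i) (w.1 i) else 0) (2 * a * Fintype.card β) e := by
    intro R hR
    refine (NR.blocks _ A' B' T' e 0 1 he0 le_rfl zero_le_one hT' ?_ ?_).mono ?_ (by simp)
    · intro x y b b' _ hy h
      refine hM' x y hy fun i => Fin.rev_le_rev.2 (hR i _ _ ?_)
      have h1 : ∏ i, R i (x i) (y i) ≠ 0 := by
        intro h0
        apply h
        simp [h0]
      exact Finset.prod_ne_zero_iff.1 h1 i (Finset.mem_univ i)
    · intro x y
      have h1 := NR.diag (K := K) fun _ : β => ∏ i, R i (x i) (y i)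
      have h2 : (Matrix.diagonal fun _ : β => ∏ i, R i (x i) (y i)) = Matrix.of fun b b' =>
          (Matrix.of fun u w : (∀ i, Fin (d i)) × β =>
            if u.2 = w.2 then ∏ i, R i (u.1 i) (w.1 i) else 0) (x, b) (y, b') := by
        ext b b'
        simp [Matrix.diagonal_apply]
      rwa [h2] at h1
    · rw [mul_zero, add_zero]
      exact mul_le_mul_of_nonneg_right (by linarith) hb0
  let Φ : Matrix ((∀ i, Fin (d i)) × β) ((∀ i, Fin (d i)) × β) K := Matrix.of fun u w =>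
    ∑ z : ∀ i, ZMod (d i), f z (u.2 + w.2) * ∏ i, c i (u.1 i) (w.1 i) (z i)
  have mid : NR Φ (2 * a * Fintype.card β + (∏ i, (d i : ℝ)) * e * r) (e * s) := by
    refine (NR.blocks Φ A B T e r s he0 hr hs hT ?_ ?_).mono ?_ le_rfl
    · intro x y b b' _ hy h
      obtain ⟨z, -, hz⟩ := Finset.exists_ne_zero_of_sum_ne_zero h
      exact hM x y hy fun i => hc i _ _ _
        (Finset.prod_ne_zero_iff.1 (right_ne_zero_of_mul hz) i (Finset.mem_univ i))
    · intro x y
      exact hβ fun b => ∑ z : ∀ i, ZMod (d i), f z b * ∏ i, c i (x i) (y i) (z i)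
    · rw [hcard]
      have := mul_le_mul_of_nonneg_right (show (A.card : ℝ) + B.card ≤ 2 * a by linarith) hb0
      linarith
  have h1 := ((low P hP).mul mid (mul_nonneg he0 hs)).mul (low Q hQ) he0
  refine NR.mono ?_ (le_of_eq (show 2 * a * Fintype.card β +
    (2 * a * Fintype.card β + (∏ i, (d i : ℝ)) * e * r) + 2 * a * Fintype.card β = _ by ring)) le_rfl
  suffices h : (Matrix.of fun x y : (∀ i, Fin (d i)) × β =>
      f (fun i => ((x.1 i : ℕ) : ZMod (d i)) + (((y.1 i).rev : ℕ) : ZMod (d i))) (x.2 + y.2)) = _ by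
    rw [h]; exact h1
  ext ⟨x, b⟩ ⟨y, b'⟩
  simp only [Matrix.mul_apply, Matrix.of_apply, Fintype.sum_prod_type, Φ, ite_mul, zero_mul,
    mul_ite, mul_zero, Finset.sum_ite_eq, Finset.sum_ite_eq', Finset.mem_univ, if_true]
  have h2 : ∀ z : ∀ i, ZMod (d i),
      (if (fun i => ((x i : ℕ) : ZMod (d i)) + (((y i).rev : ℕ) : ZMod (d i))) = z then (1 : K)
        else 0) = ∑ k : ∀ i, Fin (d i), ∑ j : ∀ i, Fin (d i),
          (∏ i, P i (x i) (j i)) * (∏ i, c i (j i) (k i) (z i)) * ∏ i, Q i (k i) (y i) := by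
    intro z
    have h3 : (if (fun i => ((x i : ℕ) : ZMod (d i)) + (((y i).rev : ℕ) : ZMod (d i))) = z
        then (1 : K) else 0) = ∏ i, if ((x i : ℕ) : ZMod (d i)) + (((y i).rev : ℕ) : ZMod (d i)) =
          z i then (1 : K) else 0 := by
      rw [Finset.prod_boole]
      simp [funext_iff]
    rw [h3, Finset.sum_comm]
    simp only [hI]
    rw [Finset.prod_univ_sum, Fintype.piFinset_univ]
    refine Finset.sum_congr rfl fun j _ => ?_
    rw [Finset.prod_univ_sum, Fintype.piFinset_univ]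
    refine Finset.sum_congr rfl fun k _ => ?_
    rw [Finset.prod_mul_distrib, Finset.prod_mul_distrib]
  calc _ = ∑ z : ∀ i, ZMod (d i), f z (b + b') * (if (fun i => ((x i : ℕ) : ZMod (d i)) +
        (((y i).rev : ℕ) : ZMod (d i))) = z then (1 : K) else 0) := by simp
    _ = _ := by
      simp only [h2, Finset.mul_sum, Finset.sum_mul]
      rw [Finset.sum_comm]
      refine Finset.sum_congr rfl fun k _ => ?_
      rw [Finset.sum_comm]
      refine Finset.sum_congr rfl fun j _ => Finset.sum_congr rfl fun z _ => ?_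
      ring

end Pool.Agent.P.MP_dad03b_lc
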