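import Pool.Agent.P.MP_dad03b_lc.Descent

namespace Pool.Agent.P.MP_dad03b_lc

open Finset Polynomial

theorem newton {K A : Type*} [Field K] [CommRing A] [Algebra K A] (g : A) (lam : ℕ → K) (a : ℕ) :
    ∃ P : ℕ → K, (∀ j, a < j → P j = 0) ∧
      g ^ a = ∑ j ∈ range (a + 1), P j • ∏ i ∈ range j, (g - algebraMap K A (lam i)) := by
  induction a with
  | zero => exact ⟨fun j => if j = 0 then 1 else 0, fun j hj => if_neg (by omega), by simp⟩
  | succ a ih =>
    obtain ⟨P, h0, h1⟩ := ih
    refine ⟨fun j => (if j = 0 then 0 else P (j - 1)) + lam j * P j, ?_, ?_⟩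
    · intro j hj
      simp only [if_neg (by omega : j ≠ 0), h0 j (by omega), h0 (j - 1) (by omega)]
      simp
    · simp only [add_smul, Finset.sum_add_distrib]
      rw [Finset.sum_range_succ' _ (a + 1), Finset.sum_range_succ (fun j => (lam j * P j) • _) (a + 1),
        h0 (a + 1) (by omega), pow_succ, h1, Finset.sum_mul]
      simp only [Nat.add_one_ne_zero, if_false, Nat.add_sub_cancel, if_true, zero_smul, add_zero,
        mul_zero]
      rw [← Finset.sum_add_distrib]
      refine Finset.sum_congr rfl fun j _ => ?_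
      rw [Finset.prod_range_succ]
      simp only [Algebra.smul_def, map_mul]
      ring

theorem newton_fin {K A : Type*} [Field K] [CommRing A] [Algebra K A] (g : A) (lam : ℕ → K)
    (d : ℕ) (a : Fin d) : ∃ P : Fin d → K, (∀ j, P j ≠ 0 → j ≤ a) ∧
      g ^ (a : ℕ) = ∑ j : Fin d, P j • ∏ i ∈ range j, (g - algebraMap K A (lam i)) := by
  obtain ⟨P, h0, h1⟩ := newton g lam a
  refine ⟨fun j => P j, fun j hj => ?_, ?_⟩
  · by_contra h
    exact hj (h0 j (by simpa using h))
  · rw [h1, Fin.sum_univ_eq_sum_range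
      (fun j => P j • ∏ i ∈ range j, (g - algebraMap K A (lam i))) d]
    refine Finset.sum_subset (Finset.range_mono a.2) fun j _ hj => ?_
    rw [h0 j (by simpa using hj), zero_smul]

theorem prod_split {A : Type*} [CommRing A] (F : ℕ → A) (d l : ℕ) (hl : l ≤ d) :
    ∏ i ∈ range d, F i = (∏ i ∈ range (d - l), F i) * ∏ i ∈ range l, F (d - 1 - i) := by
  induction l with
  | zero => simp
  | succ l ih =>
    have e : d - l = d - (l + 1) + 1 := by omega
    have e' : d - (l + 1) = d - 1 - l := by omega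
    rw [ih (by omega), e, Finset.prod_range_succ, Finset.prod_range_succ, e']
    ring

theorem coord {K : Type*} [Field K] (d : ℕ) [NeZero d] (hs : (X ^ d - 1 : K[X]).Splits) :
    ∃ (P Q : Matrix (Fin d) (Fin d) K) (c : Fin d → Fin d → ZMod d → K),
      (∀ a j, P a j ≠ 0 → j ≤ a) ∧ (∀ k a, Q k a ≠ 0 → a ≤ k) ∧ (∀ j k z, c j k z ≠ 0 → j ≤ k) ∧
      ∀ (a a' : Fin d) (z : ZMod d),
        (if ((a : ℕ) : ZMod d) + ((a'.rev : ℕ) : ZMod d) = z then (1 : K) else 0) =
          ∑ j, ∑ k, P a j * c j k z * Q k a' := by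
  classical
  have hd : 0 < d := NeZero.pos d
  have hm : (X ^ d - 1 : K[X]).Monic := by
    simpa using Polynomial.monic_X_pow_sub_C (1 : K) hd.ne'
  have hdeg : (X ^ d - 1 : K[X]).natDegree = d := by
    simpa using Polynomial.natDegree_X_pow_sub_C (n := d) (r := (1 : K))
  set l := (X ^ d - 1 : K[X]).roots.toList with hl
  have hlen : l.length = d := by
    rw [hl, Multiset.length_toList, ← hs.natDegree_eq_card_roots, hdeg]
  let lam : ℕ → K := fun i => l.getD i 0
  have hprod : ∏ i ∈ range d, (X - C (lam i)) = (X ^ d - 1 : K[X]) := by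
    conv_rhs => rw [hs.eq_prod_roots_of_monic hm, ← Multiset.coe_toList (X ^ d - 1 : K[X]).roots,
      ← hl, Multiset.map_coe, Multiset.prod_coe, ← Fin.prod_univ_fun_getElem]
    rw [← hlen, ← Fin.prod_univ_eq_prod_range (fun i => X - C (lam i))]
    refine Finset.prod_congr rfl fun i _ => ?_
    simp [lam]
  let g : AddMonoidAlgebra K (ZMod d) := AddMonoidAlgebra.single 1 1
  have hg : ∀ n : ℕ, g ^ n = AddMonoidAlgebra.single (n : ZMod d) 1 := by
    intro n
    simp [g, AddMonoidAlgebra.single_pow]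
  have h0 : ∏ i ∈ range d, (g - algebraMap K _ (lam i)) = 0 := by
    have := congrArg (Polynomial.aeval g) hprod
    simp only [map_prod, map_sub, Polynomial.aeval_X, Polynomial.aeval_C, map_pow, map_one] at this
    rw [this, hg, ZMod.natCast_self, ← AddMonoidAlgebra.one_def, sub_self]
  choose P hP1 hP2 using newton_fin g lam d
  choose Q hQ1 hQ2 using newton_fin g (fun i => lam (d - 1 - i)) d
  let N : Fin d → AddMonoidAlgebra K (ZMod d) := fun j =>
    ∏ i ∈ range j, (g - algebraMap K _ (lam i))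
  let N' : Fin d → AddMonoidAlgebra K (ZMod d) := fun j =>
    ∏ i ∈ range j, (g - algebraMap K _ (lam (d - 1 - i)))
  refine ⟨Matrix.of P, Matrix.of fun k a => Q a.rev k.rev, fun j k z => (N j * N' k.rev).coeff z,
    hP1, fun k a h => Fin.rev_le_rev.1 (hQ1 _ _ h), ?_, ?_⟩
  · intro j k z h
    by_contra hjk
    apply h
    have h1 := prod_split (fun i => g - algebraMap K _ (lam i)) d k.rev k.rev.2.le
    have h2 : (∏ i ∈ range (d - k.rev), (g - algebraMap K _ (lam i))) ∣ N j := by
      refine Finset.prod_dvd_prod_of_subset _ _ _ (Finset.range_mono ?_)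
      have : (k : ℕ) < j := by simpa using hjk
      rw [Fin.val_rev]
      omega
    obtain ⟨w, hw⟩ := h2
    have h3 : N j * N' k.rev = 0 := by
      rw [hw, mul_right_comm, ← h1, h0, zero_mul]
    simp [h3]
  · intro a a' z
    have h1 : g ^ (a : ℕ) * g ^ (a'.rev : ℕ) =
        ∑ j, ∑ k : Fin d, (P a j * Q a'.rev k.rev) • (N j * N' k.rev) := by
      rw [hP2 a, hQ2 a'.rev, Finset.sum_mul]
      refine Finset.sum_congr rfl fun j _ => ?_
      rw [Finset.mul_sum, ← Equiv.sum_comp Fin.revPerm]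
      refine Finset.sum_congr rfl fun k _ => ?_
      simp only [Fin.revPerm_apply, N, N']
      rw [smul_mul_smul_comm]
    rw [← pow_add, hg] at h1
    have h2 := congrArg (fun u : AddMonoidAlgebra K (ZMod d) => u.coeff z) h1
    simp only [AddMonoidAlgebra.coeff_single, Finsupp.single_apply, Nat.cast_add,
      AddMonoidAlgebra.coeff_sum, Finsupp.finsetSum_apply, AddMonoidAlgebra.coeff_smul,
      Finsupp.smul_apply, smul_eq_mul] at h2
    rw [h2]
    refine Finset.sum_congr rfl fun j _ => Finset.sum_congr rfl fun k _ => ?_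
    simp only [Matrix.of_apply]
    ring

theorem exists_split (F : Type) [Field F] (D : ℕ) : ∃ M : ℕ, ∃ _ : NeZero (M : F), M ≤ D.factorial ∧
    ∀ d, 0 < d → d ≤ D → (X ^ d - 1 : (CyclotomicField M F)[X]).Splits := by
  obtain ⟨q, hq⟩ := ExpChar.exists F
  have hD : D.factorial ≠ 0 := Nat.factorial_ne_zero D
  obtain ⟨a, M, hM, hMa⟩ : ∃ a M : ℕ, (M : F) ≠ 0 ∧ D.factorial = M * q ^ a := by
    cases hq with
    | zero => exact ⟨0, D.factorial, by exact_mod_cast hD, by simp⟩
    | prime hp =>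
      obtain ⟨a, M, h1, h2⟩ := Nat.exists_eq_pow_mul_and_not_dvd hD q hp.ne_one
      exact ⟨a, M, fun h => h1 ((CharP.cast_eq_zero_iff F q M).1 h), by rw [h2, mul_comm]⟩
  have hM0 : M ≠ 0 := by rintro rfl; exact hM Nat.cast_zero
  have : NeZero (M : F) := ⟨hM⟩
  have : NeZero M := ⟨hM0⟩
  refine ⟨M, inferInstance, Nat.le_of_dvd (Nat.pos_of_ne_zero hD) ⟨_, hMa⟩, fun d hd hdD => ?_⟩
  have : ExpChar (CyclotomicField M F) q :=
    expChar_of_injective_algebraMap (algebraMap F (CyclotomicField M F)).injective q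
  have h1 := IsCyclotomicExtension.splits_X_pow_sub_one (S := {M}) (n := M) F
    (CyclotomicField M F) rfl
  simp only [Polynomial.map_sub, Polynomial.map_pow, Polynomial.map_X, Polynomial.map_one] at h1
  have h2 := h1.pow (q ^ a)
  rw [sub_pow_expChar_pow, one_pow, ← pow_mul, ← hMa] at h2
  refine h2.of_dvd ?_ ?_
  · simpa using Polynomial.X_pow_sub_C_ne_zero (Nat.pos_of_ne_zero hD) (1 : CyclotomicField M F)
  · obtain ⟨k, hk⟩ := Nat.dvd_factorial hd hdD
    have := sub_dvd_pow_sub_pow (X ^ d : (CyclotomicField M F)[X]) 1 k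
    rwa [one_pow, ← pow_mul, ← hk] at this

end Pool.Agent.P.MP_dad03b_lc
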