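import Pool.Agent.P.MP_dad03b_lc.GBlock

namespace Pool.Agent.P.MP_dad03b_lc

open Finset Real

variable {K : Type*} [Field K]

theorem exists_rank_factor {α : Type*} [Fintype α] (L : Matrix α α K) :
    ∃ (P : Matrix α (Fin L.rank) K) (Q : Matrix (Fin L.rank) α K), L = P * Q := by
  let W := Submodule.span K (Set.range L.col)
  let b : Module.Basis (Fin L.rank) K W :=
    Module.finBasisOfFinrankEq K W (Matrix.rank_eq_finrank_span_cols L).symm
  refine ⟨Matrix.of fun x j => (b j : α → K) x,
    Matrix.of fun j y => b.repr ⟨L.col y, Submodule.subset_span ⟨y, rfl⟩⟩ j, ?_⟩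
  ext x y
  have h := congrArg (fun w : W => (w : α → K) x)
    (b.sum_repr ⟨L.col y, Submodule.subset_span ⟨y, rfl⟩⟩)
  simp only [Submodule.coe_sum, Submodule.coe_smul, Finset.sum_apply, Pi.smul_apply, smul_eq_mul,
    Matrix.col_apply] at h
  rw [Matrix.mul_apply, ← h]
  exact Finset.sum_congr rfl fun j _ => mul_comm _ _

theorem rank_kron_le {ι : Type*} [Fintype ι] [DecidableEq ι] {α : ι → Type*} [∀ i, Fintype (α i)]
    (N : ∀ i, Matrix (α i) (α i) K) : (kron N).rank ≤ ∏ i, (N i).rank := by
  choose P Q h using fun i => exists_rank_factor (N i)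
  have e : kron N = (Matrix.of fun (x : ∀ i, α i) (j : ∀ i, Fin (N i).rank) => ∏ i, P i (x i) (j i)) *
      Matrix.of fun (j : ∀ i, Fin (N i).rank) (y : ∀ i, α i) => ∏ i, Q i (j i) (y i) := by
    ext x y
    have h1 : ∀ i, N i (x i) (y i) = ∑ j, P i (x i) j * Q i j (y i) := fun i =>
      (congrFun (congrFun (h i) (x i)) (y i)).trans Matrix.mul_apply
    simp only [kron, Matrix.of_apply, Matrix.mul_apply, h1]
    rw [Finset.prod_univ_sum, Fintype.piFinset_univ]
    exact Finset.sum_congr rfl fun z _ => Finset.prod_mul_distrib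
  rw [e]
  refine (Matrix.rank_mul_le_left _ _).trans ((Matrix.rank_le_card_width _).trans (le_of_eq ?_))
  rw [Fintype.card_pi]; simp

theorem NR.add {α β : Type*} [Fintype β] {A B : Matrix α β K} {r s r' s' : ℝ} (h : NR A r s)
    (h' : NR B r' s') : NR (A + B) (r + r') (s + s') := by
  classical
  obtain ⟨S, T, h1, h2, h3⟩ := h
  obtain ⟨S', T', h1', h2', h3'⟩ := h'
  refine ⟨S + S', fun x => T x ∪ T' x, ?_, fun x => ?_, fun x y hxy => ?_⟩
  · have e : A + B - (S + S') = (A - S) + (B - S') := by abel
    rw [e]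
    have h4 : (((A - S) + (B - S')).rank : ℝ) ≤ ((A - S).rank : ℝ) + ((B - S').rank : ℝ) := by
      exact_mod_cast rank_add_le' _ _
    linarith
  · have h4 : ((T x ∪ T' x).card : ℝ) ≤ ((T x).card : ℝ) + (T' x).card := by
      exact_mod_cast Finset.card_union_le _ _
    linarith [h2 x, h2' x]
  · by_cases h : S x y = 0
    · refine Finset.mem_union_right _ (h3' x y fun h' => hxy ?_)
      simp [h, h']
    · exact Finset.mem_union_left _ (h3 x y h)

theorem NR.sum {α β ι : Type*} [Fintype β] (t : Finset ι) (A : ι → Matrix α β K) (r s : ℝ)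
    (h : ∀ i ∈ t, NR (A i) r s) : NR (∑ i ∈ t, A i) (t.card * r) (t.card * s) := by
  classical
  induction t using Finset.induction_on with
  | empty => exact ⟨0, fun _ => ∅, by simp, by simp, by simp⟩
  | insert a t ha ih =>
    rw [Finset.sum_insert ha, Finset.card_insert_of_notMem ha]
    refine ((h a (Finset.mem_insert_self _ _)).add
      (ih fun i hi => h i (Finset.mem_insert_of_mem hi))).mono (le_of_eq ?_) (le_of_eq ?_) <;>
    · push_cast; ring

theorem NR.dense {α β : Type*} [Fintype β] (A : Matrix α β K) : NR A 0 (Fintype.card β) :=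
  ⟨A, fun _ => Finset.univ, by simp, by simp, by simp⟩

theorem NR_big {ι : Type*} [Fintype ι] [DecidableEq ι] {α : ι → Type*} [∀ i, Fintype (α i)]
    [∀ i, Nonempty (α i)] (γ ε : ℝ) (hγ : 0 < γ) (hε : 0 < ε) (M : ∀ i, Matrix (α i) (α i) K)
    (hM : ∀ i, NR (M i) (Fintype.card (α i) * exp (-(γ * log (Fintype.card (α i)))))
      (exp (ε * log (Fintype.card (α i)))))
    (h2 : ∀ i, log 2 ≤ min (γ * ε / 2) ε * log (Fintype.card (α i)))
    (b : ℝ) (hb : b = Fintype.card (∀ i, α i)) :
    NR (kron M) (b * exp (-(γ * ε / 2 * log b))) (exp (3 * ε * log b)) := by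
  classical
  choose S T h3 h4 h5 using hM
  set m : ι → ℝ := fun i => Fintype.card (α i) with hm
  have hm1 : ∀ i, 1 ≤ m i := fun i => by
    simp only [hm]; exact_mod_cast Fintype.card_pos
  have hm0 : ∀ i, 0 < m i := fun i => by linarith [hm1 i]
  have hl0 : ∀ i, 0 ≤ log (m i) := fun i => Real.log_nonneg (hm1 i)
  have hb' : b = ∏ i, m i := by rw [hb, Fintype.card_pi]; simp [hm]
  have hb0 : 0 < b := by rw [hb']; exact Finset.prod_pos fun i _ => hm0 i
  have hlog : log b = ∑ i, log (m i) := by
    rw [hb']; exact Real.log_prod fun i _ => (hm0 i).ne'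
  have hlb : 0 ≤ log b := by rw [hlog]; exact Finset.sum_nonneg fun i _ => hl0 i
  let N : Finset ι → ∀ i, Matrix (α i) (α i) K := fun t i => if i ∈ t then M i - S i else S i
  have e : kron M = ∑ t ∈ (Finset.univ : Finset ι).powerset, kron (N t) := by
    ext x y
    have h6 : ∀ i, M i (x i) (y i) = (M i - S i) (x i) (y i) + S i (x i) (y i) := fun i => by simp
    simp only [kron, Matrix.of_apply, Matrix.sum_apply]
    rw [Finset.prod_congr rfl fun i _ => h6 i, Finset.prod_add]
    refine Finset.sum_congr rfl fun t _ => ?_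
    rw [← Finset.prod_mul_prod_compl t, Finset.compl_eq_univ_sdiff]
    congr 1
    · exact Finset.prod_congr rfl fun i hi => by simp [N, hi]
    · exact Finset.prod_congr rfl fun i hi => by simp [N, (Finset.mem_sdiff.1 hi).2]
  have hw : ∀ t : Finset ι, ∑ i, (if i ∈ t then log (m i) else 0) = ∑ i ∈ t, log (m i) := fun t => by
    rw [Finset.sum_ite_mem, Finset.univ_inter]
  have key : ∀ t : Finset ι, NR (kron (N t)) (b * exp (-(γ * ε * log b))) (exp (2 * ε * log b)) := by
    intro t
    by_cases ht : ε * log b ≤ ∑ i ∈ t, log (m i)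
    · refine ⟨0, fun _ => ∅, ?_, fun _ => by simpa using (exp_pos _).le, by simp⟩
      rw [sub_zero]
      calc ((kron (N t)).rank : ℝ) ≤ ∏ i, ((N t i).rank : ℝ) := by exact_mod_cast rank_kron_le (N t)
        _ ≤ ∏ i, m i * exp (-(γ * if i ∈ t then log (m i) else 0)) := by
            refine Finset.prod_le_prod (fun i _ => Nat.cast_nonneg _) fun i _ => ?_
            by_cases hi : i ∈ t
            · simpa [N, hi] using h3 i
            · simp only [hi, if_false, mul_zero, neg_zero, Real.exp_zero, mul_one, hm]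
              exact_mod_cast Matrix.rank_le_card_width _
        _ = b * exp (-(γ * ∑ i ∈ t, log (m i))) := by
            rw [Finset.prod_mul_distrib, ← hb', ← Real.exp_sum, Finset.sum_neg_distrib,
              ← Finset.mul_sum, hw]
        _ ≤ _ := by
            refine mul_le_mul_of_nonneg_left (Real.exp_le_exp.2 ?_) hb0.le
            nlinarith [mul_le_mul_of_nonneg_left ht hγ.le]
    · refine ⟨kron (N t), fun x => Fintype.piFinset fun i =>
        if i ∈ t then Finset.univ else T i (x i), by simpa using by positivity, fun x => ?_,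
        fun x y hxy => ?_⟩
      · rw [Fintype.card_piFinset, Nat.cast_prod]
        calc _ ≤ ∏ i, exp ((if i ∈ t then log (m i) else 0) + ε * log (m i)) := by
              refine Finset.prod_le_prod (fun i _ => Nat.cast_nonneg _) fun i _ => ?_
              by_cases hi : i ∈ t
              · simp only [hi, if_true, Finset.card_univ]
                rw [Real.exp_add, Real.exp_log (hm0 i)]
                exact le_mul_of_one_le_right (hm0 i).le
                  (Real.one_le_exp (mul_nonneg hε.le (hl0 i)))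
              · simpa [hi] using h4 i (x i)
          _ = exp (∑ i ∈ t, log (m i) + ε * log b) := by
              rw [← Real.exp_sum, Finset.sum_add_distrib, hw, ← Finset.mul_sum, ← hlog]
          _ ≤ _ := Real.exp_le_exp.2 (by linarith [not_le.1 ht])
      · rw [Fintype.mem_piFinset]
        intro i
        have h6 : N t i (x i) (y i) ≠ 0 := (Finset.prod_ne_zero_iff.1 hxy) i (Finset.mem_univ i)
        by_cases hi : i ∈ t
        · simp [hi]
        · simp only [hi, if_false]
          exact h5 i _ _ (by simpa [N, hi] using h6)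
  have hc : (((Finset.univ : Finset ι).powerset.card : ℕ) : ℝ) ≤
      exp (min (γ * ε / 2) ε * log b) := by
    rw [Finset.card_powerset, hlog, Finset.mul_sum, Real.exp_sum, Nat.cast_pow, Nat.cast_ofNat,
      ← Finset.prod_const]
    refine Finset.prod_le_prod (fun i _ => by norm_num) fun i _ => ?_
    exact (Real.exp_log (show (0 : ℝ) < 2 by norm_num)).symm.le.trans (Real.exp_le_exp.2 (h2 i))
  rw [e]
  refine (NR.sum _ _ _ _ fun t _ => key t).mono ?_ ?_
  · calc _ ≤ exp (γ * ε / 2 * log b) * (b * exp (-(γ * ε * log b))) := by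
          refine mul_le_mul_of_nonneg_right (hc.trans (Real.exp_le_exp.2 ?_)) (by positivity)
          exact mul_le_mul_of_nonneg_right (min_le_left _ _) hlb
      _ = _ := by rw [mul_left_comm, ← Real.exp_add]; congr 2; ring
  · calc _ ≤ exp (ε * log b) * exp (2 * ε * log b) := by
          refine mul_le_mul_of_nonneg_right (hc.trans (Real.exp_le_exp.2 ?_)) (by positivity)
          exact mul_le_mul_of_nonneg_right (min_le_right _ _) hlb
      _ = _ := by rw [← Real.exp_add]; congr 1; ring

theorem NR.one_prod {α β : Type*} [Fintype α] [Fintype β] [DecidableEq α] {B : Matrix β β K}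
    {r s : ℝ} (h : NR B r s) (hr : 0 ≤ r) (hs : 0 ≤ s) :
    NR (Matrix.of fun u w : α × β => if u.1 = w.1 then B u.2 w.2 else 0) (Fintype.card α * r) s := by
  refine (NR.blocks _ ∅ ∅ (fun x => {x}) 1 r s zero_le_one hr hs (by simp) ?_ ?_).mono
    (by simp) (by simp)
  · intro x y b b' _ _ h0
    by_contra h'
    have : x ≠ y := fun h => h' (by simp [h])
    exact h0 (by simp [this])
  · intro x y
    by_cases hxy : x = y
    · simp only [Matrix.of_apply, hxy, if_true]
      exact h
    · simp only [Matrix.of_apply, hxy, if_false]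
      refine ⟨0, fun _ => ∅, ?_, fun _ => by simpa using hs, by simp⟩
      have : (Matrix.of fun _ _ : β => (0 : K)) = 0 := rfl
      rw [this, sub_zero, Matrix.rank_zero]
      simpa using hr

theorem NR.prod {α β : Type*} [Fintype α] [Fintype β] {A : Matrix α α K} {B : Matrix β β K}
    {r s r' s' : ℝ} (h : NR A r s) (h' : NR B r' s') (hr : 0 ≤ r) (hs : 0 ≤ s) (hr' : 0 ≤ r')
    (hs' : 0 ≤ s') : NR (Matrix.of fun u w : α × β => A u.1 w.1 * B u.2 w.2)
      (Fintype.card β * r + Fintype.card α * r') (s * s') := by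
  classical
  have h1 := ((h.one_prod (α := β) hr hs).submatrix Prod.swap Prod.swap Prod.swap_injective).mul
    (h'.one_prod (α := α) hr' hs') hs'
  convert h1 using 1
  ext ⟨x, b⟩ ⟨y, b'⟩
  simp [Matrix.mul_apply, Fintype.sum_prod_type]

theorem NR_split {ι : Type*} [Fintype ι] [DecidableEq ι] {α : ι → Type*} [∀ i, Fintype (α i)]
    (p : ι → Prop) [DecidablePred p] (M : ∀ i, Matrix (α i) (α i) K) {r s r' s' : ℝ}
    (h : NR (kron fun i : {i // p i} => M i) r s) (h' : NR (kron fun i : {i // ¬ p i} => M i) r' s')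
    (hr : 0 ≤ r) (hs : 0 ≤ s) (hr' : 0 ≤ r') (hs' : 0 ≤ s') :
    NR (kron M) (Fintype.card (∀ i : {i // ¬ p i}, α i) * r +
      Fintype.card (∀ i : {i // p i}, α i) * r') (s * s') := by
  have h1 := (h.prod h' hr hs hr' hs').submatrix (Equiv.piEquivPiSubtypeProd p α)
    (Equiv.piEquivPiSubtypeProd p α) (Equiv.injective _)
  convert h1 using 1
  ext x y
  simp only [kron, Matrix.submatrix_apply, Matrix.of_apply, Equiv.piEquivPiSubtypeProd_apply]
  exact (Fintype.prod_subtype_mul_prod_subtype p fun i => M i (x i) (y i)).symm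

/-- A part of order `a ≤ n`: either it is dense and short, or its saving is a saving in `n`. -/
theorem NR.lift {α : Type*} [Fintype α] {A : Matrix α α K} {a n C γ ε ε' : ℝ}
    (ha : a = Fintype.card α) (ha1 : 1 ≤ a) (han : a ≤ n) (hC : 0 ≤ C) (hγ : 0 ≤ γ) (hε : 0 ≤ ε)
    (hε' : ε ≤ ε') (h : NR A (C * (a * exp (-(γ * log a)))) (exp (ε' * log a))) :
    NR A (C * (a * exp (-(γ * ε * log n)))) (exp (ε' * log n)) := by
  have h1 : log a ≤ log n := Real.log_le_log (by linarith) han
  have h2 : 0 ≤ log n := (Real.log_nonneg ha1).trans h1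
  by_cases hc : log a ≤ ε * log n
  · refine (NR.dense A).mono (by positivity) ?_
    rw [← ha, ← Real.exp_log (show 0 < a by linarith)]
    exact Real.exp_le_exp.2 (hc.trans (mul_le_mul_of_nonneg_right hε' h2))
  · refine h.mono ?_ (Real.exp_le_exp.2 (mul_le_mul_of_nonneg_left h1 (hε.trans hε')))
    have h3 : γ * ε * log n ≤ γ * log a := by
      rw [mul_assoc]; exact mul_le_mul_of_nonneg_left (not_le.1 hc).le hγ
    gcongr

end Pool.Agent.P.MP_dad03b_lc
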