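import Pool.Agent.P.MP_dad03b_lc.Kron

namespace Pool.Agent.P.MP_dad03b_lc

open Finset Real

variable {K : Type*} [Field K]

/-- Products of `s` matrices, each diagonal outside one column. -/
def Chain {α : Type*} [Fintype α] [DecidableEq α] : ℕ → Matrix α α K → Prop
  | 0, B => B = 1
  | s + 1, B => ∃ (B' g : Matrix α α K) (c : α), Chain s B' ∧
      (∀ x y, g x y ≠ 0 → y = c ∨ y = x) ∧ B = B' * g

theorem mul_updateCol_one {α : Type*} [Fintype α] [DecidableEq α] (B : Matrix α α K) (y : α)
    (u : α → K) : B * (1 : Matrix α α K).updateCol y u = B.updateCol y (B.mulVec u) := by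
  ext x z
  by_cases h : z = y
  · subst h
    simp [Matrix.mul_apply, Matrix.mulVec, dotProduct]
  · simp [Matrix.mul_apply, Matrix.updateCol_ne h, Matrix.one_apply]

theorem chain_step {α : Type*} [Fintype α] [DecidableEq α] [Nonempty α] (M : Matrix α α K) (s : ℕ) :
    ∃ (B : Matrix α α K) (J : Finset α) (φ : α → α), Chain s B ∧ Set.InjOn φ J ∧
      (∀ y ∈ J, ∀ x, B x y = M x (φ y)) ∧ (∀ z, ∃ u, B.mulVec u = fun x => M x z) ∧
      min s (Fintype.card α) ≤ J.card := by
  induction s with
  | zero =>
    exact ⟨1, ∅, id, rfl, by simp, by simp, fun z => ⟨fun x => M x z, by simp⟩, by simp⟩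
  | succ s ih =>
    obtain ⟨B, J, φ, h1, h2, h3, h4, h5⟩ := ih
    by_cases hJ : J = Finset.univ
    · refine ⟨B, J, φ, ⟨B, 1, Classical.arbitrary α, h1, fun x y h => Or.inr ?_, by simp⟩,
        h2, h3, h4, ?_⟩
      · by_contra h'
        exact h (Matrix.one_apply_ne (Ne.symm h'))
      · rw [hJ, Finset.card_univ]; exact min_le_right _ _
    have hlt : J.card < Fintype.card α := by
      rw [← Finset.card_univ]
      exact Finset.card_lt_card (Finset.ssubset_univ_iff.2 hJ)
    have key : ∀ (y z : α) (u : α → K), y ∉ J → z ∉ J.image φ → (B.mulVec u = fun x => M x z) →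
        (∀ z, ∃ u', (B.updateCol y (B.mulVec u)).mulVec u' = fun x => M x z) →
        ∃ (B : Matrix α α K) (J : Finset α) (φ : α → α), Chain (s + 1) B ∧ Set.InjOn φ J ∧
          (∀ y ∈ J, ∀ x, B x y = M x (φ y)) ∧ (∀ z, ∃ u, B.mulVec u = fun x => M x z) ∧
          min (s + 1) (Fintype.card α) ≤ J.card := by
      intro y z u hy hz hu hspan
      refine ⟨B.updateCol y (B.mulVec u), insert y J, Function.update φ y z,
        ⟨B, (1 : Matrix α α K).updateCol y u, y, h1, fun a b h => ?_,
          (mul_updateCol_one B y u).symm⟩, ?_, ?_, hspan, ?_⟩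
      · by_cases hb : b = y
        · exact Or.inl hb
        · rw [Matrix.updateCol_ne hb] at h
          right
          by_contra h'
          exact h (Matrix.one_apply_ne (Ne.symm h'))
      · intro a ha b hb hab
        have hne : ∀ c ∈ J, Function.update φ y z c = φ c := fun c hc =>
          Function.update_of_ne (fun h : c = y => hy (h ▸ hc)) _ _
        rcases Finset.mem_insert.1 (Finset.mem_coe.1 ha) with rfl | ha'
        · rcases Finset.mem_insert.1 (Finset.mem_coe.1 hb) with rfl | hb'
          · rfl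
          · rw [Function.update_self, hne b hb'] at hab
            exact absurd (Finset.mem_image.2 ⟨b, hb', hab.symm⟩) hz
        · rcases Finset.mem_insert.1 (Finset.mem_coe.1 hb) with rfl | hb'
          · rw [Function.update_self, hne a ha'] at hab
            exact absurd (Finset.mem_image.2 ⟨a, ha', hab⟩) hz
          · rw [hne a ha', hne b hb'] at hab
            exact h2 ha' hb' hab
      · intro a ha x
        rcases Finset.mem_insert.1 ha with rfl | ha'
        · rw [Matrix.updateCol_self, Function.update_self, hu]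
        · have : a ≠ y := fun h => hy (h ▸ ha')
          rw [Matrix.updateCol_ne this, Function.update_of_ne this, h3 a ha']
      · rw [Finset.card_insert_of_notMem hy]; omega
    by_cases hc : ∃ (y z : α) (u : α → K), y ∉ J ∧ z ∉ J.image φ ∧
        (B.mulVec u = fun x => M x z) ∧ u y ≠ 0
    · obtain ⟨y, z, u, hy, hz, hu, h0⟩ := hc
      refine key y z u hy hz hu fun w => ?_
      obtain ⟨v, hv⟩ := h4 w
      have hdet : IsUnit ((1 : Matrix α α K).updateCol y u).det := by
        rw [← Matrix.cramer_apply, Matrix.cramer_one]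
        exact Ne.isUnit h0
      refine ⟨((1 : Matrix α α K).updateCol y u)⁻¹.mulVec v, ?_⟩
      rw [← mul_updateCol_one, Matrix.mulVec_mulVec, Matrix.mul_assoc,
        Matrix.mul_nonsing_inv _ hdet, Matrix.mul_one, hv]
    · obtain ⟨y, hy⟩ : ∃ y, y ∉ J := by
        by_contra h
        exact hJ (Finset.eq_univ_iff_forall.2 fun y => by_contra fun h' => h ⟨y, h'⟩)
      obtain ⟨z, hz⟩ : ∃ z, z ∉ J.image φ := by
        by_contra h
        have h6 : J.image φ = Finset.univ :=
          Finset.eq_univ_iff_forall.2 fun y => by_contra fun h' => h ⟨y, h'⟩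
        have h7 := Finset.card_image_le (s := J) (f := φ)
        rw [h6, Finset.card_univ] at h7
        omega
      obtain ⟨u, hu⟩ := h4 z
      refine key y z u hy hz hu fun w => ?_
      have h6 : ∃ v, (B.mulVec v = fun x => M x w) ∧ v y = 0 := by
        by_cases hw : w ∈ J.image φ
        · obtain ⟨a, ha, rfl⟩ := Finset.mem_image.1 hw
          refine ⟨Pi.single a 1, ?_, Pi.single_eq_of_ne (fun h : y = a => hy (h ▸ ha)) _⟩
          funext x
          rw [Matrix.mulVec_single_one]
          exact h3 a ha x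
        · obtain ⟨v, hv⟩ := h4 w
          exact ⟨v, hv, by_contra fun h => hc ⟨y, w, v, hy, hw, hv, h⟩⟩
      obtain ⟨v, hv, hv0⟩ := h6
      refine ⟨v, ?_⟩
      rw [← hv]
      funext x
      simp only [Matrix.mulVec, dotProduct]
      refine Finset.sum_congr rfl fun b _ => ?_
      by_cases hb : b = y
      · rw [hb, hv0, mul_zero, mul_zero]
      · rw [Matrix.updateCol_ne hb]

theorem exists_chain {α : Type*} [Fintype α] [DecidableEq α] [Nonempty α] (M : Matrix α α K)
    (D : ℕ) (hD : Fintype.card α ≤ D) :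
    ∃ (B : Matrix α α K) (ψ : α → α), Chain D B ∧ Function.Injective ψ ∧
      ∀ x y, M x y = B x (ψ y) := by
  obtain ⟨B, J, φ, h1, h2, h3, -, h5⟩ := chain_step M D
  have hJ : J = Finset.univ := by
    rw [min_eq_right hD] at h5
    exact Finset.eq_univ_of_card J (le_antisymm (Finset.card_le_univ _) h5)
  subst hJ
  have hφ : Function.Injective φ := by simpa using h2
  let e := Equiv.ofBijective φ (Finite.injective_iff_bijective.1 hφ)
  refine ⟨B, e.symm, h1, e.symm.injective, fun x y => ?_⟩
  rw [h3 _ (Finset.mem_univ _)]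
  exact congrArg (M x) (e.apply_symm_apply y).symm

theorem NR_chain {ι : Type*} [Fintype ι] [DecidableEq ι] {α : ι → Type*} [∀ i, Fintype (α i)]
    [∀ i, DecidableEq (α i)] [∀ i, Nonempty (α i)] (β η : ℝ) (hβ : 0 ≤ β) (hη0 : 0 ≤ η)
    (hη : η ≤ 1 / 2) (s : ℕ) (B : ∀ i, Matrix (α i) (α i) K) (hB : ∀ i, Chain s (B i)) :
    NR (kron B) (s * (2 * (Fintype.card (∀ i, α i) * exp (-(η ^ 2 * Fintype.card ι)))))
      (exp (s * ((4 * β * η + exp (-β)) * Fintype.card ι))) := by
  induction s generalizing B with
  | zero =>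
    have : B = fun i => 1 := funext hB
    rw [this, kron_one]
    simpa using NR.one
  | succ s ih =>
    choose B' g c h1 h2 h3 using hB
    have h4 : B = fun i => B' i * g i := funext h3
    have h5 := NR_block g (fun i => {c i}) (fun i x y h => by simpa using h2 i x y h) 1 1 β η le_rfl
      (fun i => by simp) (fun i => by
        have : (1 : ℝ) ≤ Fintype.card (α i) := by exact_mod_cast Fintype.card_pos
        simpa using this) hβ hη0 hη
    rw [h4, kron_mul]
    refine ((ih B' h1).mul h5 (exp_pos _).le).mono (le_of_eq ?_) (le_of_eq ?_)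
    · push_cast; ring_nf
    · rw [← Real.exp_add, Real.log_one]; congr 1; push_cast; ring

theorem NR_free {ι : Type*} [Fintype ι] [DecidableEq ι] {α : ι → Type*} [∀ i, Fintype (α i)]
    [∀ i, DecidableEq (α i)] (ε : ℝ) (hε : 0 < ε) (hε1 : ε ≤ 1) (D : ℕ) (hD : 1 ≤ D)
    (hα : ∀ i, 2 ≤ Fintype.card (α i) ∧ Fintype.card (α i) ≤ D)
    (M : ∀ i, Matrix (α i) (α i) K) (a : ℝ) (ha : a = Fintype.card (∀ i, α i)) :
    NR (kron M) (2 * D * (a * exp (-(ε ^ 4 / (4096 * D ^ 5) * log a)))) (exp (ε * log a)) := by
  have : ∀ i, Nonempty (α i) := fun i => Fintype.card_pos_iff.1 (by have := (hα i).1; omega)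
  have hD1 : (1 : ℝ) ≤ D := by exact_mod_cast hD
  have hD' : (0 : ℝ) < D := by linarith
  choose B ψ h1 h2 h3 using fun i => exists_chain (M i) D (hα i).2
  set β : ℝ := 4 * D / ε with hβ
  have hβ0 : 0 < β := by positivity
  set η : ℝ := ε ^ 2 / (64 * D ^ 2) with hη
  have hη0 : 0 < η := by positivity
  have hη1 : η ≤ 1 / 2 := by
    rw [hη, div_le_iff₀ (by positivity)]
    nlinarith
  have h4 := (NR_chain β η hβ0.le hη0.le hη1 D B h1).submatrix id (fun y i => ψ i (y i))
    (fun y y' h => funext fun i => h2 i (congrFun h i))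
  have h5 : (kron B).submatrix id (fun y i => ψ i (y i)) = kron M := by
    ext x y
    simp only [kron, Matrix.submatrix_apply, Matrix.of_apply, id, h3]
  rw [h5, ← ha] at h4
  have ha' : a = ∏ i, (Fintype.card (α i) : ℝ) := by rw [ha, Fintype.card_pi]; simp
  have hlog : log a = ∑ i, log (Fintype.card (α i)) := by
    rw [ha']
    exact Real.log_prod fun i _ => by
      have := (hα i).1
      exact_mod_cast (by omega : Fintype.card (α i) ≠ 0)
  have hup : log a ≤ D * Fintype.card ι := by
    rw [hlog]
    calc ∑ i, log (Fintype.card (α i)) ≤ ∑ _i : ι, (D : ℝ) := Finset.sum_le_sum fun i _ => by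
          have h2 : (Fintype.card (α i) : ℝ) ≤ D := by exact_mod_cast (hα i).2
          exact (Real.log_le_self (Nat.cast_nonneg _)).trans h2
      _ = _ := by simp [mul_comm]
  have hlow : (Fintype.card ι : ℝ) ≤ 2 * log a := by
    rw [hlog, Finset.mul_sum]
    calc (Fintype.card ι : ℝ) = ∑ _i : ι, (1 : ℝ) := by simp
      _ ≤ _ := Finset.sum_le_sum fun i _ => by
          have h2 : (2 : ℝ) ≤ Fintype.card (α i) := by exact_mod_cast (hα i).1
          have h3 := Real.log_le_log (by norm_num) h2
          have := Real.log_two_gt_d9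
          linarith
  have ha0 : 0 ≤ a := by rw [ha]; positivity
  refine h4.mono ?_ (Real.exp_le_exp.2 ?_)
  · have h6 : ε ^ 4 / (4096 * D ^ 5) * log a ≤ η ^ 2 * Fintype.card ι := by
      calc _ ≤ ε ^ 4 / (4096 * D ^ 5) * (D * Fintype.card ι) :=
            mul_le_mul_of_nonneg_left hup (by positivity)
        _ = _ := by rw [hη]; field_simp; ring
    calc _ = 2 * D * (a * exp (-(η ^ 2 * Fintype.card ι))) := by ring
      _ ≤ _ := by gcongr
  · have h6 : exp (-β) ≤ ε / (4 * D) := by
      rw [Real.exp_neg, inv_le_comm₀ (exp_pos _) (by positivity), inv_div]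
      linarith [Real.add_one_le_exp β]
    have h7 : D * (4 * β * η + exp (-β)) ≤ ε / 2 := by
      have h8 : D * (4 * β * η + ε / (4 * D)) = ε / 2 := by rw [hβ, hη]; field_simp; ring
      rw [← h8]
      gcongr
    have h8 : (0 : ℝ) ≤ Fintype.card ι := Nat.cast_nonneg _
    calc _ = D * (4 * β * η + exp (-β)) * Fintype.card ι := by ring
      _ ≤ ε / 2 * Fintype.card ι := mul_le_mul_of_nonneg_right h7 h8
      _ ≤ ε / 2 * (2 * log a) := mul_le_mul_of_nonneg_left hlow (by positivity)
      _ = _ := by ring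

end Pool.Agent.P.MP_dad03b_lc
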