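import Pool.Agent.P.MP_dad03b_lc.Main
import Pool.Agent.P.MP_dad03b_lc.KStep
import Pool.Agent.P.MP_dad03b_lc.KBig

namespace Pool.Agent.P.MP_dad03b_lc

open Finset Real

/-- The Paley-Hadamard matrix of a finite field. -/
def paley (F : Type) [Field F] [Fintype F] [DecidableEq F] : Matrix (Unit ⊕ F) (Unit ⊕ F) ℚ :=
  1 + Matrix.fromBlocks 0 (Matrix.of fun _ _ => 1) (Matrix.of fun _ _ => -1)
    (Matrix.of fun x y => (quadraticChar F (x - y) : ℚ))

theorem NR_paley_of (F : Type) [Field F] [Fintype F] [DecidableEq F] {r s : ℝ} (hs : 0 ≤ s)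
    (h : NR (Matrix.of fun x y : F => (quadraticChar F (x - y) : ℚ)) r s) :
    NR (paley F) (2 + r) (1 + s) := by
  set Q : Matrix F F ℚ := Matrix.of fun x y => (quadraticChar F (x - y) : ℚ) with hQ
  have h1 := NR.of_pattern (Matrix.fromBlocks 0 (Matrix.of fun _ _ => 1) (Matrix.of fun _ _ => -1) 0 :
    Matrix (Unit ⊕ F) (Unit ⊕ F) ℚ) {Sum.inl ()} {Sum.inl ()} (fun _ => ∅) 0 le_rfl (by simp) (by
      rintro (x | x) (y | y) hx hy h0
      · simp at hx
      · simp at hx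
      · simp at hy
      · simp at h0)
  have h2 : NR (Matrix.fromRows (0 : Matrix Unit F ℚ) (1 : Matrix F F ℚ)) 0 1 := by
    refine ⟨_, Sum.elim (fun _ => ∅) fun a => {a}, by rw [sub_self]; simp, ?_, ?_⟩
    · rintro (x | x) <;> simp
    · rintro (x | x) y h0
      · simp at h0
      · by_contra h'
        have : x ≠ y := fun h => h' (by simp [h])
        exact h0 (by simp [Matrix.one_apply_ne this])
  have h3 : NR (Matrix.fromCols (0 : Matrix F Unit ℚ) (1 : Matrix F F ℚ)) 0 1 := by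
    refine ⟨_, fun a => {Sum.inr a}, by rw [sub_self]; simp, by simp, ?_⟩
    rintro x (y | y) h0
    · simp at h0
    · by_contra h'
      have : x ≠ y := fun h => h' (by simp [h])
      exact h0 (by simp [Matrix.one_apply_ne this])
  have h4 := (NR.one (K := ℚ) (α := Unit ⊕ F)).add (h1.add ((h2.mul h hs).mul h3 zero_le_one))
  rw [Matrix.fromRows_mul, Matrix.fromRows_mul_fromCols, Matrix.fromBlocks_add] at h4
  refine NR.mono ?_ (le_of_eq (show (0 : ℝ) + ((1 : ℕ) + (1 : ℕ) + (0 + r + 0)) = _ by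
    push_cast; ring)) (le_of_eq (show (1 : ℝ) + (0 + 1 * s * 1) = _ by ring))
  have h5 : paley F = 1 + Matrix.fromBlocks 0 (Matrix.of fun _ _ => 1) (Matrix.of fun _ _ => -1) Q :=
    rfl
  rw [h5]
  simpa using h4

theorem NR_paley (ε : ℝ) (hε : 0 < ε) : ∃ γ X : ℝ, 0 < γ ∧
    ∀ (F : Type) [Field F] [Fintype F] [DecidableEq F] (m : ℝ), m = Fintype.card (Unit ⊕ F) →
      X ≤ log m → NR (paley F) (m * exp (-(γ * log m))) (exp (ε * log m)) ∧
        log 2 ≤ min (γ * ε / 2) ε * log m := by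
  obtain ⟨γ₀, C, hγ₀, hC, H⟩ := NR_field (ε / 2) (by positivity)
  set γ₁ : ℝ := min γ₀ 1 with hγ₁
  have hγ₁0 : 0 < γ₁ := lt_min hγ₀ one_pos
  have hμ : 0 < min (γ₁ / 2 * ε / 2) ε := lt_min (by positivity) hε
  refine ⟨γ₁ / 2, max (max (2 * (C + 2) / γ₁) (2 / ε)) (log 2 / min (γ₁ / 2 * ε / 2) ε),
    by positivity, ?_⟩
  intro F _ _ _ m hm hX
  have hX1 : 2 * (C + 2) / γ₁ ≤ log m := (le_max_left _ _).trans ((le_max_left _ _).trans hX)
  have hX2 : 2 / ε ≤ log m := (le_max_right _ _).trans ((le_max_left _ _).trans hX)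
  have hX3 : log 2 / min (γ₁ / 2 * ε / 2) ε ≤ log m := (le_max_right _ _).trans hX
  rw [div_le_iff₀ hγ₁0] at hX1
  rw [div_le_iff₀ hε] at hX2
  rw [div_le_iff₀ hμ, mul_comm] at hX3
  refine ⟨?_, hX3⟩
  set q : ℝ := (Fintype.card F : ℝ) with hq
  have hq1 : 1 ≤ q := by rw [hq]; exact_mod_cast Fintype.card_pos
  have hmq : m = 1 + q := by rw [hm, hq]; simp
  have hlq : 0 ≤ log q := Real.log_nonneg hq1
  have hlm : log q ≤ log m := Real.log_le_log (by linarith) (by linarith)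
  have h1 : γ₁ ≤ γ₀ := min_le_left _ _
  have h2 : γ₁ ≤ 1 := min_le_right _ _
  refine (NR_paley_of F (exp_pos _).le (H F fun z => (quadraticChar F z : ℚ))).mono ?_ ?_
  · rw [← hq]
    have h3 : q * exp (-(γ₀ * log q)) ≤ exp ((1 - γ₁) * log m) := by
      nth_rewrite 1 [← Real.exp_log (show 0 < q by linarith)]
      rw [← Real.exp_add, Real.exp_le_exp]
      nlinarith [mul_le_mul_of_nonneg_left hlm (sub_nonneg.2 h2),
        mul_le_mul_of_nonneg_right h1 hlq]
    have h4 : 1 ≤ exp ((1 - γ₁) * log m) :=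
      Real.one_le_exp (mul_nonneg (sub_nonneg.2 h2) (hlq.trans hlm))
    have h5 : C + 2 ≤ exp (γ₁ / 2 * log m) := by
      linarith [Real.add_one_le_exp (γ₁ / 2 * log m)]
    calc _ ≤ (C + 2) * exp ((1 - γ₁) * log m) := by nlinarith
      _ ≤ exp (γ₁ / 2 * log m) * exp ((1 - γ₁) * log m) := by gcongr
      _ = exp (log m) * exp (-(γ₁ / 2 * log m)) := by
          rw [← Real.exp_add, ← Real.exp_add]; congr 1; ring
      _ = _ := by rw [Real.exp_log (by linarith)]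
  · rw [← hq]
    have h3 : exp (ε / 2 * log q) ≤ exp (ε / 2 * log m) := by gcongr
    have h4 : 2 ≤ exp (ε / 2 * log m) := by linarith [Real.add_one_le_exp (ε / 2 * log m)]
    have h5 : exp (ε * log m) = exp (ε / 2 * log m) * exp (ε / 2 * log m) := by
      rw [← Real.exp_add]; congr 1; ring
    rw [h5]
    nlinarith

theorem NR_family (ε : ℝ) (hε : 0 < ε) (hε1 : ε ≤ 1) : ∃ c Λ : ℝ, 0 < c ∧ 1 < Λ ∧
    (∀ l, Λ ≤ l → 6 * l ≤ exp (c * l)) ∧
    ∀ (ι : Type) [Fintype ι] [DecidableEq ι] (α : ι → Type) [∀ i, Fintype (α i)]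
      [∀ i, DecidableEq (α i)] (M : ∀ i, Matrix (α i) (α i) ℚ) (n l : ℝ),
      n = Fintype.card (∀ i, α i) → l ^ 6 = log n → Λ ≤ l → (∀ i, 2 ≤ Fintype.card (α i)) →
      (∀ i, (Fintype.card (α i) : ℝ) ^ 6 ≤ log n ∨ ∃ (F : Type) (_ : Field F) (_ : Fintype F)
        (_ : DecidableEq F) (e : α i ≃ Unit ⊕ F), M i = (paley F).submatrix e e) →
      NR (kron M) (n * exp (-(c * l))) (exp (4 * ε * log n)) := by
  classical
  obtain ⟨γ, X, hγ, H⟩ := NR_paley ε hε
  set c : ℝ := min (ε ^ 5 / 4096) (γ * ε / 2 * ε) / 2 with hc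
  have hc0 : 0 < c := half_pos (lt_min (by positivity) (by positivity))
  have hc1 : 2 * c ≤ ε ^ 5 / 4096 := by rw [hc]; linarith [min_le_left (ε ^ 5 / 4096) (γ * ε / 2 * ε)]
  have hc2 : 2 * c ≤ γ * ε / 2 * ε := by
    rw [hc]; linarith [min_le_right (ε ^ 5 / 4096) (γ * ε / 2 * ε)]
  have hΛ : ∀ l, max (max 2 (exp X)) (12 / c ^ 2) ≤ l → 6 * l ≤ exp (c * l) := by
    intro l hl
    have h1 : 2 ≤ l := (le_max_left _ _).trans ((le_max_left _ _).trans hl)
    have h2 : 12 / c ^ 2 ≤ l := (le_max_right _ _).trans hl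
    rw [div_le_iff₀ (by positivity)] at h2
    have h3 := Real.pow_div_factorial_le_exp (c * l) (by positivity) 2
    simp only [Nat.factorial_two, Nat.cast_ofNat] at h3
    nlinarith
  refine ⟨c, max (max 2 (exp X)) (12 / c ^ 2), hc0,
    lt_max_of_lt_left (lt_max_of_lt_left one_lt_two), hΛ, ?_⟩
  intro ι _ _ α _ _ M n l hn hl hΛl h2 hM
  have hl2 : 2 ≤ l := (le_max_left _ _).trans ((le_max_left _ _).trans hΛl)
  have hlX : exp X ≤ l := (le_max_right _ _).trans ((le_max_left _ _).trans hΛl)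
  have hl0 : 0 < l := by linarith
  have : ∀ i, Nonempty (α i) := fun i => Fintype.card_pos_iff.1 (by have := h2 i; omega)
  let p : ι → Prop := fun i => (Fintype.card (α i) : ℝ) ^ 6 ≤ log n
  set a : ℝ := (Fintype.card (∀ i : {i // p i}, α i) : ℝ) with ha
  set b : ℝ := (Fintype.card (∀ i : {i // ¬ p i}, α i) : ℝ) with hb
  have hab : n = a * b := by
    rw [hn, Fintype.card_congr (Equiv.piEquivPiSubtypeProd p α), Fintype.card_prod, Nat.cast_mul]
  have ha1 : 1 ≤ a := by rw [ha]; exact_mod_cast Fintype.card_pos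
  have hb1 : 1 ≤ b := by rw [hb]; exact_mod_cast Fintype.card_pos
  set D : ℕ := ⌊l⌋₊ with hD
  have hD1 : 1 ≤ D := Nat.le_floor (by push_cast; linarith)
  have hDl : (D : ℝ) ≤ l := Nat.floor_le hl0.le
  have hD0 : (0 : ℝ) < D := by exact_mod_cast hD1
  have hA := (NR_free (α := fun i : {i // p i} => α i) ε hε hε1 D hD1 (fun i => ⟨h2 i, Nat.le_floor (by
    have h3 : (Fintype.card (α i) : ℝ) ^ 6 ≤ l ^ 6 := hl ▸ i.2
    exact le_of_pow_le_pow_left₀ (by norm_num) hl0.le h3)⟩) (fun i => M i) a ha).lift (n := n) ha ha1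
    (by nlinarith) (by positivity) (by positivity) hε.le le_rfl
  have hB0 : ∀ i : {i // ¬ p i}, NR (M i)
      (Fintype.card (α i) * exp (-(γ * log (Fintype.card (α i)))))
      (exp (ε * log (Fintype.card (α i)))) ∧
      log 2 ≤ min (γ * ε / 2) ε * log (Fintype.card (α i)) := by
    intro i
    obtain ⟨F, _, _, _, e, he⟩ := (hM i).resolve_left i.2
    have h3 : l ^ 6 < (Fintype.card (α i) : ℝ) ^ 6 := hl ▸ not_le.1 i.2
    have h4 : l < Fintype.card (α i) := lt_of_pow_lt_pow_left₀ 6 (Nat.cast_nonneg _) h3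
    obtain ⟨h5, h6⟩ := H F (Fintype.card (α i)) (by rw [Fintype.card_congr e])
      ((Real.le_log_iff_exp_le (by linarith)).2 (by linarith))
    exact ⟨he ▸ h5.submatrix e e e.injective, h6⟩
  have hB1 := NR_big (α := fun i : {i // ¬ p i} => α i) γ ε hγ hε (fun i => M i)
    (fun i => (hB0 i).1) (fun i => (hB0 i).2) b hb
  rw [← one_mul (b * _)] at hB1
  have hB := hB1.lift (n := n) (ε := ε) hb hb1 (by nlinarith) zero_le_one (by positivity) hε.le
    (by linarith)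
  have h3 := NR_split p M hA hB (by positivity) (exp_pos _).le (by positivity) (exp_pos _).le
  rw [← ha, ← hb] at h3
  refine h3.mono ?_ (le_of_eq ?_)
  · have h4 : 2 * c * l ≤ ε ^ 4 / (4096 * D ^ 5) * ε * log n := by
      rw [← hl]
      calc 2 * c * l ≤ ε ^ 5 / 4096 * l := mul_le_mul_of_nonneg_right hc1 hl0.le
        _ = ε ^ 4 / (4096 * l ^ 5) * ε * l ^ 6 := by field_simp
        _ ≤ _ := by gcongr
    have h5 : 2 * c * l ≤ γ * ε / 2 * ε * log n := by
      rw [← hl]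
      have : l ≤ l ^ 6 := le_self_pow₀ (by linarith) (by norm_num)
      gcongr
    have h6 := hΛ l hΛl
    have h7 : exp (-(ε ^ 4 / (4096 * D ^ 5) * ε * log n)) ≤ exp (-(2 * c * l)) := by gcongr
    have h8 : exp (-(γ * ε / 2 * ε * log n)) ≤ exp (-(2 * c * l)) := by gcongr
    have hn0 : 0 < n := by rw [hab]; positivity
    calc _ = n * (2 * D * exp (-(ε ^ 4 / (4096 * D ^ 5) * ε * log n)) +
          exp (-(γ * ε / 2 * ε * log n))) := by rw [hab]; ring
      _ ≤ n * (2 * l * exp (-(2 * c * l)) + exp (-(2 * c * l))) := by gcongr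
      _ = n * ((2 * l + 1) * exp (-(2 * c * l))) := by ring
      _ ≤ n * (exp (c * l) * exp (-(2 * c * l))) := by gcongr; linarith
      _ = _ := by rw [← Real.exp_add]; congr 2; ring
  · rw [← Real.exp_add]; congr 1; ring

theorem kron_main (ε : ℝ) (hε : 0 < ε) : ∃ c : ℝ, 0 < c ∧ ∃ n₀ : ℕ,
    ∀ (k : ℕ) (m : Fin k → ℕ) (M : ∀ i, Matrix (Fin (m i)) (Fin (m i)) ℚ) (n : ℝ),
    n = ∏ i, (m i : ℝ) → (n₀ : ℝ) ≤ n →
    (∀ i, (m i : ℝ) ^ 6 ≤ log n ∨ ∃ (F : Type) (_ : Field F) (_ : Fintype F)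
      (_ : DecidableEq F) (e : Fin (m i) ≃ Unit ⊕ F), M i = (paley F).submatrix e e) →
    ∃ Z : Matrix (∀ i, Fin (m i)) (∀ i, Fin (m i)) ℚ,
      ((kron M - Z).rank : ℝ) ≤ min (n * exp (-(c * log n ^ (1 / 6 : ℝ)))) (n / log (log n)) ∧
      ((Finset.univ.filter fun p : (∀ i, Fin (m i)) × (∀ i, Fin (m i)) => Z p.1 p.2 ≠ 0).card : ℝ) <
        n ^ (1 + ε) := by
  classical
  have hδ : 0 < min ε 1 / 5 := by have := lt_min hε one_pos; positivity
  obtain ⟨c, Λ, hc, hΛ, hΛ', H⟩ := NR_family (min ε 1 / 5) hδ (by linarith [min_le_right ε 1])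
  refine ⟨c, hc, ⌈exp (Λ ^ 6)⌉₊, ?_⟩
  intro k m M n hn hn₀ hM
  have h1 : exp (Λ ^ 6) ≤ n := (Nat.le_ceil _).trans hn₀
  have hn0 : 0 < n := (exp_pos _).trans_le h1
  have h2 : Λ ^ 6 ≤ log n := (Real.le_log_iff_exp_le hn0).2 h1
  have hL : 0 < log n := lt_of_lt_of_le (by positivity) h2
  set l : ℝ := log n ^ (1 / 6 : ℝ) with hl
  have hl0 : 0 ≤ l := Real.rpow_nonneg hL.le _
  have hl6 : l ^ 6 = log n := by
    rw [hl, ← Real.rpow_natCast, ← Real.rpow_mul hL.le]; norm_num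
  have hΛl : Λ ≤ l := le_of_pow_le_pow_left₀ (by norm_num) hl0 (hl6 ▸ h2)
  have hm : ∀ i, m i ≠ 0 := fun i h => by
    rw [hn, Finset.prod_eq_zero (Finset.mem_univ i) (by simp [h])] at hn0
    exact lt_irrefl _ hn0
  let p : Fin k → Prop := fun i => m i = 1
  have hc1 : (Fintype.card (∀ i : {i // p i}, Fin (m i)) : ℝ) = 1 := by
    rw [Fintype.card_pi, Finset.prod_eq_one fun i _ => by rw [Fintype.card_fin]; exact i.2]
    simp
  have hc2 : n = Fintype.card (∀ i, Fin (m i)) := by rw [hn, Fintype.card_pi]; simp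
  have hc3 : n = Fintype.card (∀ i : {i // ¬ p i}, Fin (m i)) := by
    rw [hc2, Fintype.card_congr (Equiv.piEquivPiSubtypeProd p fun i => Fin (m i)),
      Fintype.card_prod, Nat.cast_mul, hc1, one_mul]
  have h3 := H {i // ¬ p i} (fun i => Fin (m i)) (fun i => M i) n l hc3 hl6 hΛl
    (fun i => by
      have h4 := hm i
      have h5 : m i ≠ 1 := i.2
      rw [Fintype.card_fin]; omega)
    (fun i => by simpa only [Fintype.card_fin] using hM i)
  have h4 := NR_split p M (NR.dense _) h3 le_rfl (Nat.cast_nonneg _) (by positivity) (exp_pos _).le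
  rw [hc1, mul_zero, zero_add, one_mul, one_mul] at h4
  obtain ⟨S, T, h5, h6, h7⟩ := h4
  refine ⟨S, le_min h5 (h5.trans ?_), ?_⟩
  · have h8 : log (log n) ≤ exp (c * l) := by
      rw [← hl6, Real.log_pow]
      have := Real.log_le_self hl0
      have := hΛ' l hΛl
      push_cast
      linarith
    have h9 : 0 < log (log n) := Real.log_pos (lt_of_lt_of_le (one_lt_pow₀ hΛ (by norm_num)) h2)
    rw [Real.exp_neg, ← div_eq_mul_inv]
    exact div_le_div_of_nonneg_left hn0.le h9 h8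
  · have h8 : ((Finset.univ.filter fun p : (∀ i, Fin (m i)) × (∀ i, Fin (m i)) =>
        S p.1 p.2 ≠ 0).card : ℝ) ≤ ∑ x, ((T x).card : ℝ) := by exact_mod_cast nnz_le S T h7
    have h9 := Finset.sum_le_card_nsmul Finset.univ _ _ fun x _ => h6 x
    rw [nsmul_eq_mul, Finset.card_univ, ← hc2] at h9
    refine (h8.trans h9).trans_lt ?_
    rw [Real.rpow_add hn0, Real.rpow_one, Real.rpow_def_of_pos hn0]
    refine mul_lt_mul_of_pos_left (Real.exp_lt_exp.2 ?_) hn0
    nlinarith [min_le_left ε 1]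

end Pool.Agent.P.MP_dad03b_lc
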