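import Mathlib

namespace Pool.Agent.P.MP_dad03b_lc

open Finset Real

theorem mgf_le {α : Type*} [Fintype α] (w : α → ℝ) (h0 : ∀ a, 0 ≤ w a) (h1 : ∀ a, w a ≤ 1)
    (μ : ℝ) (hμ : ∑ a, w a = μ * Fintype.card α) (z : ℝ) (hz : |z| ≤ 1) :
    ∑ a, exp (z * w a) ≤ Fintype.card α * exp (z * μ + z ^ 2 * μ) := by
  have h2 : ∀ a, exp (z * w a) ≤ 1 + (z + z ^ 2) * w a := by
    intro a
    have h3 : |z * w a| ≤ 1 := by
      rw [abs_mul, abs_of_nonneg (h0 a)]
      exact mul_le_one₀ hz (h0 a) (h1 a)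
    have h4 := (abs_le.1 (Real.abs_exp_sub_one_sub_id_le h3)).2
    have h5 : (z * w a) ^ 2 ≤ z ^ 2 * w a := by
      rw [mul_pow]
      refine mul_le_mul_of_nonneg_left ?_ (sq_nonneg z)
      nlinarith [h0 a, h1 a]
    nlinarith
  calc ∑ a, exp (z * w a) ≤ ∑ a, (1 + (z + z ^ 2) * w a) := Finset.sum_le_sum fun a _ => h2 a
    _ = Fintype.card α * (1 + (z * μ + z ^ 2 * μ)) := by
        rw [Finset.sum_add_distrib, ← Finset.mul_sum, hμ]
        simp
        ring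
    _ ≤ _ := by
        refine mul_le_mul_of_nonneg_left ?_ (Nat.cast_nonneg _)
        linarith [Real.add_one_le_exp (z * μ + z ^ 2 * μ)]

theorem tail_le {ι : Type*} [Fintype ι] [DecidableEq ι] {α : ι → Type*} [∀ i, Fintype (α i)]
    (w : ∀ i, α i → ℝ) (h0 : ∀ i a, 0 ≤ w i a) (h1 : ∀ i a, w i a ≤ 1)
    (μ : ι → ℝ) (hμ : ∀ i, ∑ a, w i a = μ i * Fintype.card (α i)) (z : ℝ) (hz : |z| ≤ 1) (c : ℝ)
    (A : Finset (∀ i, α i)) (hA : ∀ x ∈ A, c ≤ z * ∑ i, w i (x i)) :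
    (A.card : ℝ) ≤ Fintype.card (∀ i, α i) * exp (z * ∑ i, μ i + z ^ 2 * ∑ i, μ i - c) := by
  have h2 : (A.card : ℝ) * exp c ≤ ∑ x : ∀ i, α i, ∏ i, exp (z * w i (x i)) := by
    calc (A.card : ℝ) * exp c = ∑ x ∈ A, exp c := by simp
      _ ≤ ∑ x ∈ A, ∏ i, exp (z * w i (x i)) := by
          refine Finset.sum_le_sum fun x hx => ?_
          rw [← Real.exp_sum, ← Finset.mul_sum]
          exact Real.exp_le_exp.2 (hA x hx)
      _ ≤ _ := Finset.sum_le_sum_of_subset_of_nonneg (Finset.subset_univ _)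
          fun x _ _ => Finset.prod_nonneg fun i _ => (exp_pos _).le
  have h3 : ∑ x : ∀ i, α i, ∏ i, exp (z * w i (x i)) = ∏ i, ∑ a, exp (z * w i a) := by
    rw [Finset.prod_univ_sum, Fintype.piFinset_univ]
  have h4 : ∏ i, ∑ a, exp (z * w i a) ≤
      ∏ i, (Fintype.card (α i) * exp (z * μ i + z ^ 2 * μ i)) :=
    Finset.prod_le_prod (fun i _ => Finset.sum_nonneg fun a _ => (exp_pos _).le)
      fun i _ => mgf_le (w i) (h0 i) (h1 i) (μ i) (hμ i) z hz
  have h5 : ∏ i, ((Fintype.card (α i) : ℝ) * exp (z * μ i + z ^ 2 * μ i)) =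
      Fintype.card (∀ i, α i) * exp (z * ∑ i, μ i + z ^ 2 * ∑ i, μ i) := by
    rw [Finset.prod_mul_distrib, ← Real.exp_sum, Fintype.card_pi, Finset.sum_add_distrib,
      ← Finset.mul_sum, ← Finset.mul_sum]
    push_cast
    rfl
  rw [Real.exp_sub, ← mul_div_assoc, le_div_iff₀ (exp_pos c)]
  linarith

theorem pattern {ι : Type*} [Fintype ι] [DecidableEq ι] {α : ι → Type*} [∀ i, Fintype (α i)]
    [∀ i, Nonempty (α i)]
    (w : ∀ i, α i → ℝ) (h0 : ∀ i a, 0 ≤ w i a) (h1 : ∀ i a, w i a ≤ 1)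
    (ρ : ℝ) (hρ : ∀ i, ∑ a, w i a ≤ ρ * Fintype.card (α i))
    (R : ∀ i, α i → Finset (α i)) (hR : ∀ i x y, y ∈ R i x → w i x ≤ w i y)
    (β lam ν η : ℝ) (hβ : 0 ≤ β) (hlam : 0 ≤ lam) (hη0 : 0 ≤ η) (hη : η ≤ 1 / 2)
    (hsum : ∀ i x, ∑ y ∈ R i x, exp (-β * (w i y - w i x)) ≤ exp (lam * w i x + ν)) :
    ∃ (A B : Finset (∀ i, α i)) (T : (∀ i, α i) → Finset (∀ i, α i)),
      (A.card : ℝ) ≤ Fintype.card (∀ i, α i) * exp (-(η ^ 2 * ρ * Fintype.card ι)) ∧
      (B.card : ℝ) ≤ Fintype.card (∀ i, α i) * exp (-(η ^ 2 * ρ * Fintype.card ι)) ∧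
      (∀ x, x ∉ A → ((T x).card : ℝ) ≤
        exp ((4 * β * η * ρ + 2 * lam * ρ + ν) * Fintype.card ι)) ∧
      ∀ x y, y ∉ B → (∀ i, y i ∈ R i (x i)) → y ∈ T x := by
  classical
  set k : ℝ := (Fintype.card ι : ℝ) with hk
  have hpos : ∀ i, (0 : ℝ) < Fintype.card (α i) := fun i => by exact_mod_cast Fintype.card_pos
  set μ : ι → ℝ := fun i => (∑ a, w i a) / Fintype.card (α i) with hμdef
  have hμ : ∀ i, ∑ a, w i a = μ i * Fintype.card (α i) := fun i => by
    simp only [hμdef]; rw [div_mul_cancel₀ _ (hpos i).ne']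
  have hμρ : ∀ i, μ i ≤ ρ := fun i => by
    simp only [hμdef]; rw [div_le_iff₀ (hpos i)]; exact hρ i
  have hμ0 : ∀ i, 0 ≤ μ i := fun i =>
    div_nonneg (Finset.sum_nonneg fun a _ => h0 i a) (hpos i).le
  set M : ℝ := ∑ i, μ i with hM
  have hM0 : 0 ≤ M := Finset.sum_nonneg fun i _ => hμ0 i
  have hMρ : M ≤ ρ * k := by
    calc M ≤ ∑ _i : ι, ρ := Finset.sum_le_sum fun i _ => hμρ i
      _ = ρ * k := by simp [hk, mul_comm]
  set Δ : ℝ := 2 * η * (ρ * k) with hΔ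
  have hη1 : |η| ≤ 1 := by rw [abs_of_nonneg hη0]; linarith
  let W : (∀ i, α i) → ℝ := fun x => ∑ i, w i (x i)
  let A : Finset (∀ i, α i) := Finset.univ.filter fun x => W x < M - Δ
  let B : Finset (∀ i, α i) := Finset.univ.filter fun x => M + Δ < W x
  refine ⟨A, B, fun x => (Fintype.piFinset fun i => R i (x i)).filter fun y => y ∉ B,
    ?_, ?_, ?_, ?_⟩
  · refine (tail_le w h0 h1 μ hμ (-η) (by rwa [abs_neg]) (-η * (M - Δ)) A ?_).trans ?_
    · intro x hx
      have : W x < M - Δ := by simpa [A] using hx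
      simp only [W] at this
      nlinarith
    · refine mul_le_mul_of_nonneg_left (Real.exp_le_exp.2 ?_) (Nat.cast_nonneg _)
      rw [← hM, hΔ]
      nlinarith [mul_le_mul_of_nonneg_left hMρ (sq_nonneg η)]
  · refine (tail_le w h0 h1 μ hμ η hη1 (η * (M + Δ)) B ?_).trans ?_
    · intro x hx
      have : M + Δ < W x := by simpa [B] using hx
      simp only [W] at this
      nlinarith
    · refine mul_le_mul_of_nonneg_left (Real.exp_le_exp.2 ?_) (Nat.cast_nonneg _)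
      rw [← hM, hΔ]
      nlinarith [mul_le_mul_of_nonneg_left hMρ (sq_nonneg η)]
  · intro x hx
    have hx' : M - Δ ≤ W x := by simpa [A] using hx
    beta_reduce
    set Tx := (Fintype.piFinset fun i => R i (x i)).filter fun y => y ∉ B with hTx
    rcases Tx.eq_empty_or_nonempty with hT | ⟨y₀, hy₀⟩
    · rw [hT]; simpa using (exp_pos _).le
    have hmem : ∀ y ∈ Tx, W x ≤ W y ∧ W y ≤ M + Δ := by
      intro y hy
      rw [hTx, Finset.mem_filter, Fintype.mem_piFinset] at hy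
      exact ⟨Finset.sum_le_sum fun i _ => hR i _ _ (hy.1 i), by simpa [B] using hy.2⟩
    have hWx : W x ≤ 2 * (ρ * k) := by
      have := hmem y₀ hy₀
      have h2 : 0 ≤ ρ * k := hM0.trans hMρ
      nlinarith [this.1, this.2]
    have h2 : (Tx.card : ℝ) * exp (-β * (2 * Δ)) ≤
        ∑ y ∈ Fintype.piFinset fun i => R i (x i), ∏ i, exp (-β * (w i (y i) - w i (x i))) := by
      calc (Tx.card : ℝ) * exp (-β * (2 * Δ)) = ∑ y ∈ Tx, exp (-β * (2 * Δ)) := by simp
        _ ≤ ∑ y ∈ Tx, ∏ i, exp (-β * (w i (y i) - w i (x i))) := by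
            refine Finset.sum_le_sum fun y hy => ?_
            rw [← Real.exp_sum, ← Finset.mul_sum, Finset.sum_sub_distrib]
            refine Real.exp_le_exp.2 ?_
            have := (hmem y hy).2
            simp only [W] at this hx'
            nlinarith
        _ ≤ _ := Finset.sum_le_sum_of_subset_of_nonneg (Finset.filter_subset _ _)
            fun y _ _ => Finset.prod_nonneg fun i _ => (exp_pos _).le
    rw [← Finset.prod_univ_sum (fun i => R i (x i))
      (fun i y => exp (-β * (w i y - w i (x i))))] at h2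
    have h3 : ∏ i, ∑ y ∈ R i (x i), exp (-β * (w i y - w i (x i))) ≤
        ∏ i, exp (lam * w i (x i) + ν) :=
      Finset.prod_le_prod (fun i _ => Finset.sum_nonneg fun a _ => (exp_pos _).le)
        fun i _ => hsum i (x i)
    have h4 : ∏ i, exp (lam * w i (x i) + ν) = exp (lam * W x + ν * k) := by
      rw [← Real.exp_sum, Finset.sum_add_distrib, ← Finset.mul_sum]
      simp [W, hk, mul_comm]
    have h5 : (Tx.card : ℝ) ≤ exp (lam * W x + ν * k - -β * (2 * Δ)) := by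
      rw [Real.exp_sub, le_div_iff₀ (exp_pos _)]
      linarith
    refine h5.trans (Real.exp_le_exp.2 ?_)
    rw [hΔ]
    nlinarith [mul_le_mul_of_nonneg_left hWx hlam]
  · intro x y hy hR'
    rw [Finset.mem_filter, Fintype.mem_piFinset]
    exact ⟨hR', hy⟩

end Pool.Agent.P.MP_dad03b_lc
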