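import Pool.Agent.P.MP_dad03b_lc.Basic
import Pool.Agent.P.MP_dad03b_lc.Pattern

namespace Pool.Agent.P.MP_dad03b_lc

open Finset Real

variable {K : Type*} [Field K]

/-- Kronecker product of a finite family of square matrices. -/
def kron {ι : Type*} [Fintype ι] {α : ι → Type*} (M : ∀ i, Matrix (α i) (α i) K) :
    Matrix (∀ i, α i) (∀ i, α i) K :=
  Matrix.of fun x y => ∏ i, M i (x i) (y i)

section

variable {ι : Type*} [Fintype ι] [DecidableEq ι] {α : ι → Type*} [∀ i, Fintype (α i)]

theorem kron_mul (M N : ∀ i, Matrix (α i) (α i) K) :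
    kron (fun i => M i * N i) = kron M * kron N := by
  ext x y
  simp only [kron, Matrix.of_apply, Matrix.mul_apply]
  rw [Finset.prod_univ_sum, Fintype.piFinset_univ]
  refine Finset.sum_congr rfl fun z _ => ?_
  rw [Finset.prod_mul_distrib]

variable [∀ i, DecidableEq (α i)]

theorem kron_one : kron (fun i => (1 : Matrix (α i) (α i) K)) = 1 := by
  ext x y
  simp only [kron, Matrix.of_apply, Matrix.one_apply]
  rw [Finset.prod_boole]
  simp [funext_iff]

theorem NR_block [∀ i, Nonempty (α i)] (g : ∀ i, Matrix (α i) (α i) K) (C : ∀ i, Finset (α i))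
    (hg : ∀ i x y, g i x y ≠ 0 → y ∈ C i ∨ y = x) (t ρ β η : ℝ) (ht : 1 ≤ t)
    (hC : ∀ i, ((C i).card : ℝ) ≤ t) (hρ : ∀ i, ((C i).card : ℝ) ≤ ρ * Fintype.card (α i))
    (hβ : 0 ≤ β) (hη0 : 0 ≤ η) (hη : η ≤ 1 / 2) :
    NR (kron g) (2 * (Fintype.card (∀ i, α i) * exp (-(η ^ 2 * ρ * Fintype.card ι))))
      (exp ((4 * β * η * ρ + 2 * log t * ρ + t * exp (-β)) * Fintype.card ι)) := by
  obtain ⟨A, B, T, hA, hB, hT, hM⟩ := pattern (fun i a => if a ∈ C i then (1 : ℝ) else 0)
    (fun i a => by positivity) (fun i a => by split_ifs <;> norm_num) ρ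
    (fun i => by simpa using hρ i) (fun i x => insert x (C i))
    (fun i x y hy => by
      rcases Finset.mem_insert.1 hy with rfl | hy
      · exact le_rfl
      · simp only [hy, if_true]; split_ifs <;> norm_num)
    β (log t) (t * exp (-β)) η hβ (Real.log_nonneg ht) hη0 hη
    (fun i x => by
      have ht0 : 0 < t := by linarith
      by_cases hx : x ∈ C i
      · rw [Finset.insert_eq_of_mem hx]
        have : ∑ y ∈ C i, exp (-β * ((if y ∈ C i then (1 : ℝ) else 0) -
            (if x ∈ C i then (1 : ℝ) else 0))) = (C i).card := by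
          rw [Finset.sum_congr rfl (g := fun _ => (1 : ℝ))]
          · simp
          · intro y hy; simp [hx, hy]
        rw [this]
        simp only [hx, if_true, mul_one]
        rw [Real.exp_add, Real.exp_log ht0]
        have h2 : 1 ≤ exp (t * exp (-β)) := Real.one_le_exp (by positivity)
        nlinarith [hC i]
      · rw [Finset.sum_insert hx]
        have : ∑ y ∈ C i, exp (-β * ((if y ∈ C i then (1 : ℝ) else 0) -
            (if x ∈ C i then (1 : ℝ) else 0))) = (C i).card * exp (-β) := by
          rw [Finset.sum_congr rfl (g := fun _ => exp (-β))]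
          · simp
          · intro y hy; simp [hx, hy]
        rw [this]
        simp only [hx, if_false, mul_zero, sub_zero, Real.exp_zero, zero_add]
        have h2 := Real.add_one_le_exp (t * exp (-β))
        nlinarith [hC i, exp_pos (-β)])
  refine (NR.of_pattern (kron g) A B T _ (exp_pos _).le hT ?_).mono (by linarith) le_rfl
  intro x y _ hy hxy
  refine hM x y hy fun i => ?_
  have : g i (x i) (y i) ≠ 0 := (Finset.prod_ne_zero_iff.1 hxy) i (Finset.mem_univ i)
  rcases hg i _ _ this with h | h
  · exact Finset.mem_insert_of_mem h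
  · rw [h]; exact Finset.mem_insert_self _ _

end

/-- The matrix whose columns of position below `c` are those of `M`, the others being those
of the identity. -/
def lead {α : Type*} [DecidableEq α] (M : Matrix α α K) (v : α → ℕ) (c : ℕ) : Matrix α α K :=
  Matrix.of fun x y => if v y < c then M x y else (1 : Matrix α α K) x y

theorem NR_kron {ι : Type*} [Fintype ι] [DecidableEq ι] {α : ι → Type*} [∀ i, Fintype (α i)]
    [∀ i, DecidableEq (α i)] [∀ i, Nonempty (α i)] (M : ∀ i, Matrix (α i) (α i) K)
    (v : ∀ i, α i → ℕ) (hv : ∀ i, Function.Injective (v i)) (τ : ι → ℕ) (m : ℕ)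
    (hm : ∀ i a, v i a < m * τ i) (hu : ∀ i c, IsUnit (lead (M i) (v i) c))
    (t ρ β η : ℝ) (ht : 1 ≤ t)
    (hC : ∀ i, (τ i : ℝ) ≤ t) (hρ : ∀ i, (τ i : ℝ) ≤ ρ * Fintype.card (α i))
    (hβ : 0 ≤ β) (hη0 : 0 ≤ η) (hη : η ≤ 1 / 2) :
    NR (kron M) (m * (2 * (Fintype.card (∀ i, α i) * exp (-(η ^ 2 * ρ * Fintype.card ι)))))
      (exp (m * ((4 * β * η * ρ + 2 * log t * ρ + t * exp (-β)) * Fintype.card ι))) := by
  have key : ∀ s : ℕ, NR (kron fun i => lead (M i) (v i) (s * τ i))
      (s * (2 * (Fintype.card (∀ i, α i) * exp (-(η ^ 2 * ρ * Fintype.card ι)))))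
      (exp (s * ((4 * β * η * ρ + 2 * log t * ρ + t * exp (-β)) * Fintype.card ι))) := by
    intro s
    induction s with
    | zero =>
      have : (fun i => lead (M i) (v i) (0 * τ i)) = fun i => 1 := by
        funext i; ext x y; simp [lead]
      rw [this, kron_one]
      simpa using NR.one
    | succ s ih =>
      let g : ∀ i, Matrix (α i) (α i) K := fun i =>
        (lead (M i) (v i) (s * τ i))⁻¹ * lead (M i) (v i) ((s + 1) * τ i)
      let C : ∀ i, Finset (α i) := fun i =>
        Finset.univ.filter fun a => v i a ∈ Finset.Ico (s * τ i) ((s + 1) * τ i)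
      have hCτ : ∀ i, ((C i).card : ℝ) ≤ τ i := by
        intro i
        have : (C i).card ≤ (Finset.Ico (s * τ i) ((s + 1) * τ i)).card :=
          Finset.card_le_card_of_injOn (v i) (fun a ha => by simpa [C] using ha) (hv i).injOn
        rw [Nat.card_Ico, Nat.add_mul, one_mul, Nat.add_sub_cancel_left] at this
        exact_mod_cast this
      have hdet : ∀ i, IsUnit (lead (M i) (v i) (s * τ i)).det := fun i =>
        (Matrix.isUnit_iff_isUnit_det _).1 (hu i _)
      have h1 : (fun i => lead (M i) (v i) ((s + 1) * τ i)) =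
          fun i => lead (M i) (v i) (s * τ i) * g i := by
        funext i
        simp only [g]
        rw [← Matrix.mul_assoc, Matrix.mul_nonsing_inv _ (hdet i), Matrix.one_mul]
      have h2 := NR_block g C (fun i x y hxy => by
        by_contra hne
        rw [not_or] at hne
        apply hxy
        have h3 : g i x y = ((lead (M i) (v i) (s * τ i))⁻¹ * lead (M i) (v i) (s * τ i)) x y := by
          simp only [g, Matrix.mul_apply]
          refine Finset.sum_congr rfl fun z _ => ?_
          congr 1
          have h4 : ¬ (s * τ i ≤ v i y ∧ v i y < (s + 1) * τ i) := by simpa [C] using hne.1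
          have h5 : v i y < (s + 1) * τ i ↔ v i y < s * τ i := by
            rw [Nat.add_mul] at h4 ⊢; omega
          simp only [lead, Matrix.of_apply, h5]
        rw [h3, Matrix.nonsing_inv_mul _ (hdet i)]
        exact Matrix.one_apply_ne (Ne.symm hne.2)) t ρ β η ht
        (fun i => (hCτ i).trans (hC i)) (fun i => (hCτ i).trans (hρ i)) hβ hη0 hη
      rw [h1, kron_mul]
      refine (ih.mul h2 (exp_pos _).le).mono (le_of_eq ?_) (le_of_eq ?_)
      · push_cast; ring
      · rw [← Real.exp_add]; congr 1; push_cast; ring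
  have h : (fun i => lead (M i) (v i) (m * τ i)) = M := by
    funext i; ext x y; simp [lead, hm i y]
  have := key m
  rwa [h] at this

end Pool.Agent.P.MP_dad03b_lc
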