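import Pool.Agent.P.MP_dad03b_lc.Descent

namespace Pool.Agent.P.MP_dad03b_lc

open Finset Real

theorem primes_many (J l : ℕ) (hJ : 2 ≤ J) : ∃ t : ℕ, 3 ≤ t ∧ l < t ^ J ∧
    2 * J ^ 2 * t ^ J ≤ ((Finset.Icc (t ^ J) (t ^ J * t)).filter Nat.Prime).card := by
  set A : ℕ := 8 * (J + 1) * (2 * J ^ 2 + 1) + l + 2 with hA
  have hA2 : 2 ≤ A := by omega
  have ht : 3 ≤ A ^ 2 := by nlinarith
  have hm : A ^ 2 ≤ (A ^ 2) ^ J := Nat.le_self_pow (by omega) _
  refine ⟨A ^ 2, ht, ?_, ?_⟩
  · have : A ≤ A ^ 2 := Nat.le_self_pow (by omega) _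
    omega
  set t := A ^ 2 with htdef
  set m := t ^ J with hmdef
  have h1 : Nat.primeCounting (m * t) ≤ m + ((Finset.Icc m (m * t)).filter Nat.Prime).card := by
    rw [Nat.primeCounting, Nat.primeCounting', Nat.count_eq_card_filter_range]
    calc _ ≤ (Finset.range m ∪ (Finset.Icc m (m * t)).filter Nat.Prime).card := by
          refine Finset.card_le_card fun p hp => ?_
          simp only [Finset.mem_filter, Finset.mem_range, Finset.mem_union, Finset.mem_Icc] at hp ⊢
          by_cases h : p < m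
          · exact Or.inl h
          · exact Or.inr ⟨⟨by omega, by omega⟩, hp.2⟩
      _ ≤ _ := by
          refine (Finset.card_union_le _ _).trans ?_
          rw [Finset.card_range]
  have h2 := Chebyshev.pi_ge (m * t)
  have hn9 : 9 ≤ m * t := by nlinarith
  set n : ℝ := ((m * t : ℕ) : ℝ) with hn
  have hn9' : (9 : ℝ) ≤ n := by rw [hn]; exact_mod_cast hn9
  have hl2 := Real.log_two_gt_d9
  have hl2' := Real.log_two_lt_d9
  have h3 : log (n + 1) ≤ (n + 1) / 8 - 1 + 3 * log 2 := by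
    have h4 : log ((n + 1) / 8) ≤ (n + 1) / 8 - 1 := Real.log_le_sub_one_of_pos (by positivity)
    rw [Real.log_div (by positivity) (by norm_num), show (8 : ℝ) = 2 ^ 3 by norm_num,
      Real.log_pow] at h4
    push_cast at h4
    linarith
  have h4 : n / 4 ≤ n * log 2 - log (n + 1) := by nlinarith
  have hA0 : (0 : ℝ) < A := by exact_mod_cast (by omega : 0 < A)
  have h5 : log n ≤ 2 * (J + 1) * A := by
    have : n = (A : ℝ) ^ (2 * (J + 1)) := by
      rw [hn, hmdef, htdef]; push_cast; ring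
    rw [this, Real.log_pow]
    push_cast
    exact mul_le_mul_of_nonneg_left (Real.log_le_self hA0.le) (by positivity)
  have hlogpos : 0 < log n := Real.log_pos (by linarith)
  have h6 : ((2 * J ^ 2 + 1) * m : ℝ) ≤ (n * log 2 - log (n + 1)) / log n := by
    rw [le_div_iff₀ hlogpos]
    refine le_trans ?_ h4
    have h7 : (8 * (J + 1) * (2 * J ^ 2 + 1) : ℝ) ≤ A := by
      have : 8 * (J + 1) * (2 * J ^ 2 + 1) ≤ A := by omega
      exact_mod_cast this
    have h8 : n = m * (A : ℝ) ^ 2 := by rw [hn, htdef]; push_cast; ring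
    calc ((2 * J ^ 2 + 1) * m : ℝ) * log n ≤ ((2 * J ^ 2 + 1) * m) * (2 * (J + 1) * A) :=
          mul_le_mul_of_nonneg_left h5 (by positivity)
      _ = (m * A / 4) * (8 * (J + 1) * (2 * J ^ 2 + 1)) := by ring
      _ ≤ (m * A / 4) * A := mul_le_mul_of_nonneg_left h7 (by positivity)
      _ = n / 4 := by rw [h8]; ring
  have h7 : (2 * J ^ 2 + 1) * m ≤ Nat.primeCounting (m * t) := by
    have := h6.trans h2
    exact_mod_cast this
  nlinarith

theorem digits_NR (ε : ℝ) (hε : 0 < ε) (l : ℕ) : ∃ (b : ℕ) (C : ℝ), 3 ≤ b ∧ 0 < C ∧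
    ∀ (F : Type) [Field F], (∀ p : ℕ, p.Prime → l < p → (p : F) ≠ 0) →
    ∀ (κ : Type) [Fintype κ] (X : Type) [Fintype X] (e : X → κ → ℕ), Function.Injective e →
      (∀ x c, e x c < b) → ∀ h : (κ → ℕ) → F, NR (Matrix.of fun x y => h (e x + e y))
        (C * ((b : ℝ) ^ Fintype.card κ * exp (-(2 * Fintype.card κ))))
        (exp (ε * (Fintype.card κ * log b))) := by
  classical
  obtain ⟨J, hJ, hJε⟩ : ∃ J : ℕ, 2 ≤ J ∧ 100 / ε ≤ J :=
    ⟨⌈100 / ε⌉₊ + 2, by omega, by push_cast; linarith [Nat.le_ceil (100 / ε)]⟩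
  obtain ⟨t, ht, hl, hP⟩ := primes_many J l hJ
  set m := t ^ J with hm
  set P := (Finset.Icc m (m * t)).filter Nat.Prime with hPdef
  have hPm : ∀ p ∈ P, p.Prime ∧ m ≤ p ∧ p ≤ m * t := by
    intro p hp
    simp only [hPdef, Finset.mem_filter, Finset.mem_Icc] at hp
    exact ⟨hp.2, hp.1.1, hp.1.2⟩
  set N : ℕ := ∏ p ∈ P, p with hN
  have hm9 : 9 ≤ m := by
    calc 9 = 3 ^ 2 := by norm_num
      _ ≤ t ^ 2 := Nat.pow_le_pow_left ht 2
      _ ≤ t ^ J := Nat.pow_le_pow_right (by omega) hJ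
  have hNm : m ^ P.card ≤ N := Finset.pow_card_le_prod _ _ _ fun p hp => (hPm p hp).2.1
  have hP1 : 1 ≤ P.card := le_trans (by
    have : 0 < 2 * J ^ 2 * m := by positivity
    omega) hP
  have hN9 : 9 ≤ N := hm9.trans ((Nat.le_self_pow (by omega) _).trans hNm)
  refine ⟨N / 2, 4 * N * m, by omega, by positivity, ?_⟩
  intro F _ hF κ _ X _ e he heb h
  set b := N / 2 with hb
  let d : κ × P → ℕ := fun c => c.2
  have : ∀ c, NeZero (d c) := fun c => ⟨(hPm _ c.2.2).1.ne_zero⟩
  have hNF : (N : F) ≠ 0 := by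
    rw [hN, Nat.cast_prod]
    exact Finset.prod_ne_zero_iff.2 fun p hp => hF p (hPm p hp).1 (hl.trans_le (hPm p hp).2.1)
  let E : (κ → ℕ) → ∀ c, ZMod (d c) := fun u c => (u c.1 : ZMod (d c))
  have hE : ∀ u u' : κ → ℕ, (∀ c, u c < N) → (∀ c, u' c < N) → E u = E u' → u = u' := by
    intro u u' hu hu' huu
    funext c
    have h1 : ∀ p ∈ P, u c ≡ u' c [MOD p] := fun p hp =>
      (ZMod.natCast_eq_natCast_iff _ _ _).1 (congr_fun huu (c, ⟨p, hp⟩))
    have h2 : (N : ℤ) ∣ (u' c : ℤ) - u c := by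
      rw [hN, Nat.cast_prod]
      refine Finset.prod_dvd_of_coprime ?_ fun p hp => (h1 p hp).dvd
      intro p hp q hq hpq
      exact Nat.isCoprime_iff_coprime.2
        ((Nat.coprime_primes (hPm p hp).1 (hPm q hq).1).2 hpq)
    exact (Nat.modEq_iff_dvd.2 h2).eq_of_lt_of_lt (hu c) (hu' c)
  let g : (∀ c, ZMod (d c)) → F := fun z =>
    if H : ∃ u : κ → ℕ, (∀ c, u c < N) ∧ E u = z then h H.choose else 0
  have hg : ∀ u : κ → ℕ, (∀ c, u c < N) → g (E u) = h u := by
    intro u hu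
    have H : ∃ u' : κ → ℕ, (∀ c, u' c < N) ∧ E u' = E u := ⟨u, hu, rfl⟩
    simp only [g, dif_pos H]
    rw [hE _ _ H.choose_spec.1 hu H.choose_spec.2]
  have ht1 : (1 : ℝ) ≤ t + 1 := by linarith [(Nat.cast_nonneg t : (0 : ℝ) ≤ t)]
  have hm0 : (0 : ℝ) < m := by exact_mod_cast (by omega : 0 < m)
  have hJ0 : (2 : ℝ) ≤ J := by exact_mod_cast hJ
  have ht3 : (3 : ℝ) ≤ t := by exact_mod_cast ht
  have hm1 : (9 : ℝ) ≤ m := by exact_mod_cast hm9
  have h1 := NR_hankel_zmod d N hNF (fun c => Finset.dvd_prod_of_mem _ c.2.2)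
    (fun c => d c / m + 1) m (fun c => (Nat.lt_mul_div_succ _ (by omega)).le) (t + 1) (2 / m)
    (log (m * (t + 1))) (1 / J) ht1
    (fun c => by
      have : d c / m ≤ t := Nat.div_le_of_le_mul (hPm _ c.2.2).2.2
      exact_mod_cast Nat.succ_le_succ this)
    (fun c => by
      have h2 : m ≤ d c := (hPm _ c.2.2).2.1
      have h3 : (d c / m + 1) * m ≤ 2 * d c := by
        have := Nat.div_mul_le_self (d c) m
        nlinarith
      rw [div_mul_eq_mul_div, le_div_iff₀ hm0]
      exact_mod_cast h3)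
    (Real.log_nonneg (by nlinarith)) (by positivity)
    (one_div_le_one_div_of_le (by norm_num) hJ0) g
  have h2 := h1.submatrix (fun x => E (e x)) (fun x => E (e x)) (fun x y hxy =>
    he (hE _ _ (fun c => (heb x c).trans_le (Nat.div_le_self _ _))
      (fun c => (heb y c).trans_le (Nat.div_le_self _ _)) hxy))
  have h3 : (Matrix.of fun x y => g (x + y)).submatrix (fun x => E (e x)) (fun x => E (e x)) =
      Matrix.of fun x y => h (e x + e y) := by
    ext x y
    simp only [Matrix.submatrix_apply, Matrix.of_apply]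
    rw [← hg (e x + e y) fun c => by
      have h4 := heb x c
      have h5 := heb y c
      simp only [Pi.add_apply]
      omega]
    congr 1
    funext c
    simp [E]
  rw [h3] at h2
  set r : ℕ := Fintype.card κ with hr
  have hcard : (Fintype.card (κ × P) : ℝ) = r * P.card := by
    rw [Fintype.card_prod, Fintype.card_coe]; push_cast; rfl
  have hprod : ∏ c, (d c : ℝ) = (N : ℝ) ^ r := by
    rw [Fintype.prod_prod_type]
    have : ∏ p : P, ((p : ℕ) : ℝ) = N := by
      rw [hN, Nat.cast_prod, Finset.prod_coe_sort P (fun p => (p : ℝ))]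
    simp only [d, this, Finset.prod_const, Finset.card_univ, hr]
  rw [hcard, hprod] at h2
  have hb3 : 3 ≤ b := by omega
  have hb3' : (3 : ℝ) ≤ b := by exact_mod_cast hb3
  have hNb : (N : ℝ) ≤ 3 * b := by exact_mod_cast (by omega : N ≤ 3 * b)
  have hr0 : (0 : ℝ) ≤ r := Nat.cast_nonneg _
  refine h2.mono ?_ (Real.exp_le_exp.2 ?_)
  · refine mul_le_mul_of_nonneg_left ?_ (by positivity)
    have h4 : (2 * J ^ 2 * m : ℝ) ≤ P.card := by exact_mod_cast hP
    have h5 : 4 * r ≤ (1 / (J : ℝ)) ^ 2 * (2 / m) * (r * P.card) := by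
      calc 4 * (r : ℝ) = (1 / (J : ℝ)) ^ 2 * (2 / m) * (r * (2 * J ^ 2 * m)) := by
            field_simp; ring
        _ ≤ _ := by gcongr
    have h6 : (3 : ℝ) ≤ exp 2 := by linarith [Real.add_one_le_exp 2]
    calc (N : ℝ) ^ r * exp (-((1 / (J : ℝ)) ^ 2 * (2 / m) * (r * P.card)))
        ≤ (exp 2 * b) ^ r * exp (-(4 * r)) := by
          gcongr
          nlinarith
      _ = _ := by
          rw [mul_pow, ← Real.exp_nat_mul, mul_comm (exp _), mul_assoc, ← Real.exp_add]
          congr 2; ring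
  · set L := log t with hL
    have hL1 : 1 ≤ L := by
      rw [hL, Real.le_log_iff_exp_le (by linarith)]
      linarith [Real.exp_one_lt_d9]
    have h4 : log (t + 1) ≤ 2 * L := by
      have : log ((t : ℝ) + 1) ≤ log ((t : ℝ) ^ 2) := Real.log_le_log (by linarith) (by nlinarith)
      rwa [Real.log_pow] at this
    have h5 : log m = J * L := by rw [hm, Nat.cast_pow, Real.log_pow]
    have h6 : log (m * (t + 1)) ≤ 2 * J * L := by
      rw [Real.log_mul hm0.ne' (by linarith), h5]; nlinarith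
    have h7 : exp (-log (m * (t + 1))) = (m * (t + 1) : ℝ)⁻¹ := by
      rw [Real.exp_neg, Real.exp_log (by positivity)]
    have h8 : 2 * m * (4 * log (m * (t + 1)) * (1 / J) * (2 / m) + 2 * log (t + 1) * (2 / m) +
        (t + 1) * exp (-log (m * (t + 1)))) ≤ 50 * L := by
      rw [h7]
      have h9 : 2 * m * (4 * log (m * (t + 1)) * (1 / J) * (2 / m) + 2 * log (t + 1) * (2 / m) +
          (t + 1) * (m * (t + 1) : ℝ)⁻¹) = 16 * (log (m * (t + 1)) / J) + 8 * log (t + 1) + 2 := by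
        field_simp; ring
      have h10 : log (m * (t + 1)) / J ≤ 2 * L := by
        rw [div_le_iff₀ (by linarith)]; linarith
      rw [h9]; linarith
    have h9 : P.card * (J * L) ≤ 2 * log b := by
      rw [← h5, ← Real.log_pow]
      have h10 : log ((b : ℝ) ^ 2) = 2 * log b := by rw [Real.log_pow]; norm_num
      rw [← h10]
      refine Real.log_le_log (by positivity) ?_
      have : ((m : ℝ)) ^ P.card ≤ N := by exact_mod_cast hNm
      nlinarith
    have h10 : 100 ≤ ε * J := by rwa [div_le_iff₀ hε, mul_comm] at hJε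
    have hP0 : (0 : ℝ) ≤ P.card := Nat.cast_nonneg _
    calc _ = 2 * m * (4 * log (m * (t + 1)) * (1 / J) * (2 / m) + 2 * log (t + 1) * (2 / m) +
        (t + 1) * exp (-log (m * (t + 1)))) * (r * P.card) := by ring
      _ ≤ 50 * L * (r * P.card) := mul_le_mul_of_nonneg_right h8 (by positivity)
      _ = 100 * (L * r * P.card / 2) := by ring
      _ ≤ (ε * J) * (L * r * P.card / 2) := mul_le_mul_of_nonneg_right h10 (by positivity)
      _ = ε * r / 2 * (P.card * (J * L)) := by ring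
      _ ≤ ε * r / 2 * (2 * log b) := mul_le_mul_of_nonneg_left h9 (by positivity)
      _ = _ := by ring

end Pool.Agent.P.MP_dad03b_lc
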