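import Pool.Agent.P.MP_dad03b_lc.Toeplitz

namespace Pool.Agent.P.MP_dad03b_lc

open Finset Real Filter

theorem nnz_le {α β : Type*} [Fintype α] [Fintype β] [DecidableEq α] [DecidableEq β]
    (Z : Matrix α β ℚ) (R : α → Finset β) (h : ∀ x y, Z x y ≠ 0 → y ∈ R x) :
    (Finset.univ.filter fun p : α × β => Z p.1 p.2 ≠ 0).card ≤ ∑ x, (R x).card := by
  calc _ ≤ (Finset.univ.biUnion fun x => (R x).image (Prod.mk x)).card := by
        refine Finset.card_le_card fun p hp => ?_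
        simp only [Finset.mem_filter, Finset.mem_univ, true_and] at hp
        exact Finset.mem_biUnion.2 ⟨p.1, Finset.mem_univ _, Finset.mem_image.2 ⟨p.2, h _ _ hp, rfl⟩⟩
    _ ≤ _ := Finset.card_biUnion_le.trans (Finset.sum_le_sum fun x _ => Finset.card_image_le)

theorem main (ε : ℝ) (hε : 0 < ε) : ∃ γ : ℝ, 0 < γ ∧ ∃ q₀ : ℕ,
    ∀ (F : Type) [Field F] [Fintype F] [DecidableEq F], q₀ ≤ Fintype.card F →
    ∃ Z : Matrix (Unit ⊕ F) (Unit ⊕ F) ℚ,
      ((1 + Matrix.fromBlocks 0 (Matrix.of fun _ _ => 1) (Matrix.of fun _ _ => -1)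
          (Matrix.of fun x y => (quadraticChar F (x - y) : ℚ)) - Z).rank : ℝ) ≤
        min (((Fintype.card F : ℝ) + 1) ^ (1 - γ))
          (((Fintype.card F : ℝ) + 1) / Real.log (Real.log ((Fintype.card F : ℝ) + 1))) ∧
      ((Finset.univ.filter fun p : (Unit ⊕ F) × (Unit ⊕ F) => Z p.1 p.2 ≠ 0).card : ℝ) <
        ((Fintype.card F : ℝ) + 1) ^ (1 + ε) := by
  obtain ⟨γ₀, C, hγ₀, hC, H⟩ := NR_field (ε / 2) (by positivity)
  set γ : ℝ := min (γ₀ / 2) 1 with hγdef
  have hγ : 0 < γ := lt_min (by positivity) one_pos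
  have hγ1 : γ ≤ 1 := min_le_right _ _
  have hγ2 : γ ≤ γ₀ / 2 := min_le_left _ _
  have E1 : ∀ᶠ x : ℝ in atTop, C ≤ x ^ γ := (tendsto_rpow_atTop hγ).eventually_ge_atTop C
  have E2 : ∀ᶠ x : ℝ in atTop, ‖log x‖ ≤ ‖x ^ γ‖ := (isLittleO_log_rpow_atTop hγ).eventuallyLE
  have E3 : ∀ᶠ x : ℝ in atTop, 4 < x ^ (ε / 2) :=
    (tendsto_rpow_atTop (by positivity)).eventually_gt_atTop 4
  have E4 : ∀ᶠ x : ℝ in atTop, 1 < log x := Real.tendsto_log_atTop.eventually_gt_atTop 1
  obtain ⟨x₀, hx₀⟩ := eventually_atTop.1 (E1.and (E2.and (E3.and E4)))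
  refine ⟨γ, hγ, ⌈x₀⌉₊, ?_⟩
  intro F _ _ _ hq
  set q : ℝ := (Fintype.card F : ℝ) with hqdef
  have hq0 : x₀ ≤ q := Nat.ceil_le.1 hq
  have hq1 : 1 ≤ q := by rw [hqdef]; exact_mod_cast Fintype.card_pos
  obtain ⟨hq2, -, -, -⟩ := hx₀ q hq0
  obtain ⟨-, hn2, hn3, hn4⟩ := hx₀ (q + 1) (by linarith)
  obtain ⟨S, T, h1, h2, h3⟩ := H F fun z => (quadraticChar F z : ℚ)
  rw [← hqdef] at h1 h2
  set Q : Matrix F F ℚ := Matrix.of fun x y => (quadraticChar F (x - y) : ℚ) with hQ
  refine ⟨1 + Matrix.fromBlocks 0 (Matrix.of fun _ _ => 1) (Matrix.of fun _ _ => -1) Q -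
    Matrix.fromBlocks 0 0 0 (Q - S), ?_, ?_⟩
  · rw [sub_sub_cancel]
    have e : (Matrix.fromBlocks 0 0 0 (Q - S) : Matrix (Unit ⊕ F) (Unit ⊕ F) ℚ) =
        Matrix.fromRows 0 (1 : Matrix F F ℚ) * (Q - S) * Matrix.fromCols 0 (1 : Matrix F F ℚ) := by
      rw [Matrix.fromRows_mul, Matrix.fromRows_mul_fromCols]
      simp
    have h4 : ((Matrix.fromBlocks 0 0 0 (Q - S) : Matrix (Unit ⊕ F) (Unit ⊕ F) ℚ).rank : ℝ) ≤
        (Q - S).rank := by
      rw [e]
      have a1 := Matrix.rank_mul_le_left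
        (Matrix.fromRows (0 : Matrix Unit F ℚ) (1 : Matrix F F ℚ) * (Q - S))
        (Matrix.fromCols (0 : Matrix F Unit ℚ) (1 : Matrix F F ℚ))
      have a2 := Matrix.rank_mul_le_right
        (Matrix.fromRows (0 : Matrix Unit F ℚ) (1 : Matrix F F ℚ)) (Q - S)
      exact Nat.cast_le.2 (a1.trans a2)
    have h5 : C * (q * exp (-(γ₀ * log q))) ≤ (q + 1) ^ (1 - γ) := by
      have hq' : 0 < q := by linarith
      calc C * (q * exp (-(γ₀ * log q))) = C * (q * q ^ (-γ₀)) := by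
            rw [Real.rpow_def_of_pos hq']; congr 3; ring
        _ ≤ q ^ γ * (q * q ^ (-γ₀)) := by gcongr
        _ = q ^ (γ + 1 - γ₀) := by
            rw [sub_eq_add_neg, Real.rpow_add hq', Real.rpow_add hq', Real.rpow_one]; ring
        _ ≤ q ^ (1 - γ) := Real.rpow_le_rpow_of_exponent_le hq1 (by linarith)
        _ ≤ _ := Real.rpow_le_rpow hq'.le (by linarith) (by linarith)
    have h6 : (q + 1) ^ (1 - γ) ≤ (q + 1) / log (log (q + 1)) := by
      have hn : 0 < q + 1 := by linarith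
      rw [Real.rpow_sub hn, Real.rpow_one]
      refine div_le_div_of_nonneg_left hn.le (Real.log_pos hn4) ?_
      rw [Real.norm_of_nonneg (by linarith), Real.norm_of_nonneg (by positivity)] at hn2
      exact (Real.log_le_self (by linarith)).trans hn2
    exact le_min (h4.trans (h1.trans h5)) (h4.trans (h1.trans (h5.trans h6)))
  · have h4 := nnz_le (1 + Matrix.fromBlocks 0 (Matrix.of fun _ _ => 1) (Matrix.of fun _ _ => -1) Q -
      Matrix.fromBlocks 0 0 0 (Q - S) : Matrix (Unit ⊕ F) (Unit ⊕ F) ℚ)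
      (Sum.elim (fun _ => Finset.univ)
        fun x => insert (Sum.inl ()) (insert (Sum.inr x) ((T x).image Sum.inr))) (by
        rintro (x | x) (y | y) hxy
        · simp
        · simp
        · simp
        · by_cases h : y = x
          · simp [h]
          · have : S x y ≠ 0 := by simpa [Matrix.one_apply, Ne.symm h] using hxy
            simp [h3 x y this])
    rw [Fintype.sum_sum_type] at h4
    have h5 : ∀ x : F, ((insert (Sum.inl ()) (insert (Sum.inr x) ((T x).image Sum.inr)) :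
        Finset (Unit ⊕ F)).card : ℝ) ≤ (q + 1) ^ (ε / 2) + 2 := by
      intro x
      have h6 : (insert (Sum.inl ()) (insert (Sum.inr x) ((T x).image Sum.inr)) :
          Finset (Unit ⊕ F)).card ≤ (T x).card + 1 + 1 :=
        (Finset.card_insert_le _ _).trans (Nat.succ_le_succ ((Finset.card_insert_le _ _).trans
          (Nat.succ_le_succ Finset.card_image_le)))
      have h7 : exp (ε / 2 * log q) ≤ (q + 1) ^ (ε / 2) := by
        rw [mul_comm, ← Real.rpow_def_of_pos (by linarith)]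
        exact Real.rpow_le_rpow (by linarith) (by linarith) (by positivity)
      have h8 : ((insert (Sum.inl ()) (insert (Sum.inr x) ((T x).image Sum.inr)) :
          Finset (Unit ⊕ F)).card : ℝ) ≤ (T x).card + 1 + 1 := by exact_mod_cast h6
      linarith [h2 x]
    have h6 := Finset.sum_le_card_nsmul Finset.univ _ _ fun x _ => h5 x
    rw [nsmul_eq_mul, Finset.card_univ, ← hqdef] at h6
    have h7 := (Nat.cast_le (α := ℝ)).2 h4
    simp only [Sum.elim_inl, Sum.elim_inr, Finset.card_univ, Fintype.card_sum, Fintype.card_unit,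
      Finset.sum_const, smul_eq_mul, one_mul, Nat.cast_add, Nat.cast_one, Nat.cast_sum] at h7
    rw [← hqdef] at h7
    have h8 : (q + 1) ^ (1 + ε) = (q + 1) * ((q + 1) ^ (ε / 2) * (q + 1) ^ (ε / 2)) := by
      rw [← Real.rpow_add (by linarith), Real.rpow_add (by linarith), Real.rpow_one, add_halves]
    rw [h8]
    refine (h7.trans (add_le_add le_rfl h6)).trans_lt ?_
    set s := (q + 1) ^ (ε / 2)
    have h9 : 4 * s < s * s := by nlinarith
    nlinarith

end Pool.Agent.P.MP_dad03b_lc
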