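import Pool.Agent.P.MP_dad03b_lc.Large

namespace Pool.Agent.P.MP_dad03b_lc

open Finset Real

theorem sum_digits (b v j : ℕ) : ∑ l : Fin j, (v / b ^ (l : ℕ) % b) * b ^ (l : ℕ) = v % b ^ j := by
  induction j with
  | zero => simp [Nat.mod_one]
  | succ j ih => rw [Fin.sum_univ_castSucc, Nat.mod_pow_succ, ← ih]; simp [mul_comm]

theorem clog_bounds (b d : ℕ) (hb : 3 ≤ b) (hd : d = 1 ∨ b ^ b < d) :
    Nat.clog b d * log b - 2 * Nat.clog b d ≤ log d - 1 / b * log d ∧
      Nat.clog b d * log b ≤ 2 * log d := by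
  rcases hd with rfl | hd
  · simp
  have hb1 : 1 < b := by omega
  have h1 : b < Nat.clog b d := (Nat.lt_clog_iff_pow_lt hb1).2 hd
  have hd1 : 1 < d := lt_of_le_of_lt (Nat.one_le_pow _ _ (by omega)) hd
  have h2 : b ^ (Nat.clog b d - 1) < d := Nat.pow_pred_clog_lt_self hb1 hd1
  have h3 : d ≤ b ^ Nat.clog b d := Nat.le_pow_clog hb1 d
  set j := Nat.clog b d with hj
  have hb0 : (3 : ℝ) ≤ b := by exact_mod_cast hb
  have hd0 : (0 : ℝ) < d := by exact_mod_cast (by omega : 0 < d)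
  have h4 : (j - 1 : ℝ) * log b ≤ log d := by
    have h5 : ((b : ℝ)) ^ (j - 1) ≤ d := by exact_mod_cast h2.le
    have := Real.log_le_log (by positivity) h5
    rwa [Real.log_pow, Nat.cast_sub (by omega), Nat.cast_one] at this
  have h5 : log d ≤ j * log b := by
    have h5 : (d : ℝ) ≤ (b : ℝ) ^ j := by exact_mod_cast h3
    have := Real.log_le_log hd0 h5
    rwa [Real.log_pow] at this
  have h6 : log b ≤ b := Real.log_le_self (by linarith)
  have h7 : (b : ℝ) ≤ j := by exact_mod_cast h1.le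
  have h8 : 0 ≤ log b := Real.log_nonneg (by linarith)
  have h9 : 1 / b * log d ≤ j := by
    rw [one_div_mul_eq_div, div_le_iff₀ (by linarith)]
    nlinarith
  constructor
  · nlinarith
  · nlinarith

theorem NR_large (ε : ℝ) (hε : 0 < ε) (l : ℕ) : ∃ (D : ℕ) (γ C : ℝ), 0 < D ∧ 0 < γ ∧ 0 < C ∧
    ∀ (F : Type) [Field F], (∀ p : ℕ, p.Prime → l < p → (p : F) ≠ 0) →
    ∀ (ι : Type) [Fintype ι] [DecidableEq ι] (d : ι → ℕ) [∀ i, NeZero (d i)],
      (∀ i, d i = 1 ∨ D < d i) →
      ∀ f : (∀ i, ZMod (d i)) → F, NR (Matrix.of fun x y => f (x + y))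
        (C * ((∏ i, (d i : ℝ)) * exp (-(γ * log (∏ i, (d i : ℝ))))))
        (exp (ε * log (∏ i, (d i : ℝ)))) := by
  obtain ⟨b, C, hb, hC, H⟩ := digits_NR (ε / 2) (by positivity) l
  have hb0 : (3 : ℝ) ≤ b := by exact_mod_cast hb
  refine ⟨b ^ b, 1 / b, C, by positivity, by positivity, hC, ?_⟩
  intro F _ hF ι _ _ d _ hd f
  let j : ι → ℕ := fun i => Nat.clog b (d i)
  let e : (∀ i, ZMod (d i)) → (Σ i, Fin (j i)) → ℕ := fun x c =>
    (x c.1).val / b ^ (c.2 : ℕ) % b
  let dec : ((Σ i, Fin (j i)) → ℕ) → ∀ i, ZMod (d i) := fun u i =>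
    ((∑ l : Fin (j i), u ⟨i, l⟩ * b ^ (l : ℕ) : ℕ) : ZMod (d i))
  have hdec : ∀ x, dec (e x) = x := by
    intro x
    funext i
    simp only [dec, e]
    rw [sum_digits, Nat.mod_eq_of_lt ((ZMod.val_lt _).trans_le (Nat.le_pow_clog (by omega) _)),
      ZMod.natCast_zmod_val]
  have hadd : ∀ u u', dec (u + u') = dec u + dec u' := by
    intro u u'
    funext i
    simp [dec, add_mul, Finset.sum_add_distrib]
  have h1 := H F hF (Σ i, Fin (j i)) (∀ i, ZMod (d i)) e
    (Function.LeftInverse.injective hdec) (fun x c => Nat.mod_lt _ (by omega)) fun u => f (dec u)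
  simp only [hadd, hdec] at h1
  have hr : (Fintype.card (Σ i, Fin (j i)) : ℝ) = ∑ i, (j i : ℝ) := by simp
  have hdpos : ∀ i, (0 : ℝ) < d i := fun i => by exact_mod_cast NeZero.pos (d i)
  have hlog : log (∏ i, (d i : ℝ)) = ∑ i, log (d i) :=
    Real.log_prod fun i _ => (hdpos i).ne'
  have hn : 0 < ∏ i, (d i : ℝ) := Finset.prod_pos fun i _ => hdpos i
  refine h1.mono (mul_le_mul_of_nonneg_left ?_ hC.le) (Real.exp_le_exp.2 ?_)
  · have h2 : (b : ℝ) ^ Fintype.card (Σ i, Fin (j i)) =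
        exp (Fintype.card (Σ i, Fin (j i)) * log b) := by
      rw [Real.exp_nat_mul, Real.exp_log (by linarith)]
    rw [h2, ← Real.exp_add]
    nth_rewrite 1 [← Real.exp_log hn]
    rw [← Real.exp_add, Real.exp_le_exp, hr, hlog, Finset.sum_mul, Finset.mul_sum, Finset.mul_sum,
      ← sub_eq_add_neg, ← sub_eq_add_neg, ← Finset.sum_sub_distrib, ← Finset.sum_sub_distrib]
    exact Finset.sum_le_sum fun i _ => (clog_bounds b (d i) hb (hd i)).1
  · have h2 : ∑ i, (j i : ℝ) * log b ≤ ∑ i, 2 * log (d i) :=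
      Finset.sum_le_sum fun i _ => (clog_bounds b (d i) hb (hd i)).2
    rw [← Finset.sum_mul, ← Finset.mul_sum] at h2
    rw [hr, hlog]
    nlinarith

theorem NR_field (ε : ℝ) (hε : 0 < ε) : ∃ γ C : ℝ, 0 < γ ∧ 0 < C ∧
    ∀ (E : Type) [Field E] [Fintype E] (f : E → ℚ), NR (Matrix.of fun x y => f (x - y))
      (C * (Fintype.card E * exp (-(γ * log (Fintype.card E)))))
      (exp (ε * log (Fintype.card E))) := by
  obtain ⟨D, γ, C, hD, hγ, hC, H⟩ := NR_large ε hε 0
  obtain ⟨γ', hγ', H'⟩ := NR_small ε hε D hD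
  refine ⟨min γ γ', max C (4 * D * D), lt_min hγ hγ', lt_max_of_lt_left hC, ?_⟩
  intro E _ _ f
  obtain ⟨p, hp⟩ := CharP.exists E
  have hpp : p.Prime := CharP.char_is_prime E p
  have : Fact p.Prime := ⟨hpp⟩
  let _ : Algebra (ZMod p) E := ZMod.algebra E p
  let φ := (Module.finBasis (ZMod p) E).equivFun
  set a := Module.finrank (ZMod p) E with ha
  have hcard : (∏ _i : Fin a, (p : ℝ)) = Fintype.card E := by
    rw [Fintype.card_congr φ.toEquiv]; simp
  have hq : (1 : ℝ) ≤ Fintype.card E := by exact_mod_cast Fintype.card_pos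
  have hlq : 0 ≤ log (Fintype.card E) := Real.log_nonneg hq
  have key : NR (Matrix.of fun x y : Fin a → ZMod p => f (φ.symm (x + y)))
      (max C (4 * D * D) * (Fintype.card E * exp (-(min γ γ' * log (Fintype.card E)))))
      (exp (ε * log (Fintype.card E))) := by
    by_cases hpD : D < p
    · have h1 := H ℚ (fun p hp _ => by exact_mod_cast hp.ne_zero) (Fin a) (fun _ => p)
        (fun _ => Or.inr hpD) fun z => f (φ.symm z)
      rw [hcard] at h1
      refine h1.mono ?_ le_rfl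
      gcongr
      · exact le_max_left _ _
      · exact min_le_left _ _
    · have h1 := H' ℚ p (by exact_mod_cast hpp.ne_zero) (Fin a) (fun _ => p)
        (fun _ => ⟨hpp.two_le, by omega, dvd_rfl⟩) fun z => f (φ.symm z)
      rw [hcard] at h1
      refine h1.mono ?_ le_rfl
      have h2 : (p : ℝ) ≤ D := by exact_mod_cast (by omega : p ≤ D)
      gcongr
      · refine le_trans ?_ (le_max_right _ _)
        gcongr
      · exact min_le_right _ _
  have h2 := key.submatrix φ (fun y => φ (-y)) (φ.injective.comp neg_injective)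
  convert h2 using 1
  ext x y
  simp only [Matrix.submatrix_apply, Matrix.of_apply]
  rw [← map_add, LinearEquiv.symm_apply_apply, sub_eq_add_neg]

end Pool.Agent.P.MP_dad03b_lc
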