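import Pool.Agent.P.MP_dad03b_lc.GMain

namespace Pool.Agent.P.MP_dad03b_lc.VariantAllCirculants

theorem result (ε : ℝ) (hε : 0 < ε) : ∃ γ : ℝ, 0 < γ ∧ ∃ n₀ : ℕ,
    ∀ (K : Type) [Field K] (G : Type) [AddCommGroup G] [Fintype G], n₀ ≤ Fintype.card G →
    ∀ f : G → K, ∃ Z : Matrix G G K,
      (((Matrix.of fun x y => f (x - y)) - Z).rank : ℝ) ≤ (Fintype.card G : ℝ) ^ (1 - γ) ∧
      ∀ x, ({y | Z x y ≠ 0}.ncard : ℝ) ≤ (Fintype.card G : ℝ) ^ ε :=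
  Pool.Agent.P.MP_dad03b_lc.circulant_main ε hε

end Pool.Agent.P.MP_dad03b_lc.VariantAllCirculants
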